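import Pool.Agent.Helper12.Toep.Defs

/-!
# Basic facts on Toeplitz forms
-/

set_option autoImplicit false

open MeasureTheory ProbabilityTheory Finset

namespace Pool.Agent.Helper12.Toep

noncomputable section

/-! ### algebra of the forms -/

lemma B_comm (n : ℕ) (x v w : ℕ → ℝ) : B n x v w = B n x w v := by
  unfold B
  rw [Finset.sum_comm]
  refine Finset.sum_congr rfl fun i _ => Finset.sum_congr rfl fun j _ => ?_
  have h : ((j : ℤ) - (i : ℤ)).natAbs = ((i : ℤ) - (j : ℤ)).natAbs := by omega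
  rw [h]
  ring

lemma B_add_left (n : ℕ) (x u v w : ℕ → ℝ) : B n x (u + v) w = B n x u w + B n x v w := by
  unfold B
  simp only [← Finset.sum_add_distrib, Pi.add_apply]
  refine Finset.sum_congr rfl fun i _ => Finset.sum_congr rfl fun j _ => ?_
  ring

lemma B_smul_left (n : ℕ) (x v w : ℕ → ℝ) (α : ℝ) : B n x (α • v) w = α * B n x v w := by
  unfold B
  simp only [Finset.mul_sum, Pi.smul_apply, smul_eq_mul]
  refine Finset.sum_congr rfl fun i _ => Finset.sum_congr rfl fun j _ => ?_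
  ring

lemma B_add_right (n : ℕ) (x u v w : ℕ → ℝ) : B n x u (v + w) = B n x u v + B n x u w := by
  rw [B_comm, B_add_left, B_comm n x v u, B_comm n x w u]

lemma B_smul_right (n : ℕ) (x v w : ℕ → ℝ) (α : ℝ) : B n x v (α • w) = α * B n x v w := by
  rw [B_comm, B_smul_left, B_comm]

lemma Q_comb (n : ℕ) (x v w : ℕ → ℝ) (α β : ℝ) :
    Q n x (α • v + β • w) = α ^ 2 * Q n x v + 2 * α * β * B n x v w + β ^ 2 * Q n x w := by
  unfold Q
  simp only [B_add_left, B_add_right, B_smul_left, B_smul_right]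
  rw [B_comm n x w v]
  ring

lemma Q_smul (n : ℕ) (x v : ℕ → ℝ) (α : ℝ) : Q n x (α • v) = α ^ 2 * Q n x v := by
  unfold Q
  rw [B_smul_left, B_smul_right]
  ring

lemma ip_comm (n : ℕ) (v w : ℕ → ℝ) : ip n v w = ip n w v := by
  unfold ip
  exact Finset.sum_congr rfl fun i _ => by ring

lemma nsq_comb (n : ℕ) (v w : ℕ → ℝ) (α β : ℝ) :
    nsq n (α • v + β • w) = α ^ 2 * nsq n v + 2 * α * β * ip n v w + β ^ 2 * nsq n w := by
  unfold nsq ip
  simp only [Finset.mul_sum, ← Finset.sum_add_distrib, Pi.add_apply, Pi.smul_apply, smul_eq_mul]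
  exact Finset.sum_congr rfl fun i _ => by ring

lemma nsq_smul (n : ℕ) (v : ℕ → ℝ) (α : ℝ) : nsq n (α • v) = α ^ 2 * nsq n v := by
  unfold nsq
  simp only [Finset.mul_sum, Pi.smul_apply, smul_eq_mul]
  exact Finset.sum_congr rfl fun i _ => by ring

lemma nsq_nonneg (n : ℕ) (v : ℕ → ℝ) : 0 ≤ nsq n v :=
  Finset.sum_nonneg fun i _ => sq_nonneg _

lemma eq_zero_of_nsq {n : ℕ} {v : ℕ → ℝ} (h : nsq n v = 0) {i : ℕ} (hi : i < n) : v i = 0 := by
  unfold nsq at h
  rw [Finset.sum_eq_zero_iff_of_nonneg fun i _ => sq_nonneg _] at h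
  have := h i (Finset.mem_range.mpr hi)
  exact pow_eq_zero_iff (two_ne_zero) |>.mp this

/-- for fixed `i < n`, each distance occurs at most twice -/
lemma sum_dist_le {n : ℕ} (g : ℕ → ℝ) (hg : ∀ k, 0 ≤ g k) {i : ℕ} (hi : i < n) :
    ∑ j ∈ range n, g ((i : ℤ) - (j : ℤ)).natAbs ≤ ∑ k ∈ range n, 2 * g k := by
  have hmaps : ∀ j ∈ range n, ((i : ℤ) - (j : ℤ)).natAbs ∈ range n := by
    intro j hj
    rw [Finset.mem_range] at hj ⊢
    omega
  rw [← Finset.sum_fiberwise_of_maps_to hmaps]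
  refine Finset.sum_le_sum fun k _ => ?_
  have h1 : ∑ j ∈ (range n).filter (fun j : ℕ => ((i : ℤ) - (j : ℤ)).natAbs = k),
      g ((i : ℤ) - (j : ℤ)).natAbs =
      ∑ j ∈ (range n).filter (fun j : ℕ => ((i : ℤ) - (j : ℤ)).natAbs = k), g k := by
    refine Finset.sum_congr rfl fun j hj => ?_
    rw [(Finset.mem_filter.mp hj).2]
  rw [h1, Finset.sum_const, nsmul_eq_mul]
  have h2 : ((range n).filter (fun j : ℕ => ((i : ℤ) - (j : ℤ)).natAbs = k)).card ≤ 2 := by
    have hsub : (range n).filter (fun j : ℕ => ((i : ℤ) - (j : ℤ)).natAbs = k) ⊆ {i - k, i + k} := by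
      intro j hj
      rw [Finset.mem_filter] at hj
      rw [Finset.mem_insert, Finset.mem_singleton]
      omega
    exact (Finset.card_le_card hsub).trans Finset.card_le_two
  exact mul_le_mul_of_nonneg_right (by exact_mod_cast h2) (hg k)

lemma abs_Q_le (n : ℕ) (x v : ℕ → ℝ) :
    |Q n x v| ≤ (∑ k ∈ range n, 2 * |x k|) * nsq n v := by
  unfold Q B
  have h1 : |∑ i ∈ range n, ∑ j ∈ range n, x ((i : ℤ) - (j : ℤ)).natAbs * (v i * v j)| ≤
      ∑ i ∈ range n, ∑ j ∈ range n,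
        |x ((i : ℤ) - (j : ℤ)).natAbs| * ((v i ^ 2 + v j ^ 2) / 2) := by
    refine (Finset.abs_sum_le_sum_abs _ _).trans (Finset.sum_le_sum fun i _ => ?_)
    refine (Finset.abs_sum_le_sum_abs _ _).trans (Finset.sum_le_sum fun j _ => ?_)
    rw [abs_mul]
    refine mul_le_mul_of_nonneg_left ?_ (abs_nonneg _)
    rw [abs_le]
    constructor <;> nlinarith [sq_nonneg (v i - v j), sq_nonneg (v i + v j)]
  refine h1.trans ?_
  have h2 : ∑ i ∈ range n, ∑ j ∈ range n,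
        |x ((i : ℤ) - (j : ℤ)).natAbs| * ((v i ^ 2 + v j ^ 2) / 2) =
      ∑ i ∈ range n, (∑ j ∈ range n, |x ((i : ℤ) - (j : ℤ)).natAbs|) * v i ^ 2 := by
    have h3 : ∑ i ∈ range n, ∑ j ∈ range n,
        |x ((i : ℤ) - (j : ℤ)).natAbs| * ((v i ^ 2 + v j ^ 2) / 2) =
        ∑ i ∈ range n, ∑ j ∈ range n, |x ((i : ℤ) - (j : ℤ)).natAbs| * (v i ^ 2 / 2) +
        ∑ i ∈ range n, ∑ j ∈ range n, |x ((i : ℤ) - (j : ℤ)).natAbs| * (v j ^ 2 / 2) := by
      simp only [← Finset.sum_add_distrib]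
      exact Finset.sum_congr rfl fun i _ => Finset.sum_congr rfl fun j _ => by ring
    have h4 : ∑ i ∈ range n, ∑ j ∈ range n, |x ((i : ℤ) - (j : ℤ)).natAbs| * (v j ^ 2 / 2) =
        ∑ i ∈ range n, ∑ j ∈ range n, |x ((i : ℤ) - (j : ℤ)).natAbs| * (v i ^ 2 / 2) := by
      rw [Finset.sum_comm]
      refine Finset.sum_congr rfl fun i _ => Finset.sum_congr rfl fun j _ => ?_
      have h : ((j : ℤ) - (i : ℤ)).natAbs = ((i : ℤ) - (j : ℤ)).natAbs := by omega
      rw [h]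
    rw [h3, h4, ← Finset.sum_add_distrib]
    refine Finset.sum_congr rfl fun i _ => ?_
    rw [← Finset.sum_add_distrib, Finset.sum_mul]
    exact Finset.sum_congr rfl fun j _ => by ring
  rw [h2]
  unfold nsq
  rw [Finset.mul_sum]
  refine Finset.sum_le_sum fun i hi => ?_
  exact mul_le_mul_of_nonneg_right
    (sum_dist_le (fun k => |x k|) (fun k => abs_nonneg _) (Finset.mem_range.mp hi)) (sq_nonneg _)

lemma Q_sub_entries (n : ℕ) (x y v : ℕ → ℝ) : Q n x v - Q n y v = Q n (x - y) v := by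
  unfold Q B
  simp only [← Finset.sum_sub_distrib, Pi.sub_apply]
  exact Finset.sum_congr rfl fun i _ => Finset.sum_congr rfl fun j _ => by ring

lemma Q_sub_le (n : ℕ) (x y v : ℕ → ℝ) :
    Q n x v ≤ Q n y v + (∑ k ∈ range n, 2 * |x k - y k|) * nsq n v := by
  have h := (abs_le.mp (abs_Q_le n (x - y) v)).2
  rw [← Q_sub_entries] at h
  simp only [Pi.sub_apply] at h
  linarith

/-! ### the top eigenvalue -/

lemma unit_nonempty {n : ℕ} (hn : 1 ≤ n) : ∃ v : ℕ → ℝ, (∀ i, n ≤ i → v i = 0) ∧ nsq n v = 1 := by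
  refine ⟨fun i => if i = 0 then 1 else 0, fun i hi => by simp; omega, ?_⟩
  unfold nsq
  rw [Finset.sum_eq_single 0]
  · simp
  · intro b _ hb
    simp [hb]
  · intro h
    exact absurd (Finset.mem_range.mpr (by omega)) h

lemma lam_bdd (n : ℕ) (x : ℕ → ℝ) : BddAbove {t | ∃ v : ℕ → ℝ, nsq n v = 1 ∧ Q n x v = t} := by
  refine ⟨∑ k ∈ range n, 2 * |x k|, ?_⟩
  rintro t ⟨v, hv, rfl⟩
  have h := (abs_le.mp (abs_Q_le n x v)).2
  rwa [hv, mul_one] at h

lemma Q_le_lam {n : ℕ} {x v : ℕ → ℝ} (hv : nsq n v = 1) : Q n x v ≤ lam n x :=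
  le_csSup (lam_bdd n x) ⟨v, hv, rfl⟩

theorem Q_le {n : ℕ} (x v : ℕ → ℝ) : Q n x v ≤ lam n x * nsq n v := by
  by_cases h0 : nsq n v = 0
  · have h := (abs_le.mp (abs_Q_le n x v)).2
    rw [h0, mul_zero] at h ⊢
    exact h
  · have hpos : 0 < nsq n v := lt_of_le_of_ne (nsq_nonneg n v) (Ne.symm h0)
    have h1 : nsq n ((1 / Real.sqrt (nsq n v)) • v) = 1 := by
      rw [nsq_smul, div_pow, one_pow, Real.sq_sqrt hpos.le]
      field_simp
    have h2 := Q_le_lam (x := x) h1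
    rw [Q_smul, div_pow, one_pow, Real.sq_sqrt hpos.le] at h2
    have h3 : Q n x v = (1 / nsq n v * Q n x v) * nsq n v := by field_simp
    rw [h3]
    exact mul_le_mul_of_nonneg_right h2 hpos.le

lemma continuous_Q (n : ℕ) (x : ℕ → ℝ) : Continuous (fun v : ℕ → ℝ => Q n x v) := by
  unfold Q B
  fun_prop

lemma continuous_nsq (n : ℕ) : Continuous (fun v : ℕ → ℝ => nsq n v) := by
  unfold nsq
  fun_prop

theorem lam_attained {n : ℕ} (hn : 1 ≤ n) (x : ℕ → ℝ) :
    ∃ v : ℕ → ℝ, (∀ i, n ≤ i → v i = 0) ∧ nsq n v = 1 ∧ Q n x v = lam n x := by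
  obtain ⟨S, hS⟩ : ∃ S : Set (ℕ → ℝ), S = {v | (∀ i, n ≤ i → v i = 0) ∧ nsq n v = 1} := ⟨_, rfl⟩
  have hclosed : IsClosed S := by
    rw [hS]
    have h1 : {v : ℕ → ℝ | (∀ i, n ≤ i → v i = 0) ∧ nsq n v = 1} =
        (⋂ i, ⋂ (_ : n ≤ i), {v : ℕ → ℝ | v i = 0}) ∩ {v | nsq n v = 1} := by
      ext v
      simp
    rw [h1]
    refine IsClosed.inter ?_ (isClosed_eq (continuous_nsq n) continuous_const)
    refine isClosed_iInter fun i => isClosed_iInter fun _ => ?_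
    exact isClosed_eq (continuous_apply i) continuous_const
  have hcomp : IsCompact S := by
    refine (isCompact_univ_pi (X := fun _ : ℕ => ℝ) (s := fun _ => Set.Icc (-1 : ℝ) 1)
      fun _ => isCompact_Icc).of_isClosed_subset hclosed ?_
    rw [hS]
    rintro v ⟨h1, h2⟩ i _
    by_cases hi : n ≤ i
    · rw [h1 i hi]
      exact ⟨by norm_num, by norm_num⟩
    · have h3 : v i ^ 2 ≤ 1 := by
        rw [← h2]
        unfold nsq
        exact Finset.single_le_sum (f := fun j => v j ^ 2) (fun j _ => sq_nonneg _)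
          (Finset.mem_range.mpr (by omega))
      exact ⟨by nlinarith, by nlinarith⟩
  have hne : S.Nonempty := by
    obtain ⟨v, hv⟩ := unit_nonempty hn
    exact ⟨v, by rw [hS]; exact hv⟩
  obtain ⟨v, hvS, hmax⟩ := hcomp.exists_isMaxOn hne (continuous_Q n x).continuousOn
  have hvS' := hvS
  rw [hS] at hvS'
  refine ⟨v, hvS'.1, hvS'.2, le_antisymm (Q_le_lam hvS'.2) ?_⟩
  refine csSup_le ⟨_, v, hvS'.2, rfl⟩ ?_
  rintro t ⟨w, hw, rfl⟩
  have h1 : Q n x w = Q n x (fun i => if i < n then w i else 0) := by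
    unfold Q B
    refine Finset.sum_congr rfl fun i hi => Finset.sum_congr rfl fun j hj => ?_
    simp [Finset.mem_range.mp hi, Finset.mem_range.mp hj]
  have h2 : nsq n (fun i => if i < n then w i else 0) = 1 := by
    rw [← hw]
    unfold nsq
    refine Finset.sum_congr rfl fun i hi => ?_
    simp [Finset.mem_range.mp hi]
  rw [h1]
  refine hmax ?_
  rw [hS]
  refine ⟨fun i hi => ?_, h2⟩
  simp; omega

lemma sum_range_ext {n m : ℕ} (h : n ≤ m) (f : ℕ → ℝ) (hf : ∀ i, n ≤ i → f i = 0) :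
    ∑ i ∈ range m, f i = ∑ i ∈ range n, f i := by
  symm
  refine Finset.sum_subset (Finset.range_mono h) ?_
  intro i _ hi
  rw [Finset.mem_range, not_lt] at hi
  exact hf i hi

lemma B_ext {n m : ℕ} (h : n ≤ m) (x v w : ℕ → ℝ) (hv : ∀ i, n ≤ i → v i = 0)
    (hw : ∀ i, n ≤ i → w i = 0) : B m x v w = B n x v w := by
  unfold B
  rw [sum_range_ext h]
  · refine Finset.sum_congr rfl fun i _ => ?_
    rw [sum_range_ext h]
    intro j hj
    rw [hw j hj]
    ring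
  · intro i hi
    refine Finset.sum_eq_zero fun j _ => ?_
    rw [hv i hi]
    ring

lemma Q_ext {n m : ℕ} (h : n ≤ m) (x v : ℕ → ℝ) (hv : ∀ i, n ≤ i → v i = 0) :
    Q m x v = Q n x v := B_ext h x v v hv hv

lemma nsq_ext {n m : ℕ} (h : n ≤ m) (v : ℕ → ℝ) (hv : ∀ i, n ≤ i → v i = 0) :
    nsq m v = nsq n v := by
  unfold nsq
  rw [sum_range_ext h]
  intro i hi
  rw [hv i hi]
  ring

theorem lam_mono {n m : ℕ} (hn : 1 ≤ n) (h : n ≤ m) (x : ℕ → ℝ) : lam n x ≤ lam m x := by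
  obtain ⟨v, h1, h2, h3⟩ := lam_attained hn x
  rw [← h3, ← Q_ext h x v h1]
  exact Q_le_lam (by rw [nsq_ext h v h1, h2])

theorem lip_lam {n : ℕ} (hn : 1 ≤ n) : Lip2 n (lam n) := by
  have key : ∀ x y : ℕ → ℝ, lam n x ≤ lam n y + ∑ k ∈ range n, 2 * |x k - y k| := by
    intro x y
    obtain ⟨v, _, h2, h3⟩ := lam_attained hn x
    have h4 := Q_sub_le n x y v
    have h5 := Q_le_lam (x := y) h2
    rw [h2, mul_one] at h4
    linarith
  intro x y
  rw [abs_le]
  have h1 := key x y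
  have h2 := key y x
  have h3 : ∑ k ∈ range n, 2 * |y k - x k| = ∑ k ∈ range n, 2 * |x k - y k| :=
    Finset.sum_congr rfl fun k _ => by rw [abs_sub_comm]
  constructor <;> linarith

/-! ### block vectors -/

lemma sum_block (q N : ℕ) (f : ℕ → ℝ) :
    ∑ i ∈ range (q * N), f i = ∑ b ∈ range N, ∑ s ∈ range q, f (q * b + s) := by
  induction N with
  | zero => simp
  | succ N ih =>
    rw [Nat.mul_succ, Finset.sum_range_add, ih, Finset.sum_range_succ]

lemma block_div {q b s : ℕ} (hs : s < q) : (q * b + s) / q = b := by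
  rw [Nat.mul_add_div (by omega), Nat.div_eq_of_lt hs, add_zero]

lemma nsq_blk {q N : ℕ} (hq : 1 ≤ q) (w : ℕ → ℝ) : nsq (q * N) (blk q w) = nsq N w := by
  unfold nsq blk
  rw [sum_block]
  refine Finset.sum_congr rfl fun b _ => ?_
  have hq0 : (0 : ℝ) < q := by exact_mod_cast hq
  have h1 : ∀ s ∈ range q, (w ((q * b + s) / q) / Real.sqrt q) ^ 2 = w b ^ 2 / q := by
    intro s hs
    rw [block_div (Finset.mem_range.mp hs), div_pow, Real.sq_sqrt hq0.le]
  rw [Finset.sum_congr rfl h1, Finset.sum_const, Finset.card_range, nsmul_eq_mul]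
  field_simp

lemma U_bdd {q : ℕ} (hq : 1 ≤ q) (N : ℕ) (x : ℕ → ℝ) :
    BddAbove {t | ∃ w : ℕ → ℝ, nsq N w = 1 ∧ Q (q * N) x (blk q w) = t} := by
  refine ⟨lam (q * N) x, ?_⟩
  rintro t ⟨w, hw, rfl⟩
  exact Q_le_lam (by rw [nsq_blk hq, hw])

lemma Q_blk_le_U {q : ℕ} (hq : 1 ≤ q) {N : ℕ} {x w : ℕ → ℝ} (hw : nsq N w = 1) :
    Q (q * N) x (blk q w) ≤ U q N x :=
  le_csSup (U_bdd hq N x) ⟨w, hw, rfl⟩

theorem lip_U {q N : ℕ} (hq : 1 ≤ q) (hN : 1 ≤ N) : Lip2 (q * N) (U q N) := by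
  have key : ∀ x y : ℕ → ℝ, U q N x ≤ U q N y + ∑ k ∈ range (q * N), 2 * |x k - y k| := by
    intro x y
    obtain ⟨v, _, hv⟩ := unit_nonempty hN
    refine csSup_le ⟨_, v, hv, rfl⟩ ?_
    rintro t ⟨w, hw, rfl⟩
    have h4 := Q_sub_le (q * N) x y (blk q w)
    have h5 := Q_blk_le_U (x := y) hq hw
    rw [nsq_blk hq, hw, mul_one] at h4
    linarith
  intro x y
  rw [abs_le]
  have h1 := key x y
  have h2 := key y x
  have h3 : ∑ k ∈ range (q * N), 2 * |y k - x k| = ∑ k ∈ range (q * N), 2 * |x k - y k| :=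
    Finset.sum_congr rfl fun k _ => by rw [abs_sub_comm]
  constructor <;> linarith

lemma blk_smul (q : ℕ) (w : ℕ → ℝ) (α : ℝ) : blk q (α • w) = α • blk q w := by
  ext i
  simp [blk, mul_div_assoc]

/-- block vectors of any norm at most one -/
lemma Q_blk_le {q : ℕ} (hq : 1 ≤ q) {N : ℕ} (x w : ℕ → ℝ) (hw : nsq N w ≤ 1) :
    Q (q * N) x (blk q w) ≤ max (U q N x) 0 := by
  by_cases h0 : nsq N w = 0
  · have h := (abs_le.mp (abs_Q_le (q * N) x (blk q w))).2
    rw [nsq_blk hq, h0, mul_zero] at h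
    exact h.trans (le_max_right _ _)
  · have hpos : 0 < nsq N w := lt_of_le_of_ne (nsq_nonneg N w) (Ne.symm h0)
    have h1 : nsq N ((1 / Real.sqrt (nsq N w)) • w) = 1 := by
      rw [nsq_smul, div_pow, one_pow, Real.sq_sqrt hpos.le]
      field_simp
    have h2 := Q_blk_le_U (x := x) hq h1
    rw [blk_smul, Q_smul, div_pow, one_pow, Real.sq_sqrt hpos.le] at h2
    have h3 : Q (q * N) x (blk q w) = (1 / nsq N w * Q (q * N) x (blk q w)) * nsq N w := by
      field_simp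
    have h4 := mul_le_mul_of_nonneg_right (h2.trans (le_max_left (U q N x) 0)) hpos.le
    have h5 : (0 : ℝ) ≤ max (U q N x) 0 := le_max_right _ _
    rw [h3]
    nlinarith

end

end Pool.Agent.Helper12.Toep
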