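import Pool.Agent.Helper12.Toep.Near

/-!
# Approximation by block-constant vectors
-/

set_option autoImplicit false

open MeasureTheory ProbabilityTheory Finset

namespace Pool.Agent.Helper12.Toep

noncomputable section

lemma B_le_of_bound {n : ℕ} {x : ℕ → ℝ} {W : ℝ} (hW : ∀ u, |Q n x u| ≤ W * nsq n u)
    (u w : ℕ → ℝ) {a : ℝ} (ha : 0 < a) :
    B n x u w ≤ W * (a * nsq n u + nsq n w / a) / 2 := by
  obtain ⟨s, hs⟩ : ∃ s, s = Real.sqrt a := ⟨_, rfl⟩
  have hs0 : 0 < s := by rw [hs]; exact Real.sqrt_pos.mpr ha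
  have hs2 : s ^ 2 = a := by rw [hs]; exact Real.sq_sqrt ha.le
  have h1 := (abs_le.mp (hW (s • u + (1 / s) • w))).2
  have h2 := (abs_le.mp (hW (s • u + (-(1 / s)) • w))).1
  rw [Q_comb, nsq_comb] at h1 h2
  have e : s * (1 / s) = 1 := by field_simp
  have e2 : (1 / s) ^ 2 = 1 / a := by rw [div_pow, hs2, one_pow]
  have h1' : s ^ 2 * Q n x u + 2 * B n x u w + 1 / a * Q n x w ≤
      W * (s ^ 2 * nsq n u + 2 * ip n u w + 1 / a * nsq n w) := by
    calc s ^ 2 * Q n x u + 2 * B n x u w + 1 / a * Q n x w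
        = s ^ 2 * Q n x u + 2 * s * (1 / s) * B n x u w + (1 / s) ^ 2 * Q n x w := by
          rw [e2]; field_simp
      _ ≤ _ := h1
      _ = _ := by rw [e2]; field_simp
  have h2' : -(W * (s ^ 2 * nsq n u - 2 * ip n u w + 1 / a * nsq n w)) ≤
      s ^ 2 * Q n x u - 2 * B n x u w + 1 / a * Q n x w := by
    calc -(W * (s ^ 2 * nsq n u - 2 * ip n u w + 1 / a * nsq n w))
        = -(W * (s ^ 2 * nsq n u + 2 * s * (-(1 / s)) * ip n u w +
            (-(1 / s)) ^ 2 * nsq n w)) := by rw [neg_sq, e2]; field_simp; ring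
      _ ≤ _ := h2
      _ = _ := by rw [neg_sq, e2]; field_simp; ring
  rw [hs2] at h1' h2'
  have e3 : nsq n w / a = 1 / a * nsq n w := by ring
  rw [e3]
  linarith

/-- squared increments of a unit vector -/
lemma incr_le {n R : ℕ} (hR : n ≤ R) {v : ℕ → ℝ} (hv : ∀ i, n ≤ i → v i = 0)
    (hv1 : nsq n v = 1) (k : ℕ) :
    ∑ i ∈ range R, (v i - v (i + k)) ^ 2 ≤ 2 - 2 * corr n v k := by
  have h1 : ∑ i ∈ range R, v i ^ 2 = 1 := by
    have := nsq_ext hR v hv
    unfold nsq at this hv1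
    rw [this, hv1]
  have h2 : ∑ i ∈ range R, v (i + k) ^ 2 ≤ 1 := by
    have h3 := nsq_ext (show n ≤ k + R by omega) v hv
    rw [hv1] at h3
    unfold nsq at h3
    rw [Finset.sum_range_add] at h3
    have h4 : 0 ≤ ∑ i ∈ range k, v i ^ 2 := Finset.sum_nonneg fun i _ => sq_nonneg _
    have h5 : ∑ i ∈ range R, v (i + k) ^ 2 = ∑ i ∈ range R, v (k + i) ^ 2 :=
      Finset.sum_congr rfl fun i _ => by rw [add_comm]
    rw [h5]
    linarith
  have h6 : ∑ i ∈ range R, v i * v (i + k) = corr n v k := by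
    unfold corr
    refine sum_range_ext hR _ fun i hi => ?_
    rw [hv i hi, zero_mul]
  have h7 : ∑ i ∈ range R, (v i - v (i + k)) ^ 2 =
      ∑ i ∈ range R, v i ^ 2 - 2 * ∑ i ∈ range R, v i * v (i + k) +
        ∑ i ∈ range R, v (i + k) ^ 2 := by
    rw [Finset.mul_sum, ← Finset.sum_sub_distrib, ← Finset.sum_add_distrib]
    exact Finset.sum_congr rfl fun i _ => by ring
  rw [h7, h1, h6]
  linarith

/-- a double sum over a block is at most twice a sum over positions and distances -/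
lemma double_le (q : ℕ) (v : ℕ → ℝ) :
    ∑ s ∈ range q, ∑ t ∈ range q, (v s - v t) ^ 2 ≤
      2 * ∑ s ∈ range q, ∑ k ∈ range q, (v s - v (s + k)) ^ 2 := by
  have key : ∀ s, ∑ t ∈ range q, (if s ≤ t then (v s - v t) ^ 2 else 0) ≤
      ∑ k ∈ range q, (v s - v (s + k)) ^ 2 := by
    intro s
    rw [← Finset.sum_filter]
    have h1 : ∑ t ∈ (range q).filter (fun t => s ≤ t), (v s - v t) ^ 2 =
        ∑ k ∈ ((range q).filter (fun t => s ≤ t)).image (fun t => t - s),
          (v s - v (s + k)) ^ 2 := by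
      rw [Finset.sum_image]
      · refine Finset.sum_congr rfl fun t ht => ?_
        rw [Finset.mem_filter] at ht
        have : s + (t - s) = t := by omega
        rw [this]
      · intro a ha b hb hab
        rw [Finset.mem_coe, Finset.mem_filter] at ha hb
        simp only at hab
        omega
    rw [h1]
    refine Finset.sum_le_sum_of_subset_of_nonneg ?_ fun _ _ _ => sq_nonneg _
    intro k hk
    rw [Finset.mem_image] at hk
    obtain ⟨t, ht, rfl⟩ := hk
    rw [Finset.mem_filter, Finset.mem_range] at ht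
    rw [Finset.mem_range]
    omega
  have h2 : ∑ s ∈ range q, ∑ t ∈ range q, (v s - v t) ^ 2 ≤
      ∑ s ∈ range q, ∑ t ∈ range q, (if s ≤ t then (v s - v t) ^ 2 else 0) +
      ∑ s ∈ range q, ∑ t ∈ range q, (if t ≤ s then (v t - v s) ^ 2 else 0) := by
    rw [← Finset.sum_add_distrib]
    refine Finset.sum_le_sum fun s _ => ?_
    rw [← Finset.sum_add_distrib]
    refine Finset.sum_le_sum fun t _ => ?_
    rcases le_total s t with h | h
    · rw [if_pos h]
      split_ifs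
      · nlinarith [sq_nonneg (v t - v s)]
      · linarith
    · rw [if_pos h]
      have : (v s - v t) ^ 2 = (v t - v s) ^ 2 := by ring
      rw [this]
      split_ifs
      · nlinarith [sq_nonneg (v s - v t)]
      · linarith
  have h3 : ∑ s ∈ range q, ∑ t ∈ range q, (if t ≤ s then (v t - v s) ^ 2 else 0) =
      ∑ s ∈ range q, ∑ t ∈ range q, (if s ≤ t then (v s - v t) ^ 2 else 0) :=
    Finset.sum_comm
  rw [h3] at h2
  have h4 := Finset.sum_le_sum fun s (_ : s ∈ range q) => key s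
  linarith

/-- The vector of normalised block sums. -/
def bm (q : ℕ) (v : ℕ → ℝ) : ℕ → ℝ := fun b => (∑ s ∈ range q, v (q * b + s)) / Real.sqrt q

lemma nsq_bm_le {q : ℕ} (hq : 1 ≤ q) (N : ℕ) (v : ℕ → ℝ) : nsq N (bm q v) ≤ nsq (q * N) v := by
  unfold nsq bm
  rw [sum_block]
  refine Finset.sum_le_sum fun b _ => ?_
  have hq0 : (0 : ℝ) < q := by exact_mod_cast hq
  rw [div_pow, Real.sq_sqrt hq0.le, div_le_iff₀ hq0]
  have h := sq_sum_le_card_mul_sum_sq (s := range q) (f := fun s => v (q * b + s))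
  rw [Finset.card_range] at h
  linarith

lemma blk_bm {q : ℕ} (hq : 1 ≤ q) (v : ℕ → ℝ) {b s : ℕ} (hs : s < q) :
    blk q (bm q v) (q * b + s) = (∑ t ∈ range q, v (q * b + t)) / q := by
  have hq0 : (0 : ℝ) < q := by exact_mod_cast hq
  unfold blk bm
  rw [block_div hs, div_div, Real.mul_self_sqrt hq0.le]

lemma nsq_sub_bm_le {n q N : ℕ} (hq : 1 ≤ q) (hnN : n ≤ q * N) {v : ℕ → ℝ}
    (hv : ∀ i, n ≤ i → v i = 0) (hv1 : nsq n v = 1) {c : ℝ} (hc0 : 0 < c)
    (hcorr : ∀ k, 1 ≤ k → k ≤ q → 1 - c ≤ corr n v k) :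
    nsq (q * N) ((1 : ℝ) • v + (-1 : ℝ) • blk q (bm q v)) ≤ 4 * c := by
  have hq0 : (0 : ℝ) < q := by exact_mod_cast hq
  unfold nsq
  rw [sum_block]
  -- each block
  have h1 : ∀ b ∈ range N, ∑ s ∈ range q,
      ((1 : ℝ) • v + (-1 : ℝ) • blk q (bm q v)) (q * b + s) ^ 2 ≤
      2 / q * ∑ s ∈ range q, ∑ k ∈ range q, (v (q * b + s) - v (q * b + s + k)) ^ 2 := by
    intro b _
    have h2 : ∀ s ∈ range q, ((1 : ℝ) • v + (-1 : ℝ) • blk q (bm q v)) (q * b + s) ^ 2 ≤
        1 / q * ∑ t ∈ range q, (v (q * b + s) - v (q * b + t)) ^ 2 := by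
      intro s hs
      have h3 : ((1 : ℝ) • v + (-1 : ℝ) • blk q (bm q v)) (q * b + s) =
          (∑ t ∈ range q, (v (q * b + s) - v (q * b + t))) / q := by
        simp only [Pi.add_apply, Pi.smul_apply, smul_eq_mul]
        rw [blk_bm hq v (Finset.mem_range.mp hs), Finset.sum_sub_distrib, Finset.sum_const,
          Finset.card_range, nsmul_eq_mul]
        field_simp
        ring
      rw [h3, div_pow]
      have h4 := sq_sum_le_card_mul_sum_sq (s := range q)
        (f := fun t => v (q * b + s) - v (q * b + t))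
      rw [Finset.card_range] at h4
      rw [div_le_iff₀ (by positivity)]
      calc (∑ t ∈ range q, (v (q * b + s) - v (q * b + t))) ^ 2
          ≤ q * ∑ t ∈ range q, (v (q * b + s) - v (q * b + t)) ^ 2 := h4
        _ = _ := by field_simp
    refine (Finset.sum_le_sum h2).trans ?_
    rw [← Finset.mul_sum]
    have h5 := double_le q (fun s => v (q * b + s))
    have h6 : ∑ s ∈ range q, ∑ k ∈ range q, (v (q * b + s) - v (q * b + (s + k))) ^ 2 =
        ∑ s ∈ range q, ∑ k ∈ range q, (v (q * b + s) - v (q * b + s + k)) ^ 2 :=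
      Finset.sum_congr rfl fun s _ => Finset.sum_congr rfl fun k _ => by rw [add_assoc]
    rw [h6] at h5
    have h7 := mul_le_mul_of_nonneg_left h5 (show 0 ≤ 1 / (q : ℝ) by positivity)
    refine h7.trans (le_of_eq (by ring))
  refine (Finset.sum_le_sum h1).trans ?_
  rw [← Finset.mul_sum]
  -- exchange the sums
  have h8 : ∑ b ∈ range N, ∑ s ∈ range q, ∑ k ∈ range q,
      (v (q * b + s) - v (q * b + s + k)) ^ 2 =
      ∑ k ∈ range q, ∑ i ∈ range (q * N), (v i - v (i + k)) ^ 2 := by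
    rw [← sum_block q N (fun i => ∑ k ∈ range q, (v i - v (i + k)) ^ 2), Finset.sum_comm]
  rw [h8]
  have h9 : ∑ k ∈ range q, ∑ i ∈ range (q * N), (v i - v (i + k)) ^ 2 ≤ ∑ k ∈ range q, 2 * c := by
    refine Finset.sum_le_sum fun k hk => ?_
    rcases Nat.eq_zero_or_pos k with h0 | h0
    · subst h0
      simp only [add_zero, sub_self]
      simp
      linarith
    · have := incr_le hnN hv hv1 k
      have h10 := hcorr k h0 (Finset.mem_range.mp hk).le
      linarith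
  rw [Finset.sum_const, Finset.card_range, nsmul_eq_mul] at h9
  have h11 := mul_le_mul_of_nonneg_left h9 (show 0 ≤ 2 / (q : ℝ) by positivity)
  refine h11.trans (le_of_eq ?_)
  field_simp
  ring

/-- the case where all autocorrelations are near `+1` -/
theorem block0 {n q N : ℕ} (hq : 1 ≤ q) (hnN : n ≤ q * N) (x : ℕ → ℝ) (v : ℕ → ℝ)
    (hv : ∀ i, n ≤ i → v i = 0) (hv1 : nsq n v = 1) {c W : ℝ} (hc0 : 0 < c)
    (hW : ∀ u, |Q (q * N) x u| ≤ W * nsq (q * N) u) (hW0 : 0 ≤ W)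
    (hcorr : ∀ k, 1 ≤ k → k ≤ q → 1 - c ≤ corr n v k) :
    Q n x v ≤ max (U q N x) 0 + 4 * Real.sqrt c * W := by
  obtain ⟨p, hp⟩ : ∃ p, p = blk q (bm q v) := ⟨_, rfl⟩
  have hnv : nsq (q * N) v = 1 := by rw [nsq_ext hnN v hv, hv1]
  have hnb : nsq N (bm q v) ≤ 1 := by rw [← hnv]; exact nsq_bm_le hq N v
  have hnp : nsq (q * N) p ≤ 1 := by rw [hp, nsq_blk hq]; exact hnb
  have h1 : Q (q * N) x p ≤ max (U q N x) 0 := by rw [hp]; exact Q_blk_le hq x _ hnb
  have h2 : nsq (q * N) ((1 : ℝ) • v + (-1 : ℝ) • p) ≤ 4 * c := by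
    rw [hp]; exact nsq_sub_bm_le hq hnN hv hv1 hc0 hcorr
  have h3 : nsq (q * N) ((1 : ℝ) • v + (1 : ℝ) • p) ≤ 4 := by
    have h4 := nsq_comb (q * N) v p 1 1
    have h5 := nsq_comb (q * N) v p 1 (-1)
    have h6 := nsq_nonneg (q * N) ((1 : ℝ) • v + (-1 : ℝ) • p)
    rw [h4]
    rw [h5] at h6
    linarith
  have h7 : Q (q * N) x v - Q (q * N) x p =
      B (q * N) x ((1 : ℝ) • v + (-1 : ℝ) • p) ((1 : ℝ) • v + (1 : ℝ) • p) := by
    unfold Q
    simp only [B_add_left, B_add_right, B_smul_left, B_smul_right]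
    rw [B_comm _ x p v]
    ring
  have hsc : 0 < Real.sqrt c := Real.sqrt_pos.mpr hc0
  have h8 := B_le_of_bound hW ((1 : ℝ) • v + (-1 : ℝ) • p) ((1 : ℝ) • v + (1 : ℝ) • p)
    (show 0 < 1 / Real.sqrt c by positivity)
  have h9 : 1 / Real.sqrt c * nsq (q * N) ((1 : ℝ) • v + (-1 : ℝ) • p) +
      nsq (q * N) ((1 : ℝ) • v + (1 : ℝ) • p) / (1 / Real.sqrt c) ≤ 8 * Real.sqrt c := by
    have e1 : 1 / Real.sqrt c * (4 * c) = 4 * Real.sqrt c := by
      have : c = Real.sqrt c * Real.sqrt c := (Real.mul_self_sqrt hc0.le).symm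
      calc 1 / Real.sqrt c * (4 * c) = 1 / Real.sqrt c * (4 * (Real.sqrt c * Real.sqrt c)) := by
            rw [← this]
        _ = 4 * Real.sqrt c := by field_simp
    have e2 := mul_le_mul_of_nonneg_left h2 (show 0 ≤ 1 / Real.sqrt c by positivity)
    have e3 : nsq (q * N) ((1 : ℝ) • v + (1 : ℝ) • p) / (1 / Real.sqrt c) =
        nsq (q * N) ((1 : ℝ) • v + (1 : ℝ) • p) * Real.sqrt c := by
      field_simp
    have e4 := mul_le_mul_of_nonneg_right h3 hsc.le
    rw [e3]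
    linarith
  have h10 := mul_le_mul_of_nonneg_left h9 hW0
  have h11 : Q n x v = Q (q * N) x v := (Q_ext hnN x v hv).symm
  rw [h11]
  nlinarith

/-! ### signs -/

lemma sh_comp (k : ℕ) (v : ℕ → ℝ) : sh (k + 1) v = sh 1 (sh k v) := by
  ext i
  unfold sh
  by_cases h : k + 1 ≤ i
  · rw [if_pos h, if_pos (by omega), if_pos (by omega)]
    congr 1
    omega
  · rw [if_neg h]
    by_cases h1 : 1 ≤ i
    · rw [if_pos h1, if_neg (by omega)]
    · rw [if_neg h1]

lemma sh_sub (k : ℕ) (v w : ℕ → ℝ) : sh k (v - w) = sh k v - sh k w := by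
  ext i
  simp only [Pi.sub_apply]
  unfold sh
  by_cases h : k ≤ i
  · simp [h]
  · simp [h]

lemma nsq_add_le (n : ℕ) (a b : ℕ → ℝ) : nsq n (a + b) ≤ 2 * nsq n a + 2 * nsq n b := by
  have h1 := nsq_comb n a b 1 1
  have h2 := nsq_comb n a b 1 (-1)
  have h3 := nsq_nonneg n ((1 : ℝ) • a + (-1 : ℝ) • b)
  rw [one_smul, one_smul] at h1
  rw [h2] at h3
  rw [h1]
  linarith

lemma nsq_sub_sh {n m k : ℕ} (hkm : k ≤ m) {v : ℕ → ℝ} (hv : ∀ i, n ≤ i → v i = 0)
    (hv1 : nsq n v = 1) : nsq (n + m) (v - sh k v) = 2 - 2 * corr n v k := by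
  have h := nsq_comb (n + m) v (sh k v) 1 (-1)
  rw [nsq_ext (Nat.le_add_right n m) v hv, nsq_sh_ext hkm hv, ip_sh_ext hkm hv, hv1] at h
  have e : (1 : ℝ) • v + (-1 : ℝ) • sh k v = v - sh k v := by
    ext i
    simp
    ring
  rw [e] at h
  rw [h]
  ring

lemma corr_pos {n q : ℕ} {v : ℕ → ℝ} (hv : ∀ i, n ≤ i → v i = 0) (hv1 : nsq n v = 1) {c : ℝ}
    (hc0 : 0 < c) (hc : c ≤ 1 / 8)
    (hcorr : ∀ k, 1 ≤ k → k ≤ q → 1 - c ≤ |corr n v k|) (h1 : 0 < corr n v 1) :
    ∀ k, 1 ≤ k → k ≤ q → 1 - c ≤ corr n v k := by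
  intro k hk
  induction k, hk using Nat.le_induction with
  | base =>
    intro hq
    have := hcorr 1 le_rfl hq
    rwa [abs_of_pos h1] at this
  | succ k hk ih =>
    intro hkq
    have ih' := ih (by omega)
    have g1 : 1 - c ≤ corr n v 1 := by
      have := hcorr 1 le_rfl (by omega)
      rwa [abs_of_pos h1] at this
    have e1 := nsq_sub_sh (m := k + 1) (le_refl (k + 1)) hv hv1
    have e2 := nsq_sub_sh (m := k + 1) (show 1 ≤ k + 1 by omega) hv hv1
    have e3 := nsq_sub_sh (m := k) (le_refl k) hv hv1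
    have e4 : v - sh (k + 1) v = (v - sh 1 v) + sh 1 (v - sh k v) := by
      rw [sh_sub, ← sh_comp]
      abel
    have e5 : nsq (n + (k + 1)) (sh 1 (v - sh k v)) = nsq (n + k) (v - sh k v) := by
      have : n + (k + 1) = 1 + (n + k) := by omega
      rw [this, nsq_sh]
    have e6 := nsq_add_le (n + (k + 1)) (v - sh 1 v) (sh 1 (v - sh k v))
    rw [← e4, e1, e2, e5, e3] at e6
    have e7 : 0 < corr n v (k + 1) := by linarith
    have := hcorr (k + 1) (by omega) hkq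
    rwa [abs_of_pos e7] at this

lemma neg_one_pow_natAbs (i j : ℕ) :
    ((-1 : ℝ)) ^ ((i : ℤ) - (j : ℤ)).natAbs = (-1) ^ i * (-1) ^ j := by
  rw [← pow_add]
  rcases le_total i j with h | h
  · have h1 : i + j = ((i : ℤ) - (j : ℤ)).natAbs + 2 * i := by omega
    rw [h1, pow_add, pow_mul]
    simp
  · have h1 : i + j = ((i : ℤ) - (j : ℤ)).natAbs + 2 * j := by omega
    rw [h1, pow_add, pow_mul]
    simp

lemma neg_one_pow_sq (i : ℕ) : ((-1 : ℝ) ^ i) ^ 2 = 1 := by
  rw [← pow_mul, mul_comm, pow_mul]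
  simp

lemma Q_alt (n : ℕ) (x v : ℕ → ℝ) : Q n (alt x) (alt v) = Q n x v := by
  unfold Q B alt
  refine Finset.sum_congr rfl fun i _ => Finset.sum_congr rfl fun j _ => ?_
  rw [neg_one_pow_natAbs]
  have h1 := neg_one_pow_sq i
  have h2 := neg_one_pow_sq j
  calc (-1 : ℝ) ^ i * (-1) ^ j * x ((i : ℤ) - (j : ℤ)).natAbs * ((-1) ^ i * v i * ((-1) ^ j * v j))
      = ((-1 : ℝ) ^ i) ^ 2 * ((-1 : ℝ) ^ j) ^ 2 *
          (x ((i : ℤ) - (j : ℤ)).natAbs * (v i * v j)) := by ring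
    _ = _ := by rw [h1, h2]; ring

lemma nsq_alt (n : ℕ) (v : ℕ → ℝ) : nsq n (alt v) = nsq n v := by
  unfold nsq alt
  refine Finset.sum_congr rfl fun i _ => ?_
  rw [mul_pow, neg_one_pow_sq, one_mul]

lemma alt_alt (x : ℕ → ℝ) : alt (alt x) = x := by
  ext i
  unfold alt
  rw [← mul_assoc, ← sq, neg_one_pow_sq, one_mul]

lemma corr_alt (n : ℕ) (v : ℕ → ℝ) (k : ℕ) : corr n (alt v) k = (-1) ^ k * corr n v k := by
  unfold corr alt
  rw [Finset.mul_sum]
  refine Finset.sum_congr rfl fun i _ => ?_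
  rw [pow_add]
  have h := neg_one_pow_sq i
  calc (-1 : ℝ) ^ i * v i * ((-1) ^ i * (-1) ^ k * v (i + k))
      = ((-1 : ℝ) ^ i) ^ 2 * ((-1) ^ k * (v i * v (i + k))) := by ring
    _ = _ := by rw [h, one_mul]

theorem block {n q N : ℕ} (hq : 1 ≤ q) (hnN : n ≤ q * N) (x : ℕ → ℝ) (v : ℕ → ℝ)
    (hv : ∀ i, n ≤ i → v i = 0) (hv1 : nsq n v = 1) {c W : ℝ} (hc0 : 0 < c) (hc : c ≤ 1 / 8)
    (hW0 : 0 ≤ W) (hW : ∀ u, |Q (q * N) x u| ≤ W * nsq (q * N) u)
    (hcorr : ∀ k, 1 ≤ k → k ≤ q → 1 - c ≤ |corr n v k|) :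
    Q n x v ≤ max (max (U q N x) (U q N (alt x))) 0 + 4 * Real.sqrt c * W := by
  by_cases h1 : 0 < corr n v 1
  · have h2 := block0 hq hnN x v hv hv1 hc0 hW hW0 (corr_pos hv hv1 hc0 hc hcorr h1)
    have h3 : max (U q N x) 0 ≤ max (max (U q N x) (U q N (alt x))) 0 :=
      max_le_max (le_max_left _ _) le_rfl
    linarith
  · have hv' : ∀ i, n ≤ i → alt v i = 0 := by
      intro i hi
      unfold alt
      rw [hv i hi, mul_zero]
    have hv1' : nsq n (alt v) = 1 := by rw [nsq_alt, hv1]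
    have hcorr' : ∀ k, 1 ≤ k → k ≤ q → 1 - c ≤ |corr n (alt v) k| := by
      intro k hk1 hkq
      rw [corr_alt, abs_mul, abs_pow, abs_neg, abs_one, one_pow, one_mul]
      exact hcorr k hk1 hkq
    have hpos : 0 < corr n (alt v) 1 := by
      have h4 := hcorr 1 le_rfl hq
      rw [corr_alt, pow_one]
      push Not at h1
      rw [abs_of_nonpos h1] at h4
      linarith
    have hW' : ∀ u, |Q (q * N) (alt x) u| ≤ W * nsq (q * N) u := by
      intro u
      have h5 := hW (alt u)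
      rw [nsq_alt] at h5
      have h6 : Q (q * N) (alt x) u = Q (q * N) x (alt u) := by
        have := Q_alt (q * N) x (alt u)
        rw [alt_alt] at this
        exact this
      rw [h6]
      exact h5
    have h2 := block0 hq hnN (alt x) (alt v) hv' hv1' hc0 hW' hW0
      (corr_pos hv' hv1' hc0 hc hcorr' hpos)
    rw [Q_alt] at h2
    have h3 : max (U q N (alt x)) 0 ≤ max (max (U q N x) (U q N (alt x))) 0 :=
      max_le_max (le_max_right _ _) le_rfl
    linarith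

end

end Pool.Agent.Helper12.Toep
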