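import Pool.Agent.Helper12.Toep.Basic

/-!
# Expected supremum over block-constant vectors
-/

set_option autoImplicit false

open MeasureTheory ProbabilityTheory Finset Filter Topology

namespace Pool.Agent.Helper12.Toep

noncomputable section

/-! ### Laws -/

theorem alt_law : gam.map alt = gam := by
  unfold gam alt
  rw [Measure.infinitePi_map_pi (f := fun (k : ℕ) (t : ℝ) => (-1) ^ k * t) _ (by fun_prop)]
  congr 1
  ext1 k
  rw [gaussianReal_map_const_mul]
  congr 1
  · simp
  · ext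
    simp [neg_one_pow_eq_or ℝ k]

namespace BM

/-- Law of a finite sum of independent standard Gaussians. -/
theorem sum_law {ι Ω : Type*} {mΩ : MeasurableSpace Ω} {P : Measure Ω} [IsProbabilityMeasure P]
    {X : ι → Ω → ℝ} (hm : ∀ i, Measurable (X i)) (hi : iIndepFun X P)
    (hX : ∀ i, P.map (X i) = gaussianReal 0 1) (S : Finset ι) :
    P.map (∑ i ∈ S, X i) = gaussianReal 0 S.card := by
  classical
  induction S using Finset.induction_on with
  | empty =>
    rw [Finset.sum_empty, Finset.card_empty, Nat.cast_zero, gaussianReal_zero_var]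
    change P.map (fun _ => (0 : ℝ)) = _
    rw [Measure.map_const]
    simp
  | insert a s ha ih =>
    rw [Finset.sum_insert ha, add_comm]
    have h := gaussianReal_add_gaussianReal_of_indepFun
      (hi.indepFun_finsetSum_of_notMem hm ha) ih (hX a)
    rw [h, Finset.card_insert_of_notMem ha]
    simp

/-- Block sizes. -/
def mm (q d : ℕ) : ℕ := if d = 0 then 1 else q

/-- The index of the `s`-th entry of the block number `d`. -/
def fidx (q u : ℕ) (p : (d : ℕ) × Fin (mm q d)) : ℕ :=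
  if p.1 = 0 then 0 else (p.1 - 1) * q + u + 1 + p.2

/-- Normalised block sums. -/
def Z (q u : ℕ) (x : ℕ → ℝ) : ℕ → ℝ := fun d =>
  (∑ s : Fin (mm q d), x (fidx q u ⟨d, s⟩)) / Real.sqrt (mm q d)

theorem fidx_aux {q : ℕ} (hq : 1 ≤ q) (u d e s t : ℕ) (hs : s < mm q d) (ht : t < mm q e)
    (h : (if d = 0 then 0 else (d - 1) * q + u + 1 + s)
      = if e = 0 then 0 else (e - 1) * q + u + 1 + t) : d = e ∧ s = t := by
  unfold mm at hs ht
  by_cases hd : d = 0
  · by_cases he : e = 0
    · rw [if_pos hd] at hs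
      rw [if_pos he] at ht
      omega
    · rw [if_pos hd, if_neg he] at h
      omega
  · by_cases he : e = 0
    · rw [if_neg hd, if_pos he] at h
      omega
    · rw [if_neg hd] at hs
      rw [if_neg he] at ht
      rw [if_neg hd, if_neg he] at h
      obtain ⟨d', rfl⟩ := Nat.exists_eq_succ_of_ne_zero hd
      obtain ⟨e', rfl⟩ := Nat.exists_eq_succ_of_ne_zero he
      simp only [Nat.succ_eq_add_one, Nat.add_sub_cancel] at h
      have h' : d' * q + s = e' * q + t := by omega
      have hde : d' = e' := by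
        have h1 : (d' * q + s) / q = d' := by
          rw [mul_comm, Nat.mul_add_div (by omega), Nat.div_eq_of_lt hs, add_zero]
        have h2 : (e' * q + t) / q = e' := by
          rw [mul_comm, Nat.mul_add_div (by omega), Nat.div_eq_of_lt ht, add_zero]
        rw [← h1, ← h2, h']
      subst hde
      exact ⟨rfl, by omega⟩

theorem fidx_inj {q : ℕ} (hq : 1 ≤ q) (u : ℕ) : Function.Injective (fidx q u) := by
  rintro ⟨d, s⟩ ⟨e, t⟩ h
  obtain ⟨h1, h2⟩ := fidx_aux hq u d e s t s.2 t.2 h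
  subst h1
  congr
  exact Fin.ext h2

theorem norm_sum_law {m : ℕ} (hm : 1 ≤ m) :
    (Measure.infinitePi (fun _ : Fin m => gaussianReal 0 1)).map
      (fun y : Fin m → ℝ => (∑ s, y s) / Real.sqrt m) = gaussianReal 0 1 := by
  have h1 : (Measure.infinitePi (fun _ : Fin m => gaussianReal 0 1)).map
      (∑ s : Fin m, fun y : Fin m → ℝ => y s) = gaussianReal 0 (Finset.univ : Finset (Fin m)).card := by
    refine sum_law (fun i => by fun_prop) ?_ (fun i => ?_) Finset.univ
    · exact iIndepFun_infinitePi (X := fun _ ω => ω) (by fun_prop)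
    · exact Measure.infinitePi_map_eval _ i
  have h2 : (fun y : Fin m → ℝ => (∑ s, y s) / Real.sqrt m)
      = (fun t : ℝ => t / Real.sqrt m) ∘ (∑ s : Fin m, fun y : Fin m → ℝ => y s) := by
    ext y
    simp
  rw [h2, ← Measure.map_map (by fun_prop) (by fun_prop), h1, gaussianReal_map_div_const]
  congr 1
  · simp
  · ext
    have : (0 : ℝ) < m := by exact_mod_cast hm
    simp [Real.sq_sqrt this.le]
    omega

theorem Z_law {q : ℕ} (hq : 1 ≤ q) (u : ℕ) : gam.map (Z q u) = gam := by
  have h1 : gam.map (fun (ω : ℕ → ℝ) (p : (d : ℕ) × Fin (mm q d)) => ω (fidx q u p))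
      = Measure.infinitePi (fun _ : (d : ℕ) × Fin (mm q d) => gaussianReal 0 1) :=
    Measure.map_infinitePi_infinitePi_of_inj (fidx_inj hq u)
  have h2 := Measure.infinitePi_map_piCurry
    (X := fun (d : ℕ) (_ : Fin (mm q d)) => ℝ)
    (fun (d : ℕ) (_ : Fin (mm q d)) => gaussianReal 0 1)
  have h3 : Z q u = (fun (y : (d : ℕ) → Fin (mm q d) → ℝ) (d : ℕ) =>
      (∑ s, y d s) / Real.sqrt (mm q d)) ∘
      (MeasurableEquiv.piCurry (fun (d : ℕ) (_ : Fin (mm q d)) => ℝ)) ∘
      (fun (ω : ℕ → ℝ) (p : (d : ℕ) × Fin (mm q d)) => ω (fidx q u p)) := by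
    ext x d
    rfl
  rw [h3, ← Measure.map_map (by fun_prop) (by fun_prop),
    ← Measure.map_map (by fun_prop) (by fun_prop), h1, h2]
  rw [Measure.infinitePi_map_pi (X := fun d : ℕ => Fin (mm q d) → ℝ)
    (f := fun (d : ℕ) (y : Fin (mm q d) → ℝ) => (∑ s, y s) / Real.sqrt (mm q d)) _
    (fun d => by fun_prop)]
  unfold gam
  congr 1
  ext1 d
  refine norm_sum_law ?_
  unfold mm
  split_ifs <;> omega

/-! ### The block identity -/

theorem sum_blocks (q N : ℕ) (f : ℕ → ℝ) :
    ∑ i ∈ range (q * N), f i = ∑ a ∈ range N, ∑ s ∈ range q, f (q * a + s) := by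
  induction N with
  | zero => simp
  | succ N ih => rw [Nat.mul_succ, Finset.sum_range_add, ih, Finset.sum_range_succ]

/-- Sum of the entries of the block `(a, b)`. -/
def K (q : ℕ) (x : ℕ → ℝ) (a b : ℕ) : ℝ :=
  ∑ s ∈ range q, ∑ t ∈ range q, x (((q * a + s : ℕ) : ℤ) - ((q * b + t : ℕ) : ℤ)).natAbs

/-- Double sum appearing off the diagonal. -/
def Kd (q : ℕ) (x : ℕ → ℝ) (d : ℕ) : ℝ :=
  ∑ u ∈ range q, ∑ s ∈ range q, x ((d - 1) * q + u + 1 + s)

theorem K_self (q : ℕ) (x : ℕ → ℝ) (a : ℕ) : K q x a a = K q x 0 0 := by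
  unfold K
  refine Finset.sum_congr rfl fun s _ => Finset.sum_congr rfl fun t _ => ?_
  congr 2
  push_cast
  ring

theorem K_ne {q : ℕ} (x : ℕ → ℝ) {a b : ℕ} (h : a ≠ b) :
    K q x a b = Kd q x ((a : ℤ) - (b : ℤ)).natAbs := by
  unfold K Kd
  rcases lt_or_gt_of_ne h with hab | hab
  · obtain ⟨c, rfl⟩ := Nat.exists_eq_add_of_lt hab
    rw [← Finset.sum_range_reflect]
    refine Finset.sum_congr rfl fun s hs => Finset.sum_congr rfl fun t ht => ?_
    have hs' := Finset.mem_range.1 hs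
    have ht' := Finset.mem_range.1 ht
    have e : ((a : ℤ) - ((a + c + 1 : ℕ) : ℤ)).natAbs = c + 1 := by omega
    rw [e, Nat.add_sub_cancel]
    congr 1
    have e2 : ((q * (a + c + 1) + t : ℕ) : ℤ) = q * a + q * c + q + t := by push_cast; ring
    rw [e2]
    push_cast
    have e3 : ((q : ℤ) * a + (q - 1 - s : ℕ) - (q * a + q * c + q + t)) =
      -(((c * q + s + 1 + t : ℕ)) : ℤ) := by
      push_cast [Nat.cast_sub (show s ≤ q - 1 by omega), Nat.cast_sub (show 1 ≤ q by omega)]
      ring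
    rw [e3, Int.natAbs_neg, Int.natAbs_natCast]
  · obtain ⟨c, rfl⟩ := Nat.exists_eq_add_of_lt hab
    rw [Finset.sum_comm, ← Finset.sum_range_reflect]
    refine Finset.sum_congr rfl fun t ht => Finset.sum_congr rfl fun s hs => ?_
    have hs' := Finset.mem_range.1 hs
    have ht' := Finset.mem_range.1 ht
    have e : (((b + c + 1 : ℕ) : ℤ) - (b : ℤ)).natAbs = c + 1 := by omega
    rw [e, Nat.add_sub_cancel]
    congr 1
    have e2 : ((q * (b + c + 1) + s : ℕ) : ℤ) = q * b + q * c + q + s := by push_cast; ring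
    rw [e2]
    push_cast
    have e3 : ((q * b + q * c + q + s) - ((q : ℤ) * b + (q - 1 - t : ℕ))) =
      (((c * q + t + 1 + s : ℕ)) : ℤ) := by
      push_cast [Nat.cast_sub (show t ≤ q - 1 by omega), Nat.cast_sub (show 1 ≤ q by omega)]
      ring
    rw [e3, Int.natAbs_natCast]

theorem Z_zero (q u : ℕ) (x : ℕ → ℝ) : Z q u x 0 = x 0 := by
  unfold Z
  have h1 : mm q 0 = 1 := rfl
  have h2 : ∑ s : Fin (mm q 0), x (fidx q u ⟨0, s⟩) = ∑ s : Fin (mm q 0), x 0 := by
    refine Finset.sum_congr rfl fun s _ => ?_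
    simp [fidx]
  rw [h2]
  simp [h1]

theorem Z_pos (q u : ℕ) (x : ℕ → ℝ) {d : ℕ} (hd : d ≠ 0) :
    Z q u x d = (∑ s ∈ range q, x ((d - 1) * q + u + 1 + s)) / Real.sqrt q := by
  have h1 : mm q d = q := if_neg hd
  unfold Z
  have h2 : ∑ s : Fin (mm q d), x (fidx q u ⟨d, s⟩)
      = ∑ s : Fin (mm q d), (fun k : ℕ => x ((d - 1) * q + u + 1 + k)) s := by
    refine Finset.sum_congr rfl fun s _ => ?_
    simp [fidx, hd]
  rw [h2, Fin.sum_univ_eq_sum_range (fun k : ℕ => x ((d - 1) * q + u + 1 + k)) (mm q d), h1]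

theorem sum_Z {q : ℕ} (x : ℕ → ℝ) {d : ℕ} (hd : d ≠ 0) :
    ∑ u ∈ range q, Z q u x d = Kd q x d / Real.sqrt q := by
  unfold Kd
  rw [Finset.sum_div]
  exact Finset.sum_congr rfl fun u _ => Z_pos q u x hd

/-- The block identity. -/
theorem Q_blk {q : ℕ} (hq : 1 ≤ q) (N : ℕ) (x w : ℕ → ℝ) :
    Q (q * N) x (blk q w) = (K q x 0 0 / q - Real.sqrt q * x 0) * nsq N w
      + (∑ u ∈ range q, Q N (Z q u x) w) / Real.sqrt q := by
  have hq0 : (0 : ℝ) < q := by exact_mod_cast hq
  have hs0 : 0 < Real.sqrt q := Real.sqrt_pos.2 hq0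
  have hss : Real.sqrt q * Real.sqrt q = q := Real.mul_self_sqrt hq0.le
  have h1 : Q (q * N) x (blk q w)
      = ∑ a ∈ range N, ∑ b ∈ range N, w a * w b / q * K q x a b := by
    unfold Q B
    rw [sum_blocks]
    refine Finset.sum_congr rfl fun a _ => ?_
    have : ∀ s ∈ range q, (∑ j ∈ range (q * N),
        x (((q * a + s : ℕ) : ℤ) - (j : ℤ)).natAbs * (blk q w (q * a + s) * blk q w j))
        = ∑ b ∈ range N, ∑ t ∈ range q,
          x (((q * a + s : ℕ) : ℤ) - ((q * b + t : ℕ) : ℤ)).natAbs * (w a * w b / q) := by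
      intro s hs
      rw [sum_blocks]
      refine Finset.sum_congr rfl fun b _ => Finset.sum_congr rfl fun t ht => ?_
      have hs' := Finset.mem_range.1 hs
      have ht' := Finset.mem_range.1 ht
      have e1 : blk q w (q * a + s) = w a / Real.sqrt q := by
        unfold blk
        rw [Nat.mul_add_div (by omega), Nat.div_eq_of_lt hs', add_zero]
      have e2 : blk q w (q * b + t) = w b / Real.sqrt q := by
        unfold blk
        rw [Nat.mul_add_div (by omega), Nat.div_eq_of_lt ht', add_zero]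
      rw [e1, e2, div_mul_div_comm, hss]
    rw [Finset.sum_congr rfl this, Finset.sum_comm]
    refine Finset.sum_congr rfl fun b _ => ?_
    unfold K
    rw [Finset.mul_sum]
    refine Finset.sum_congr rfl fun s _ => ?_
    rw [Finset.mul_sum]
    refine Finset.sum_congr rfl fun t _ => ?_
    ring
  have h2 : (∑ u ∈ range q, Q N (Z q u x) w)
      = ∑ a ∈ range N, ∑ b ∈ range N, w a * w b * ∑ u ∈ range q,
        Z q u x ((a : ℤ) - (b : ℤ)).natAbs := by
    unfold Q B
    rw [Finset.sum_comm]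
    refine Finset.sum_congr rfl fun a _ => ?_
    rw [Finset.sum_comm]
    refine Finset.sum_congr rfl fun b _ => ?_
    rw [Finset.mul_sum]
    refine Finset.sum_congr rfl fun u _ => ?_
    ring
  rw [h1, h2, Finset.sum_div]
  unfold nsq
  rw [Finset.mul_sum, ← Finset.sum_add_distrib]
  refine Finset.sum_congr rfl fun a ha => ?_
  have h3 : (K q x 0 0 / q - Real.sqrt q * x 0) * w a ^ 2
      = ∑ b ∈ range N, if a = b then (K q x 0 0 / q - Real.sqrt q * x 0) * w a ^ 2 else 0 := by
    rw [Finset.sum_ite_eq, if_pos ha]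
  rw [h3, Finset.sum_div, ← Finset.sum_add_distrib]
  refine Finset.sum_congr rfl fun b _ => ?_
  split_ifs with hab
  · subst hab
    rw [K_self]
    have e : ((a : ℤ) - (a : ℤ)).natAbs = 0 := by simp
    rw [e]
    simp only [Z_zero, Finset.sum_const, Finset.card_range, nsmul_eq_mul]
    have : (q : ℝ) / Real.sqrt q = Real.sqrt q := by
      rw [div_eq_iff hs0.ne', hss]
    have e4 : w a * w a * ((q : ℝ) * x 0) / Real.sqrt q = w a * w a * x 0 * Real.sqrt q := by
      calc w a * w a * ((q : ℝ) * x 0) / Real.sqrt q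
          = w a * w a * x 0 * ((q : ℝ) / Real.sqrt q) := by ring
        _ = _ := by rw [this]
    rw [e4]
    ring
  · have hd : ((a : ℤ) - (b : ℤ)).natAbs ≠ 0 := by omega
    rw [K_ne x hab, sum_Z x hd, zero_add]
    generalize Kd q x ((a : ℤ) - (b : ℤ)).natAbs = κ
    have e5 : w a * w b * (κ / Real.sqrt q) / Real.sqrt q
        = w a * w b * κ / (Real.sqrt q * Real.sqrt q) := by
      rw [← div_div, mul_div_assoc (w a * w b) κ]
    rw [e5, hss]
    ring

/-! ### Expectations -/

theorem measurable_Z (q u : ℕ) : Measurable (Z q u) := by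
  unfold Z
  fun_prop

theorem integrable_coord (k : ℕ) : Integrable (fun x : ℕ → ℝ => x k) gam := by
  have h : gam.map (fun x : ℕ → ℝ => x k) = gaussianReal 0 1 :=
    Measure.infinitePi_map_eval _ k
  have h2 : Integrable (fun t : ℝ => t) (gam.map (fun x : ℕ → ℝ => x k)) := by
    rw [h]
    exact (memLp_id_gaussianReal 1).integrable le_rfl
  exact h2.comp_measurable (by fun_prop)

theorem integral_coord (k : ℕ) : ∫ x : ℕ → ℝ, x k ∂gam = 0 := by
  have h : gam.map (fun x : ℕ → ℝ => x k) = gaussianReal 0 1 :=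
    Measure.infinitePi_map_eval _ k
  have h2 : ∫ t, t ∂(gam.map (fun x : ℕ → ℝ => x k)) = ∫ x : ℕ → ℝ, x k ∂gam :=
    integral_map (measurable_pi_apply k).aemeasurable (by fun_prop)
  rw [← h2, h, integral_id_gaussianReal]

theorem integrable_K (q : ℕ) : Integrable (fun x : ℕ → ℝ => K q x 0 0 / q) gam := by
  unfold K
  exact (integrable_finsetSum _ fun s _ => integrable_finsetSum _ fun t _ =>
    integrable_coord _).div_const _

theorem integral_K (q : ℕ) : ∫ x : ℕ → ℝ, K q x 0 0 / q ∂gam = 0 := by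
  rw [integral_div]
  unfold K
  rw [integral_finsetSum _ fun s _ => integrable_finsetSum _ fun t _ => integrable_coord _]
  have : ∀ s ∈ range q, ∫ x : ℕ → ℝ, ∑ t ∈ range q,
      x (((q * 0 + s : ℕ) : ℤ) - ((q * 0 + t : ℕ) : ℤ)).natAbs ∂gam = 0 := by
    intro s _
    rw [integral_finsetSum _ fun t _ => integrable_coord _]
    exact Finset.sum_eq_zero fun t _ => integral_coord _
  rw [Finset.sum_eq_zero this, zero_div]

theorem integrable_of_lip2 {n : ℕ} {f : (ℕ → ℝ) → ℝ} (hf : Lip2 n f) : Integrable f gam := by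
  have hc : Continuous f := by
    rw [continuous_iff_continuousAt]
    intro x
    rw [ContinuousAt, tendsto_iff_dist_tendsto_zero]
    have h0 : Tendsto (fun y : ℕ → ℝ => ∑ k ∈ range n, 2 * |y k - x k|) (𝓝 x) (𝓝 0) := by
      have hcc : Continuous (fun y : ℕ → ℝ => ∑ k ∈ range n, 2 * |y k - x k|) := by fun_prop
      have := hcc.tendsto x
      simpa using this
    exact squeeze_zero (fun _ => dist_nonneg) (fun y => hf y x) h0
  have hg : Integrable (fun x : ℕ → ℝ => |f 0| + ∑ k ∈ range n, 2 * |x k|) gam :=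
    (integrable_const _).add
      (integrable_finsetSum _ fun k _ => (integrable_coord k).abs.const_mul 2)
  refine hg.mono' hc.aestronglyMeasurable (Eventually.of_forall fun x => ?_)
  have h1 := hf x 0
  have h2 : |f x| ≤ |f 0| + |f x - f 0| := by
    have := abs_add_le (f 0) (f x - f 0)
    simpa using this
  rw [Real.norm_eq_abs]
  refine h2.trans ?_
  have h3 : ∑ k ∈ range n, 2 * |x k - (0 : ℕ → ℝ) k| = ∑ k ∈ range n, 2 * |x k| := by simp
  rw [h3] at h1
  linarith

theorem integrable_lam {N : ℕ} (hN : 1 ≤ N) : Integrable (lam N) gam :=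
  integrable_of_lip2 (lip_lam hN)

theorem integrable_lam_Z {q N : ℕ} (hq : 1 ≤ q) (hN : 1 ≤ N) (u : ℕ) :
    Integrable (fun x => lam N (Z q u x)) gam := by
  have h : Integrable (lam N) (gam.map (Z q u)) := by
    rw [Z_law hq u]
    exact integrable_lam hN
  exact h.comp_measurable (measurable_Z q u)

theorem integral_lam_Z {q N : ℕ} (hq : 1 ≤ q) (hN : 1 ≤ N) (u : ℕ) :
    ∫ x, lam N (Z q u x) ∂gam = L N := by
  have h : AEStronglyMeasurable (lam N) (gam.map (Z q u)) := by
    rw [Z_law hq u]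
    exact (integrable_lam hN).aestronglyMeasurable
  rw [← integral_map (measurable_Z q u).aemeasurable h, Z_law hq u]
  rfl

theorem U_set_le {q N : ℕ} (hq : 1 ≤ q) (x : ℕ → ℝ) :
    ∀ t ∈ {t | ∃ w : ℕ → ℝ, nsq N w = 1 ∧ Q (q * N) x (blk q w) = t},
      t ≤ K q x 0 0 / q - Real.sqrt q * x 0
        + (∑ u ∈ range q, lam N (Z q u x)) / Real.sqrt q := by
  rintro t ⟨w, hw, rfl⟩
  rw [Q_blk hq, hw, mul_one]
  have : ∑ u ∈ range q, Q N (Z q u x) w ≤ ∑ u ∈ range q, lam N (Z q u x) := by
    refine Finset.sum_le_sum fun u _ => ?_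
    have := Q_le (n := N) (Z q u x) w
    rwa [hw, mul_one] at this
  gcongr

theorem nsq_e0 {N : ℕ} (hN : 1 ≤ N) : nsq N (fun i => if i = 0 then 1 else 0) = 1 := by
  unfold nsq
  rw [Finset.sum_eq_single_of_mem 0 (Finset.mem_range.2 (by omega))]
  · simp
  · intro i _ hi
    simp [hi]

theorem Q_e0 {N : ℕ} (hN : 1 ≤ N) (x : ℕ → ℝ) : Q N x (fun i => if i = 0 then 1 else 0) = x 0 := by
  unfold Q B
  rw [Finset.sum_eq_single_of_mem 0 (Finset.mem_range.2 (by omega))]
  · rw [Finset.sum_eq_single_of_mem 0 (Finset.mem_range.2 (by omega))]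
    · simp
    · intro i _ hi
      simp [hi]
  · intro i _ hi
    simp [hi]

theorem U_ge {q N : ℕ} (hq : 1 ≤ q) (hN : 1 ≤ N) (x : ℕ → ℝ) : K q x 0 0 / q ≤ U q N x := by
  have hq0 : (0 : ℝ) < q := by exact_mod_cast hq
  have hs0 : 0 < Real.sqrt q := Real.sqrt_pos.2 hq0
  unfold U
  refine le_csSup ⟨_, U_set_le hq x⟩ ⟨fun i => if i = 0 then 1 else 0, nsq_e0 hN, ?_⟩
  rw [Q_blk hq, nsq_e0 hN, mul_one]
  simp only [Q_e0 hN, Z_zero, Finset.sum_const, Finset.card_range, nsmul_eq_mul]
  have : (q : ℝ) * x 0 / Real.sqrt q = Real.sqrt q * x 0 := by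
    rw [div_eq_iff hs0.ne']
    have := Real.mul_self_sqrt hq0.le
    calc (q : ℝ) * x 0 = (Real.sqrt q * Real.sqrt q) * x 0 := by rw [this]
      _ = _ := by ring
  rw [this]
  ring

end BM

open BM in
theorem U_mean {q N : ℕ} (hq : 1 ≤ q) (hN : 1 ≤ N) :
    0 ≤ ∫ x, U q N x ∂gam ∧ ∫ x, U q N x ∂gam ≤ Real.sqrt q * L N := by
  have hq0 : (0 : ℝ) < q := by exact_mod_cast hq
  have hs0 : 0 < Real.sqrt q := Real.sqrt_pos.2 hq0
  have hss : Real.sqrt q * Real.sqrt q = q := Real.mul_self_sqrt hq0.le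
  have hU : Integrable (U q N) gam := integrable_of_lip2 (lip_U hq hN)
  constructor
  · rw [← integral_K q]
    exact integral_mono (integrable_K q) hU fun x => U_ge hq hN x
  · have hI1 : Integrable (fun x : ℕ → ℝ => K q x 0 0 / q - Real.sqrt q * x 0) gam :=
      (integrable_K q).sub ((integrable_coord 0).const_mul _)
    have hI2 : Integrable (fun x : ℕ → ℝ => (∑ u ∈ range q, lam N (Z q u x)) / Real.sqrt q) gam :=
      (integrable_finsetSum _ fun u _ => integrable_lam_Z hq hN u).div_const _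
    have h1 : ∫ x, U q N x ∂gam ≤ ∫ x, (K q x 0 0 / q - Real.sqrt q * x 0
        + (∑ u ∈ range q, lam N (Z q u x)) / Real.sqrt q) ∂gam := by
      refine integral_mono hU (hI1.add hI2) fun x => ?_
      exact csSup_le ⟨_, fun i => if i = 0 then 1 else 0, nsq_e0 hN, rfl⟩ (U_set_le hq x)
    refine h1.trans (le_of_eq ?_)
    rw [integral_add hI1 hI2, integral_sub (integrable_K q) ((integrable_coord 0).const_mul _),
      integral_K, integral_const_mul, integral_coord, integral_div,
      integral_finsetSum _ fun u _ => integrable_lam_Z hq hN u]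
    simp only [integral_lam_Z hq hN, Finset.sum_const, Finset.card_range, nsmul_eq_mul]
    rw [mul_zero, sub_zero, zero_add, div_eq_iff hs0.ne']
    calc (q : ℝ) * L N = (Real.sqrt q * Real.sqrt q) * L N := by rw [hss]
      _ = _ := by ring

end

end Pool.Agent.Helper12.Toep
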