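import Pool.Agent.Helper12.Toep.Defs

/-!
# Efron-Stein: concentration of coordinatewise 2-Lipschitz functions of independent Gaussians
-/

set_option autoImplicit false

open MeasureTheory ProbabilityTheory Finset Filter Topology

namespace Pool.Agent.Helper12.Toep

noncomputable section

namespace Conc

/-- The law of `n` independent standard Gaussians. -/
abbrev gpi (n : ℕ) : Measure (Fin n → ℝ) := Measure.pi (fun _ => gaussianReal 0 1)

/-- Coordinatewise 2-Lipschitz on `Fin n → ℝ`. -/
def LipF (n : ℕ) (g : (Fin n → ℝ) → ℝ) : Prop :=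
  ∀ x y : Fin n → ℝ, |g x - g y| ≤ ∑ k, 2 * |x k - y k|

theorem LipF.continuous {n : ℕ} {g : (Fin n → ℝ) → ℝ} (hg : LipF n g) : Continuous g := by
  rw [continuous_iff_continuousAt]
  intro x
  rw [ContinuousAt, tendsto_iff_dist_tendsto_zero]
  have h : Tendsto (fun y : Fin n → ℝ => ∑ k, 2 * |y k - x k|) (𝓝 x) (𝓝 0) := by
    have hc : Continuous (fun y : Fin n → ℝ => ∑ k, 2 * |y k - x k|) := by fun_prop
    have := hc.tendsto x
    simpa using this
  refine squeeze_zero (fun _ => dist_nonneg) (fun y => ?_) h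
  rw [Real.dist_eq]
  exact hg y x

theorem LipF.memLp {n : ℕ} {g : (Fin n → ℝ) → ℝ} (hg : LipF n g) : MemLp g 2 (gpi n) := by
  have hb : MemLp (fun z : Fin n → ℝ => |g 0| + ∑ k, 2 * |z k|) 2 (gpi n) := by
    have h1 : MemLp (fun x : ℝ => |x|) 2 (gaussianReal 0 1) := by
      have := (memLp_id_gaussianReal (μ := 0) (v := 1) 2).norm
      simpa using this
    have h2 : ∀ k : Fin n, MemLp (fun z : Fin n → ℝ => 2 * |z k|) 2 (gpi n) := by
      intro k
      have h3 : MemLp (fun z : Fin n → ℝ => |z k|) 2 (gpi n) :=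
        h1.comp_measurePreserving (measurePreserving_eval (fun _ : Fin n => gaussianReal 0 1) k)
      exact h3.const_mul 2
    have h3 : MemLp (fun z : Fin n → ℝ => ∑ k, 2 * |z k|) 2 (gpi n) :=
      memLp_finsetSum _ fun k _ => h2 k
    have h4 : MemLp (fun _ : Fin n → ℝ => |g 0|) 2 (gpi n) := memLp_const _
    exact h4.add h3
  refine hb.mono hg.continuous.aestronglyMeasurable (ae_of_all _ fun z => ?_)
  have h1 := hg z 0
  simp only [Pi.zero_apply, sub_zero] at h1
  rw [Real.norm_eq_abs, Real.norm_eq_abs]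
  have h2 : |g z| ≤ |g z - g 0| + |g 0| := by
    have := abs_add_le (g z - g 0) (g 0)
    simpa using this
  have h3 : 0 ≤ |g 0| + ∑ k, 2 * |z k| := by positivity
  rw [abs_of_nonneg h3]
  linarith

theorem var_real {h : ℝ → ℝ} (hh : ∀ s t, |h s - h t| ≤ 2 * |s - t|) :
    MemLp h 2 (gaussianReal 0 1) ∧ Var[h; gaussianReal 0 1] ≤ 4 := by
  have hc : Continuous h := by
    have : LipschitzWith 2 h := LipschitzWith.of_dist_le_mul fun s t => by
      simpa [Real.dist_eq] using hh s t
    exact this.continuous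
  have hid : MemLp (fun x : ℝ => |x|) 2 (gaussianReal 0 1) := by
    have := (memLp_id_gaussianReal (μ := 0) (v := 1) 2).norm
    simpa using this
  have hm : MemLp h 2 (gaussianReal 0 1) := by
    refine ((memLp_const |h 0|).add (hid.const_mul 2)).mono hc.aestronglyMeasurable
      (ae_of_all _ fun z => ?_)
    have h1 := hh z 0
    simp only [sub_zero] at h1
    have h2 : |h z| ≤ |h z - h 0| + |h 0| := by
      have := abs_add_le (h z - h 0) (h 0)
      simpa using this
    simp only [Pi.add_apply, Real.norm_eq_abs]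
    have h3 : 0 ≤ |h 0| + 2 * |z| := by positivity
    rw [abs_of_nonneg h3]
    linarith
  refine ⟨hm, ?_⟩
  rw [← variance_sub_const hm.aestronglyMeasurable (h 0)]
  refine (variance_le_expectation_sq (hm.sub (memLp_const _)).aestronglyMeasurable).trans ?_
  have h4 : ∫ x, x ^ 2 ∂(gaussianReal 0 1) = 1 := by
    have h5 := variance_fun_id_gaussianReal (μ := 0) (v := 1)
    rw [variance_eq_integral (by fun_prop)] at h5
    simpa using h5
  have hi : Integrable (fun x : ℝ => x ^ 2) (gaussianReal 0 1) := by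
    have := (memLp_id_gaussianReal (μ := 0) (v := 1) 2).integrable_sq
    simpa using this
  calc ∫ x, ((fun x => h x - h 0) ^ 2) x ∂(gaussianReal 0 1)
      ≤ ∫ x, 4 * x ^ 2 ∂(gaussianReal 0 1) := by
        refine integral_mono (hm.sub (memLp_const _)).integrable_sq (hi.const_mul 4) fun x => ?_
        have h1 := hh x 0
        simp only [sub_zero] at h1
        have h2 := sq_le_sq' (by linarith [abs_nonneg (h x - h 0), abs_nonneg x]) h1
        rw [sq_abs, mul_pow, sq_abs] at h2
        simp only [Pi.pow_apply]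
        linarith
    _ = 4 := by rw [integral_const_mul, h4, mul_one]

theorem LipF.var {n : ℕ} {g : (Fin n → ℝ) → ℝ} (hg : LipF n g) : Var[g; gpi n] ≤ 4 * n := by
  induction n with
  | zero =>
    have hm := hg.memLp
    have h0 : g = fun _ => g 0 := by
      funext x
      congr 1
      exact Subsingleton.elim _ _
    rw [h0]
    have : Var[fun _ : Fin 0 → ℝ => g 0; gpi 0] = 0 := by
      rw [variance_eq_sub (memLp_const _)]
      simp
    rw [this]
    simp
  | succ n ih =>
    set e := (MeasurableEquiv.piFinSuccAbove (fun _ : Fin (n + 1) => ℝ) 0) with he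
    have hmp : MeasurePreserving e (gpi (n + 1)) ((gaussianReal 0 1).prod (gpi n)) :=
      measurePreserving_piFinSuccAbove (fun _ : Fin (n + 1) => gaussianReal 0 1) 0
    have hmps := hmp.symm e
    -- the slices
    have hes : ∀ t y, e.symm (t, y) = Fin.cons t y := by
      intro t y
      rw [he]
      ext i
      refine Fin.cases ?_ (fun j => ?_) i
      · simp [MeasurableEquiv.piFinSuccAbove, Fin.insertNthEquiv]
      · simp [MeasurableEquiv.piFinSuccAbove, Fin.insertNthEquiv]
    set G : ℝ × (Fin n → ℝ) → ℝ := fun p => g (e.symm p) with hG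
    have hGm : MemLp G 2 ((gaussianReal 0 1).prod (gpi n)) :=
      hg.memLp.comp_measurePreserving hmps
    have hsl : ∀ t, LipF n (fun y => G (t, y)) := by
      intro t x y
      have := hg (Fin.cons t x) (Fin.cons t y)
      rw [Fin.sum_univ_succ] at this
      simpa [hG, hes] using this
    have hts : ∀ s t y, |G (s, y) - G (t, y)| ≤ 2 * |s - t| := by
      intro s t y
      have := hg (Fin.cons s y) (Fin.cons t y)
      rw [Fin.sum_univ_succ] at this
      simpa [hG, hes] using this
    have hint : ∀ t, Integrable (fun y => G (t, y)) (gpi n) := fun t =>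
      (hsl t).memLp.integrable (by norm_num)
    set h : ℝ → ℝ := fun t => ∫ y, G (t, y) ∂(gpi n) with hh
    have hhl : ∀ s t, |h s - h t| ≤ 2 * |s - t| := by
      intro s t
      simp only [hh]
      rw [← integral_sub (hint s) (hint t)]
      refine (abs_integral_le_integral_abs).trans ?_
      calc ∫ y, |G (s, y) - G (t, y)| ∂(gpi n) ≤ ∫ _, 2 * |s - t| ∂(gpi n) :=
            integral_mono ((hint s).sub (hint t)).abs (integrable_const _) fun y => hts s t y
        _ = 2 * |s - t| := by simp
    obtain ⟨hm, hv⟩ := var_real hhl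
    have hGi : Integrable G ((gaussianReal 0 1).prod (gpi n)) := hGm.integrable (by norm_num)
    have hGi2 : Integrable (fun p => G p ^ 2) ((gaussianReal 0 1).prod (gpi n)) :=
      hGm.integrable_sq
    have e1 : ∫ x, g x ∂(gpi (n + 1)) = ∫ t, h t ∂(gaussianReal 0 1) := by
      rw [← hmps.integral_comp', integral_prod _ hGi]
    have e2 : ∫ x, g x ^ 2 ∂(gpi (n + 1)) =
        ∫ t, ∫ y, G (t, y) ^ 2 ∂(gpi n) ∂(gaussianReal 0 1) := by
      rw [← hmps.integral_comp' (g := fun x => g x ^ 2), integral_prod _ hGi2]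
    have e3 : ∀ t, ∫ y, G (t, y) ^ 2 ∂(gpi n) ≤ 4 * n + h t ^ 2 := by
      intro t
      have := ih (hsl t)
      rw [variance_eq_sub (hsl t).memLp] at this
      simp only [Pi.pow_apply] at this
      linarith
    have e4 : ∫ x, g x ^ 2 ∂(gpi (n + 1)) ≤ 4 * n + ∫ t, h t ^ 2 ∂(gaussianReal 0 1) := by
      rw [e2]
      calc _ ≤ ∫ t, (4 * (n : ℝ) + h t ^ 2) ∂(gaussianReal 0 1) :=
            integral_mono hGi2.integral_prod_left ((integrable_const _).add hm.integrable_sq) e3
        _ = _ := by
            rw [integral_add (integrable_const _) hm.integrable_sq]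
            simp
    rw [variance_eq_sub hm] at hv
    rw [variance_eq_sub hg.memLp]
    simp only [Pi.pow_apply] at hv ⊢
    rw [e1]
    push_cast
    linarith

/-- Extension by zero. -/
def ext0 (n : ℕ) (z : Fin n → ℝ) : ℕ → ℝ := fun k => if h : k < n then z ⟨k, h⟩ else 0

theorem map_restrict (n : ℕ) :
    MeasurePreserving (fun (x : ℕ → ℝ) (i : Fin n) => x i) gam (gpi n) := by
  refine ⟨by fun_prop, ?_⟩
  have := Measure.map_infinitePi_infinitePi_of_inj (P := fun _ : ℕ => gaussianReal 0 1)
    (f := fun i : Fin n => (i : ℕ)) Fin.val_injective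
  rw [gam, this, Measure.infinitePi_eq_pi]

theorem ext_eq {n : ℕ} {f : (ℕ → ℝ) → ℝ} (hf : Lip2 n f) (x : ℕ → ℝ) :
    f x = f (ext0 n (fun i : Fin n => x i)) := by
  have h := hf x (ext0 n (fun i : Fin n => x i))
  have h0 : ∑ k ∈ range n, 2 * |x k - ext0 n (fun i : Fin n => x i) k| = 0 := by
    refine Finset.sum_eq_zero fun k hk => ?_
    rw [ext0, dif_pos (mem_range.1 hk)]
    simp
  rw [h0] at h
  have := abs_nonpos_iff.1 h
  linarith

theorem lipF {n : ℕ} {f : (ℕ → ℝ) → ℝ} (hf : Lip2 n f) : LipF n (fun z => f (ext0 n z)) := by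
  intro x y
  refine (hf _ _).trans (le_of_eq ?_)
  rw [Finset.sum_range]
  refine Finset.sum_congr rfl fun k _ => ?_
  simp [ext0]

end Conc

open Conc

/-- Efron-Stein: a function of `n` independent standard Gaussians that is 2-Lipschitz in each of
them deviates from its mean by at most `2 √n` in the mean. -/
theorem conc {n : ℕ} {f : (ℕ → ℝ) → ℝ} (hf : Lip2 n f) :
    Integrable f gam ∧ ∫ x, |f x - ∫ y, f y ∂gam| ∂gam ≤ 2 * Real.sqrt n := by
  have hl := lipF hf
  set g : (Fin n → ℝ) → ℝ := fun z => f (ext0 n z) with hg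
  have hmp := map_restrict n
  have hfe : f = g ∘ (fun (x : ℕ → ℝ) (i : Fin n) => x i) := by
    funext x
    exact ext_eq hf x
  have hm : MemLp f 2 gam := by
    rw [hfe]
    exact hl.memLp.comp_measurePreserving hmp
  refine ⟨hm.integrable (by norm_num), ?_⟩
  have hvar : Var[f; gam] ≤ 4 * n := by
    have := hmp.variance_fun_comp hl.memLp.aestronglyMeasurable.aemeasurable
    have h2 : Var[f; gam] = Var[g; gpi n] := by
      rw [← this]
      congr 1
    rw [h2]
    exact hl.var
  set m := ∫ y, f y ∂gam with hm'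
  have hd : MemLp (fun x => |f x - m|) 2 gam := by
    have := (hm.sub (memLp_const m)).norm
    simpa using this
  have h1 := variance_nonneg (fun x => |f x - m|) gam
  rw [variance_eq_sub hd] at h1
  have h2 : ∫ x, ((fun x => |f x - m|) ^ 2) x ∂gam = Var[f; gam] := by
    rw [variance_eq_integral hm.aestronglyMeasurable.aemeasurable]
    refine integral_congr_ae (ae_of_all _ fun x => ?_)
    simp [hm']
  rw [h2] at h1
  have h3 : (∫ x, |f x - m| ∂gam) ^ 2 ≤ (2 * Real.sqrt n) ^ 2 := by
    rw [mul_pow, Real.sq_sqrt (Nat.cast_nonneg n)]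
    linarith
  exact abs_le_of_sq_le_sq' h3 (by positivity) |>.2

end

end Pool.Agent.Helper12.Toep
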