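import Pool.Agent.Helper12.Toep.Defs

/-!
# Module SPEC: counting eigenvalues of the Toeplitz matrix by subspaces
-/

set_option autoImplicit false

open MeasureTheory ProbabilityTheory Finset Filter Topology

namespace Pool.Agent.Helper12.Toep

noncomputable section

namespace Spec

/-- The first `n` coordinates as a Euclidean vector. -/
def rs (n : ℕ) (v : ℕ → ℝ) : EuclideanSpace ℝ (Fin n) := WithLp.toLp 2 (fun i : Fin n => v i)

/-- Extension by zero. -/
def ex {n : ℕ} (v : EuclideanSpace ℝ (Fin n)) : ℕ → ℝ :=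
  fun i => if h : i < n then v ⟨i, h⟩ else 0

theorem rs_ex {n : ℕ} (v : EuclideanSpace ℝ (Fin n)) : rs n (ex v) = v := by
  ext i
  simp [rs, ex]

theorem rs_add {n : ℕ} (v w : ℕ → ℝ) : rs n (v + w) = rs n v + rs n w := by
  ext i
  simp [rs]

theorem rs_smul {n : ℕ} (a : ℝ) (v : ℕ → ℝ) : rs n (a • v) = a • rs n v := by
  ext i
  simp [rs]

/-- eigenvectors -/
def bas (n : ℕ) (x : ℕ → ℝ) : OrthonormalBasis (Fin n) ℝ (EuclideanSpace ℝ (Fin n)) :=
  (toeplitz_isHermitian n x).eigenvectorBasis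

/-- eigenvalues -/
def ev (n : ℕ) (x : ℕ → ℝ) (i : Fin n) : ℝ := (toeplitz_isHermitian n x).eigenvalues i

theorem nev_eq (n : ℕ) (x : ℕ → ℝ) (S : Set ℝ) : nev n x S = Set.ncard {i : Fin n | ev n x i ∈ S} :=
  rfl

theorem nsq_spec (n : ℕ) (x v : ℕ → ℝ) :
    nsq n v = ∑ i, (inner ℝ (bas n x i) (rs n v)) ^ 2 := by
  have h1 := (bas n x).sum_sq_norm_inner_right (rs n v)
  have h2 : nsq n v = ‖rs n v‖ ^ 2 := by
    rw [EuclideanSpace.norm_sq_eq]
    unfold nsq
    rw [Finset.sum_range]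
    refine Finset.sum_congr rfl fun i _ => ?_
    simp [rs]
  rw [h2, ← h1]
  refine Finset.sum_congr rfl fun i _ => ?_
  rw [Real.norm_eq_abs, sq_abs]

theorem Q_spec (n : ℕ) (x v : ℕ → ℝ) :
    Q n x v = ∑ i, ev n x i * (inner ℝ (bas n x i) (rs n v)) ^ 2 := by
  set A := toeplitz n x with hA
  have hH : A.IsHermitian := toeplitz_isHermitian n x
  -- the operator
  set w : EuclideanSpace ℝ (Fin n) := WithLp.toLp 2 (A.mulVec (fun i : Fin n => v i)) with hw
  have h1 : Q n x v = inner ℝ (rs n v) w := by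
    unfold Q B
    rw [Finset.sum_range]
    rw [EuclideanSpace.inner_eq_star_dotProduct]
    simp only [rs, hw, dotProduct, Matrix.mulVec, star_trivial]
    refine Finset.sum_congr rfl fun i _ => ?_
    rw [Finset.sum_range, Finset.sum_mul]
    refine Finset.sum_congr rfl fun j _ => ?_
    simp only [hA, toeplitz, Matrix.of_apply]
    ring
  have h2 : ∀ i, inner ℝ (bas n x i) w = ev n x i * inner ℝ (bas n x i) (rs n v) := by
    intro i
    have h3 := hH.mulVec_eigenvectorBasis i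
    rw [EuclideanSpace.inner_eq_star_dotProduct, EuclideanSpace.inner_eq_star_dotProduct]
    simp only [hw, rs, star_trivial]
    have h4 : A.mulVec (fun i : Fin n => v i) ⬝ᵥ (bas n x i).ofLp
        = (fun i : Fin n => v i) ⬝ᵥ (A.mulVec (bas n x i).ofLp) := by
      rw [Matrix.dotProduct_mulVec, ← Matrix.mulVec_transpose]
      congr 1
      have : A.transpose = A := by
        have := hH.eq
        rwa [Matrix.conjTranspose_eq_transpose_of_trivial] at this
      rw [this]
    rw [h4]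
    have h5 : A.mulVec (bas n x i).ofLp = ev n x i • (bas n x i).ofLp := h3
    rw [h5, dotProduct_smul, smul_eq_mul]
  rw [h1, ← (bas n x).sum_inner_mul_inner (rs n v) w]
  refine Finset.sum_congr rfl fun i _ => ?_
  rw [h2 i, real_inner_comm]
  ring

/-- The main counting lemma. -/
theorem finrank_le_nev {n : ℕ} {x : ℕ → ℝ} {S : Set ℝ} {E : Type*} [AddCommGroup E] [Module ℝ E]
    [Module.Finite ℝ E] (φ : E →ₗ[ℝ] EuclideanSpace ℝ (Fin n))
    (h : ∀ e, (∀ i, ev n x i ∈ S → inner ℝ (bas n x i) (φ e) = 0) → e = 0) :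
    Module.finrank ℝ E ≤ nev n x S := by
  classical
  let I := {i : Fin n | ev n x i ∈ S}
  let ψ : E →ₗ[ℝ] (I → ℝ) := LinearMap.pi fun i =>
    (innerSL ℝ (bas n x i.1)).toLinearMap ∘ₗ φ
  have hinj : Function.Injective ψ := by
    rw [← LinearMap.ker_eq_bot, LinearMap.ker_eq_bot']
    intro e he
    refine h e fun i hi => ?_
    have := congrFun he ⟨i, hi⟩
    simpa [ψ] using this
  have h1 := LinearMap.finrank_le_finrank_of_injective hinj
  rw [Module.finrank_fintype_fun_eq_card] at h1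
  rw [nev_eq, Set.ncard_eq_toFinset_card', Set.toFinset_card]
  exact h1

theorem sq_sum_zero {n : ℕ} {x v : ℕ → ℝ} (h : ∀ i, inner ℝ (bas n x i) (rs n v) = 0) :
    nsq n v = 0 := by
  rw [nsq_spec n x v]
  exact Finset.sum_eq_zero fun i _ => by rw [h i]; simp

/-- upper bound for the form on vectors orthogonal to the large eigenvectors -/
theorem Q_le_of_orth {n : ℕ} {x v : ℕ → ℝ} {s : ℝ}
    (h : ∀ i, s < ev n x i → inner ℝ (bas n x i) (rs n v) = 0) : Q n x v ≤ s * nsq n v := by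
  rw [Q_spec, nsq_spec n x v, Finset.mul_sum]
  refine Finset.sum_le_sum fun i _ => ?_
  rcases lt_or_ge s (ev n x i) with h1 | h1
  · rw [h i h1]; simp
  · exact mul_le_mul_of_nonneg_right h1 (sq_nonneg _)

theorem nsq_nonneg (n : ℕ) (v : ℕ → ℝ) : 0 ≤ nsq n v :=
  Finset.sum_nonneg fun _ _ => sq_nonneg _

theorem eigvec {n : ℕ} (x : ℕ → ℝ) (i : Fin n) :
    nsq n (ex (bas n x i)) = 1 ∧ Q n x (ex (bas n x i)) = ev n x i := by
  have h : ∀ j, inner ℝ (bas n x j) (bas n x i) = if j = i then (1 : ℝ) else 0 :=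
    fun j => (bas n x).inner_eq_ite j i
  constructor
  · rw [nsq_spec n x, rs_ex]
    simp [h]
  · rw [Q_spec, rs_ex]
    simp [h]

theorem nonempty_rayleigh {n : ℕ} (hn : 1 ≤ n) (x : ℕ → ℝ) :
    {t | ∃ v : ℕ → ℝ, nsq n v = 1 ∧ Q n x v = t}.Nonempty :=
  ⟨_, ex (bas n x ⟨0, hn⟩), (eigvec x _).1, rfl⟩

theorem bddAbove_rayleigh (n : ℕ) (x : ℕ → ℝ) :
    BddAbove {t | ∃ v : ℕ → ℝ, nsq n v = 1 ∧ Q n x v = t} := by
  refine ⟨∑ i, |ev n x i|, ?_⟩
  rintro t ⟨v, hv, rfl⟩
  have h := Q_le_of_orth (n := n) (x := x) (v := v) (s := ∑ i, |ev n x i|) (by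
    intro i hi
    exact absurd hi (not_lt.2 ((le_abs_self _).trans
      (Finset.single_le_sum (f := fun i => |ev n x i|) (fun _ _ => abs_nonneg _)
        (Finset.mem_univ i)))))
  rwa [hv, mul_one] at h

end Spec

open Spec

theorem lam_le_iff_nev {n : ℕ} (hn : 1 ≤ n) (x : ℕ → ℝ) (s : ℝ) :
    lam n x ≤ s ↔ nev n x (Set.Ioi s) = 0 := by
  rw [nev_eq, Set.ncard_eq_zero]
  constructor
  · intro h
    rw [Set.eq_empty_iff_forall_notMem]
    intro i hi
    have h1 : ev n x i ≤ lam n x :=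
      le_csSup (bddAbove_rayleigh n x) ⟨_, (eigvec x i).1, (eigvec x i).2⟩
    exact absurd (h1.trans h) (not_le.2 hi)
  · intro h
    refine csSup_le (nonempty_rayleigh hn x) ?_
    rintro t ⟨v, hv, rfl⟩
    have h1 := Q_le_of_orth (n := n) (x := x) (v := v) (s := s) (by
      intro i hi
      exact absurd (show i ∈ {i : Fin n | ev n x i ∈ Set.Ioi s} from hi) (by rw [h]; simp))
    rwa [hv, mul_one] at h1

/-- two-dimensional subspace with Rayleigh quotients at least `t` -/
theorem nev_ge_two {n : ℕ} (x : ℕ → ℝ) (u₁ u₂ : ℕ → ℝ) (t : ℝ)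
    (hli : ∀ α β : ℝ, nsq n (α • u₁ + β • u₂) = 0 → α = 0 ∧ β = 0)
    (h : ∀ α β : ℝ, t * nsq n (α • u₁ + β • u₂) ≤ Q n x (α • u₁ + β • u₂)) :
    2 ≤ nev n x (Set.Ici t) := by
  let φ : (ℝ × ℝ) →ₗ[ℝ] EuclideanSpace ℝ (Fin n) :=
    { toFun := fun p => p.1 • rs n u₁ + p.2 • rs n u₂
      map_add' := by
        intro p q
        simp only [Prod.fst_add, Prod.snd_add, add_smul]
        abel
      map_smul' := by
        intro a p
        simp only [Prod.smul_fst, Prod.smul_snd, smul_eq_mul, mul_smul, smul_add,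
          RingHom.id_apply] }
  have hφ : ∀ p : ℝ × ℝ, φ p = rs n (p.1 • u₁ + p.2 • u₂) := by
    intro p
    rw [rs_add, rs_smul, rs_smul]
    rfl
  have h1 := finrank_le_nev (n := n) (x := x) (S := Set.Ici t) φ (by
    rintro ⟨α, β⟩ he
    rw [hφ] at he
    have h2 := h α β
    have h3 : nsq n (α • u₁ + β • u₂) = 0 := by
      refine sq_sum_zero (x := x) ?_
      rw [Q_spec, nsq_spec n x, Finset.mul_sum, ← sub_nonneg, ← Finset.sum_sub_distrib] at h2
      have h4 : ∀ i ∈ Finset.univ, ev n x i * (inner ℝ (bas n x i) (rs n (α • u₁ + β • u₂))) ^ 2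
          - t * (inner ℝ (bas n x i) (rs n (α • u₁ + β • u₂))) ^ 2 ≤ 0 := by
        intro i _
        rcases le_or_gt t (ev n x i) with h5 | h5
        · rw [he i h5]; simp
        · nlinarith [sq_nonneg (inner ℝ (bas n x i) (rs n (α • u₁ + β • u₂)))]
      have h5 := (Finset.sum_eq_zero_iff_of_nonpos h4).1 (le_antisymm (Finset.sum_nonpos h4) h2)
      intro i
      rcases le_or_gt t (ev n x i) with h6 | h6
      · exact he i h6
      · have h7 := h5 i (Finset.mem_univ i)
        have h8 : (ev n x i - t) * (inner ℝ (bas n x i) (rs n (α • u₁ + β • u₂))) ^ 2 = 0 := by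
          linarith
        rcases mul_eq_zero.1 h8 with h9 | h9
        · linarith
        · exact pow_eq_zero_iff (two_ne_zero) |>.1 h9
    obtain ⟨h4, h5⟩ := hli α β h3
    rw [h4, h5]
    rfl)
  simpa using h1

namespace Spec

theorem Q_sub_le {n : ℕ} {x y v : ℕ → ℝ} {δ : ℝ} (h : ∀ k < n, |x k - y k| ≤ δ) :
    Q n y v - n * δ * nsq n v ≤ Q n x v := by
  have h1 : Q n y v - Q n x v ≤ n * δ * nsq n v := by
    unfold Q B
    rw [← Finset.sum_sub_distrib]
    have h2 : (n : ℝ) * δ * nsq n v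
        = ∑ i ∈ range n, ∑ j ∈ range n, δ * ((v i ^ 2 + v j ^ 2) / 2) := by
      simp only [← Finset.mul_sum, ← Finset.sum_div, Finset.sum_add_distrib, Finset.sum_const,
        Finset.card_range, nsmul_eq_mul]
      unfold nsq
      ring
    rw [h2]
    refine Finset.sum_le_sum fun i hi => ?_
    rw [← Finset.sum_sub_distrib]
    refine Finset.sum_le_sum fun j hj => ?_
    rw [← sub_mul]
    have hi' := Finset.mem_range.1 hi
    have hj' := Finset.mem_range.1 hj
    have h3 := h ((i : ℤ) - (j : ℤ)).natAbs (by omega)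
    set d := x ((i : ℤ) - (j : ℤ)).natAbs - y ((i : ℤ) - (j : ℤ)).natAbs with hd
    have h4 : y ((i : ℤ) - (j : ℤ)).natAbs - x ((i : ℤ) - (j : ℤ)).natAbs = -d := by
      rw [hd]; ring
    rw [h4]
    calc -d * (v i * v j) ≤ |-d * (v i * v j)| := le_abs_self _
      _ = |d| * |v i * v j| := by rw [abs_mul, abs_neg]
      _ ≤ δ * ((v i ^ 2 + v j ^ 2) / 2) := by
          refine mul_le_mul h3 ?_ (abs_nonneg _) ((abs_nonneg _).trans h3)
          rw [abs_mul]
          nlinarith [sq_nonneg (|v i| - |v j|), sq_abs (v i), sq_abs (v j)]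
  linarith

theorem isOpen_nev (n k : ℕ) (s : ℝ) : IsOpen {x : ℕ → ℝ | k ≤ nev n x (Set.Ioi s)} := by
  classical
  rw [isOpen_iff_mem_nhds]
  intro x₀ hx₀
  -- the large eigenvalues of x₀
  let I := {i : Fin n // ev n x₀ i ∈ Set.Ioi s}
  have hI : Fintype.card I = nev n x₀ (Set.Ioi s) := by
    rw [nev_eq, Set.ncard_eq_toFinset_card', Set.toFinset_card]
    rfl
  obtain ⟨s', hs', hs2⟩ : ∃ s', s < s' ∧ ∀ i : I, s' ≤ ev n x₀ i.1 := by
    by_cases hne : (Finset.univ : Finset I).Nonempty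
    · refine ⟨(Finset.univ : Finset I).inf' hne fun i => ev n x₀ i.1, ?_, ?_⟩
      · rw [Finset.lt_inf'_iff]
        intro i _
        exact i.2
      · intro i
        exact Finset.inf'_le _ (Finset.mem_univ i)
    · refine ⟨s + 1, by linarith, fun i => ?_⟩
      exact absurd ⟨i, Finset.mem_univ i⟩ hne
  obtain ⟨δ, hδ, hδ2⟩ : ∃ δ : ℝ, 0 < δ ∧ n * δ < s' - s := by
    refine ⟨(s' - s) / (n + 1), div_pos (by linarith) (by positivity), ?_⟩
    rw [mul_div_assoc', div_lt_iff₀ (by positivity)]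
    nlinarith [hs']
  have hnh : ∀ᶠ x : ℕ → ℝ in 𝓝 x₀, ∀ k ∈ range n, |x k - x₀ k| < δ := by
    rw [Filter.eventually_all_finset]
    intro k _
    have hc : Continuous fun x : ℕ → ℝ => |x k - x₀ k| := by fun_prop
    have := hc.tendsto x₀
    simp only [sub_self, abs_zero] at this
    exact this.eventually (gt_mem_nhds hδ)
  filter_upwards [hnh] with x hx
  have hx' : ∀ k < n, |x k - x₀ k| ≤ δ := fun k hk => (hx k (Finset.mem_range.2 hk)).le
  let φ : (I → ℝ) →ₗ[ℝ] EuclideanSpace ℝ (Fin n) :=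
    { toFun := fun c => ∑ i : I, c i • bas n x₀ i.1
      map_add' := by
        intro p q
        simp only [Pi.add_apply, add_smul, Finset.sum_add_distrib]
      map_smul' := by
        intro a p
        simp only [Pi.smul_apply, smul_eq_mul, mul_smul, Finset.smul_sum, RingHom.id_apply] }
  have hφ : ∀ c j, inner ℝ (bas n x₀ j) (φ c) = if h : ev n x₀ j ∈ Set.Ioi s then c ⟨j, h⟩ else 0 := by
    intro c j
    change inner ℝ (bas n x₀ j) (∑ i : I, c i • bas n x₀ i.1) = _
    rw [inner_sum]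
    simp only [inner_smul_right, (bas n x₀).inner_eq_ite]
    split_ifs with h
    · rw [Finset.sum_eq_single (⟨j, h⟩ : I)]
      · simp
      · intro b _ hb
        have : j ≠ b.1 := by
          rintro rfl
          exact hb rfl
        simp [this]
      · intro h'
        exact absurd (Finset.mem_univ _) h'
    · refine Finset.sum_eq_zero fun i _ => ?_
      have : j ≠ i.1 := by
        rintro rfl
        exact h i.2
      simp [this]
  have h1 := finrank_le_nev (n := n) (x := x) (S := Set.Ioi s) φ (by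
    intro c hc
    have h2 : Q n x (ex (φ c)) ≤ s * nsq n (ex (φ c)) :=
      Q_le_of_orth (by
        intro i hi
        rw [rs_ex]
        exact hc i hi)
    have h3 := Q_sub_le (v := ex (φ c)) hx'
    have h4 : s' * nsq n (ex (φ c)) ≤ Q n x₀ (ex (φ c)) := by
      rw [Q_spec, nsq_spec n x₀, Finset.mul_sum]
      refine Finset.sum_le_sum fun i _ => ?_
      rw [rs_ex, hφ]
      split_ifs with h
      · exact mul_le_mul_of_nonneg_right (hs2 ⟨i, h⟩) (sq_nonneg _)
      · simp
    have h5 : nsq n (ex (φ c)) = 0 := by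
      have h6 := nsq_nonneg n (ex (φ c))
      nlinarith
    rw [nsq_spec n x₀, rs_ex] at h5
    have h6 := (Finset.sum_eq_zero_iff_of_nonneg (fun i _ => sq_nonneg _)).1 h5
    funext i
    have h7 := h6 i.1 (Finset.mem_univ _)
    rw [hφ, dif_pos i.2] at h7
    simpa using h7)
  rw [Module.finrank_fintype_fun_eq_card, hI] at h1
  exact le_trans hx₀ h1

end Spec

theorem measurableSet_nev_Ioi (n k : ℕ) (s : ℝ) :
    MeasurableSet {x : ℕ → ℝ | k ≤ nev n x (Set.Ioi s)} :=
  (isOpen_nev n k s).measurableSet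

theorem nev_Ioc_add (n : ℕ) (x : ℕ → ℝ) {s t : ℝ} (h : s ≤ t) :
    nev n x (Set.Ioc s t) + nev n x (Set.Ioi t) = nev n x (Set.Ioi s) := by
  rw [nev_eq, nev_eq, nev_eq, ← Set.ncard_union_eq]
  · congr 1
    ext i
    simp only [Set.mem_Ioc, Set.mem_Ioi, Set.mem_union, Set.mem_ofPred_eq]
    constructor
    · rintro (⟨h1, _⟩ | h1)
      · exact h1
      · exact lt_of_le_of_lt h h1
    · intro h1
      rcases le_or_gt (ev n x i) t with h2 | h2
      · exact Or.inl ⟨h1, h2⟩
      · exact Or.inr h2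
  · rw [Set.disjoint_left]
    intro i h1 h2
    exact absurd h1.2 (not_le.2 h2)

theorem measurable_nev_Ioi (n : ℕ) (s : ℝ) : Measurable fun x : ℕ → ℝ => nev n x (Set.Ioi s) :=
  measurable_of_Ici fun k => measurableSet_nev_Ioi n k s

theorem measurable_nev_Ioc (n : ℕ) {s t : ℝ} (h : s ≤ t) :
    Measurable fun x : ℕ → ℝ => nev n x (Set.Ioc s t) := by
  have h1 : (fun x : ℕ → ℝ => nev n x (Set.Ioc s t))
      = fun x => nev n x (Set.Ioi s) - nev n x (Set.Ioi t) := by
    funext x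
    have := nev_Ioc_add n x h
    omega
  rw [h1]
  exact (measurable_nev_Ioi n s).sub (measurable_nev_Ioi n t)

theorem measurableSet_nev_Ioc (n k : ℕ) {s t : ℝ} (h : s ≤ t) :
    MeasurableSet {x : ℕ → ℝ | nev n x (Set.Ioc s t) = k} :=
  measurable_nev_Ioc n h (measurableSet_singleton k)

end

end Pool.Agent.Helper12.Toep
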