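import Pool.Agent.Helper12.Toep.Defs

/-!
# Random symmetric Toeplitz matrices: upper bound by circulant embedding
-/

set_option autoImplicit false

open MeasureTheory ProbabilityTheory Finset Filter Topology

namespace Pool.Agent.Helper12.Toep

noncomputable section

/-- The angle `π p / n`. -/
def uth (n p : ℕ) : ℝ := Real.pi * p / n

/-- The weights `1, 2, 2, ...`. -/
def uwt (k : ℕ) : ℝ := if k = 0 then 1 else 2

/-- The symbol of the circulant embedding at the angle `π p / n`. -/
def uF (n p : ℕ) (x : ℕ → ℝ) : ℝ := ∑ k ∈ range n, (uwt k * Real.cos (k * uth n p)) * x k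

/-- The squared modulus of the discrete Fourier transform of `v`. -/
def uG (n p : ℕ) (v : ℕ → ℝ) : ℝ :=
  (∑ i ∈ range n, v i * Real.cos (i * uth n p)) ^ 2 +
    (∑ i ∈ range n, v i * Real.sin (i * uth n p)) ^ 2

theorem uG_nonneg (n p : ℕ) (v : ℕ → ℝ) : 0 ≤ uG n p v := by unfold uG; positivity

theorem u_cos_sum {n : ℕ} (hn : 1 ≤ n) (d : ℤ) (hd : |d| < 2 * n) :
    ∑ p ∈ range (2 * n), Real.cos (d * uth n p) = if d = 0 then 2 * (n : ℝ) else 0 := by
  have hn0 : (n : ℝ) ≠ 0 := by positivity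
  split_ifs with h0
  · subst h0; simp
  · set θ : ℝ := Real.pi * d / n with hθ
    have hs : Real.sin (θ / 2) ≠ 0 := by
      intro h
      rw [Real.sin_eq_zero_iff] at h
      obtain ⟨m, hm⟩ := h
      have h1 : (m : ℝ) * (2 * n) = d := by
        have hpi := Real.pi_ne_zero
        rw [hθ] at hm
        field_simp at hm
        linarith
      have h2 : m * (2 * n) = d := by exact_mod_cast h1
      rw [← h2, abs_mul] at hd
      have h3 : |(2 * (n : ℤ))| = 2 * n := abs_of_nonneg (by positivity)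
      rw [h3] at hd
      have hm0 : m ≠ 0 := by
        rintro rfl
        apply h0; rw [← h2]; simp
      have h4 : 1 ≤ |m| := Int.one_le_abs hm0
      nlinarith
    have key : ∀ N : ℕ, 2 * Real.sin (θ / 2) * ∑ p ∈ range N, Real.cos (d * uth n p) =
        Real.sin (N * θ - θ / 2) + Real.sin (θ / 2) := by
      intro N
      induction N with
      | zero => simp [Real.sin_neg]
      | succ N ih =>
        rw [sum_range_succ, mul_add, ih]
        have h5 : (d : ℝ) * uth n N = N * θ := by
          rw [uth, hθ]; ring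
        rw [h5]
        have h6 : ((N + 1 : ℕ) : ℝ) * θ - θ / 2 = N * θ + θ / 2 := by push_cast; ring
        rw [h6, Real.sin_add, Real.sin_sub]
        ring
    have h7 := key (2 * n)
    have h8 : ((2 * n : ℕ) : ℝ) * θ - θ / 2 = -(θ / 2) + d * (2 * Real.pi) := by
      push_cast
      have : (2 * (n : ℝ)) * θ = d * (2 * Real.pi) := by
        rw [hθ]; field_simp
      linarith
    rw [h8, Real.sin_add_int_mul_two_pi, Real.sin_neg, neg_add_cancel] at h7
    exact (mul_eq_zero.mp h7).resolve_left (by simpa using hs)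

theorem uF_cos {n : ℕ} (hn : 1 ≤ n) (x : ℕ → ℝ) (m : ℤ) (hm : |m| < n) :
    ∑ p ∈ range (2 * n), uF n p x * Real.cos (m * uth n p) = 2 * n * x m.natAbs := by
  have h1 : ∀ p ∈ range (2 * n), uF n p x * Real.cos (m * uth n p) =
      ∑ k ∈ range n, (uwt k * x k / 2) * (Real.cos (((k + m : ℤ) : ℝ) * uth n p) +
        Real.cos (((k - m : ℤ) : ℝ) * uth n p)) := by
    intro p _
    rw [uF, sum_mul]
    refine sum_congr rfl fun k _ => ?_
    push_cast
    rw [add_mul, sub_mul, Real.cos_add, Real.cos_sub]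
    ring
  rw [sum_congr rfl h1, sum_comm]
  have h2 : ∀ k ∈ range n, ∑ p ∈ range (2 * n), (uwt k * x k / 2) *
      (Real.cos (((k + m : ℤ) : ℝ) * uth n p) + Real.cos (((k - m : ℤ) : ℝ) * uth n p)) =
      if k = m.natAbs then 2 * n * x k else 0 := by
    intro k hk
    have hk' := mem_range.mp hk
    have hm1 := abs_lt.mp hm
    rw [← mul_sum, sum_add_distrib, u_cos_sum hn, u_cos_sum hn]
    · by_cases hk0 : k = 0
      · subst hk0
        by_cases hm0 : m = 0
        · subst hm0; simp [uwt]; ring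
        · have h3 : ¬ ((((0 : ℕ) : ℤ) + m) = 0) := by push_cast; omega
          have h4 : ¬ ((((0 : ℕ) : ℤ) - m) = 0) := by push_cast; omega
          have h5 : ¬ (0 = m.natAbs) := by omega
          rw [if_neg h3, if_neg h4, if_neg h5]; ring
      · have hw : uwt k = 2 := by simp [uwt, hk0]
        rw [hw]
        by_cases h3 : k = m.natAbs
        · rw [if_pos h3]
          rcases le_total 0 m with h | h
          · rw [if_neg (by omega), if_pos (by omega)]; ring
          · rw [if_pos (by omega), if_neg (by omega)]; ring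
        · rw [if_neg h3, if_neg (by omega), if_neg (by omega)]; ring
    · rw [abs_lt]; constructor <;> omega
    · rw [abs_lt]; constructor <;> omega
  rw [sum_congr rfl h2, sum_ite_eq']
  have h3 : m.natAbs ∈ range n := by
    rw [mem_range]
    have := abs_lt.mp hm
    omega
  rw [if_pos h3]

theorem uG_eq (n p : ℕ) (v : ℕ → ℝ) : uG n p v =
    ∑ i ∈ range n, ∑ j ∈ range n, Real.cos ((((i : ℤ) - (j : ℤ) : ℤ) : ℝ) * uth n p) *
      (v i * v j) := by
  rw [uG, sq, sq, sum_mul_sum, sum_mul_sum, ← sum_add_distrib]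
  refine sum_congr rfl fun i _ => ?_
  rw [← sum_add_distrib]
  refine sum_congr rfl fun j _ => ?_
  push_cast
  rw [sub_mul, Real.cos_sub]
  ring

theorem uQ_eq {n : ℕ} (hn : 1 ≤ n) (x v : ℕ → ℝ) :
    ∑ p ∈ range (2 * n), uF n p x * uG n p v = 2 * n * Q n x v := by
  have h1 : ∀ p ∈ range (2 * n), uF n p x * uG n p v =
      ∑ i ∈ range n, ∑ j ∈ range n, (uF n p x *
        Real.cos ((((i : ℤ) - (j : ℤ) : ℤ) : ℝ) * uth n p)) * (v i * v j) := by
    intro p _
    rw [uG_eq, mul_sum]
    refine sum_congr rfl fun i _ => ?_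
    rw [mul_sum]
    refine sum_congr rfl fun j _ => ?_
    ring
  rw [sum_congr rfl h1, sum_comm, Q, B, mul_sum]
  refine sum_congr rfl fun i hi => ?_
  rw [sum_comm, mul_sum]
  refine sum_congr rfl fun j hj => ?_
  rw [← sum_mul, uF_cos hn]
  · ring
  · have hi' := mem_range.mp hi
    have hj' := mem_range.mp hj
    rw [abs_lt]; constructor <;> omega

theorem uG_sum {n : ℕ} (hn : 1 ≤ n) (v : ℕ → ℝ) :
    ∑ p ∈ range (2 * n), uG n p v = 2 * n * nsq n v := by
  have h := uQ_eq hn (fun k => if k = 0 then 1 else 0) v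
  have h1 : ∀ p, uF n p (fun k => if k = 0 then 1 else 0) = 1 := by
    intro p
    rw [uF]
    simp only [mul_ite, mul_one, mul_zero]
    rw [sum_ite_eq', if_pos (mem_range.mpr (by omega))]
    simp [uwt]
  have h2 : Q n (fun k => if k = 0 then 1 else 0) v = nsq n v := by
    rw [Q, B, nsq]
    refine sum_congr rfl fun i hi => ?_
    rw [sum_eq_single i]
    · simp [sq]
    · intro j _ hji
      rw [if_neg (by omega), zero_mul]
    · intro h; exact absurd hi h
  rw [h2] at h
  simpa [h1] using h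

theorem uQ_le {n : ℕ} (hn : 1 ≤ n) (x v : ℕ → ℝ) {W : ℝ}
    (hW : ∀ p ∈ range (2 * n), |uF n p x| ≤ W) : |Q n x v| ≤ W * nsq n v := by
  have hn0 : (0 : ℝ) < 2 * n := by positivity
  have h1 : |2 * (n : ℝ) * Q n x v| ≤ W * (2 * n * nsq n v) := by
    rw [← uQ_eq hn, ← uG_sum hn, mul_sum]
    refine (abs_sum_le_sum_abs _ _).trans (sum_le_sum fun p hp => ?_)
    rw [abs_mul, abs_of_nonneg (uG_nonneg n p v)]
    exact mul_le_mul_of_nonneg_right (hW p hp) (uG_nonneg n p v)
  rw [abs_mul, abs_of_pos hn0] at h1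
  have h2 : 2 * (n : ℝ) * |Q n x v| ≤ 2 * n * (W * nsq n v) := by linarith
  exact le_of_mul_le_mul_left h2 hn0

/-! ### exponential moments -/

theorem u_indep : iIndepFun (fun (i : ℕ) (x : ℕ → ℝ) => x i) gam := by
  unfold gam
  exact iIndepFun_infinitePi (X := fun _ (t : ℝ) => t) (fun _ => measurable_id)

theorem u_map (i : ℕ) : gam.map (fun x : ℕ → ℝ => x i) = gaussianReal 0 1 := by
  unfold gam
  exact Measure.infinitePi_map_eval _ i

theorem u_exp (n : ℕ) (a : ℕ → ℝ) (ha : ∀ k, |a k| ≤ 2) (t : ℝ) :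
    Integrable (fun x => Real.exp (t * ∑ k ∈ range n, a k * x k)) gam ∧
    ∫ x, Real.exp (t * ∑ k ∈ range n, a k * x k) ∂gam ≤ Real.exp (2 * n * t ^ 2) := by
  have hind : iIndepFun (fun (i : ℕ) (x : ℕ → ℝ) => a i * x i) gam :=
    u_indep.comp (fun i y => a i * y) (fun i => measurable_const_mul (a i))
  have hmeas : ∀ i : ℕ, Measurable (fun x : ℕ → ℝ => a i * x i) := fun i => by fun_prop
  have hint : ∀ i : ℕ, Integrable (fun x : ℕ → ℝ => Real.exp (t * (a i * x i))) gam := by
    intro i
    have h1 := integrable_exp_mul_gaussianReal (μ := 0) (v := 1) (t * a i)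
    rw [← u_map i] at h1
    have hm : Measurable (fun x : ℕ → ℝ => x i) := measurable_pi_apply i
    have h2 := h1.comp_measurable hm
    simpa [Function.comp_def, mul_assoc] using h2
  have hmgf : ∀ i : ℕ, mgf (fun x : ℕ → ℝ => a i * x i) gam t = Real.exp ((t * a i) ^ 2 / 2) := by
    intro i
    have h1 := mgf_gaussianReal (p := gam) (X := fun x : ℕ → ℝ => x i) (u_map i) (t * a i)
    have h2 : mgf (fun x : ℕ → ℝ => a i * x i) gam t = mgf (fun x : ℕ → ℝ => x i) gam (t * a i) := by
      simp only [mgf, mul_assoc]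
    rw [h2, h1]
    congr 1
    push_cast
    ring
  constructor
  · have := hind.integrable_exp_mul_sum (t := t) hmeas (s := range n) (fun i _ => hint i)
    simpa only [Finset.sum_apply] using this
  · have h1 := hind.mgf_sum (t := t) hmeas (range n)
    have h2 : mgf (∑ i ∈ range n, fun x : ℕ → ℝ => a i * x i) gam t =
        ∫ x, Real.exp (t * ∑ k ∈ range n, a k * x k) ∂gam := by
      simp only [mgf, Finset.sum_apply]
    rw [← h2, h1, prod_congr rfl (fun i _ => hmgf i), ← Real.exp_sum]
    apply Real.exp_le_exp.mpr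
    calc ∑ i ∈ range n, (t * a i) ^ 2 / 2 ≤ ∑ i ∈ range n, 2 * t ^ 2 := by
          refine sum_le_sum fun i _ => ?_
          have h3 : a i ^ 2 ≤ 4 := by
            have := abs_le.mp (ha i)
            nlinarith [this.1, this.2]
          nlinarith [sq_nonneg t, mul_nonneg (sq_nonneg t) (sub_nonneg.mpr h3)]
      _ = 2 * n * t ^ 2 := by
          rw [sum_const, card_range, nsmul_eq_mul]; ring

/-- Sum of exponentials. -/
def uS (β : ℝ) (n : ℕ) (x : ℕ → ℝ) : ℝ :=
  ∑ p ∈ range (2 * n), (Real.exp (β * uF n p x) + Real.exp (-β * uF n p x))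

theorem uwt_cos_le (n p k : ℕ) : |uwt k * Real.cos (k * uth n p)| ≤ 2 := by
  rw [abs_mul]
  have h1 := Real.abs_cos_le_one (k * uth n p)
  have h2 : |uwt k| ≤ 2 := by
    rw [uwt]; split_ifs <;> norm_num
  calc |uwt k| * |Real.cos (k * uth n p)| ≤ 2 * 1 :=
        mul_le_mul h2 h1 (abs_nonneg _) (by norm_num)
    _ = 2 := by norm_num

theorem uS_int (β : ℝ) (n : ℕ) : Integrable (uS β n) gam ∧
    ∫ x, uS β n x ∂gam ≤ 4 * n * Real.exp (2 * n * β ^ 2) := by
  have h1 : ∀ p, Integrable (fun x => Real.exp (β * uF n p x)) gam ∧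
      ∫ x, Real.exp (β * uF n p x) ∂gam ≤ Real.exp (2 * n * β ^ 2) := fun p =>
    u_exp n (fun k => uwt k * Real.cos (k * uth n p)) (uwt_cos_le n p) β
  have h2 : ∀ p, Integrable (fun x => Real.exp (-β * uF n p x)) gam ∧
      ∫ x, Real.exp (-β * uF n p x) ∂gam ≤ Real.exp (2 * n * β ^ 2) := fun p => by
    have := u_exp n (fun k => uwt k * Real.cos (k * uth n p)) (uwt_cos_le n p) (-β)
    rw [neg_sq] at this
    exact this
  constructor
  · exact integrable_finsetSum _ fun p _ => (h1 p).1.add (h2 p).1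
  · have h3 : ∫ x, uS β n x ∂gam = ∑ p ∈ range (2 * n), (∫ x, Real.exp (β * uF n p x) ∂gam +
        ∫ x, Real.exp (-β * uF n p x) ∂gam) := by
      unfold uS
      have h4 : ∀ p ∈ range (2 * n), Integrable
          (fun x => Real.exp (β * uF n p x) + Real.exp (-β * uF n p x)) gam :=
        fun p _ => (h1 p).1.add (h2 p).1
      rw [integral_finsetSum _ h4]
      exact sum_congr rfl fun p _ => integral_add (h1 p).1 (h2 p).1
    rw [h3]
    calc _ ≤ ∑ p ∈ range (2 * n), (Real.exp (2 * n * β ^ 2) + Real.exp (2 * n * β ^ 2)) :=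
          sum_le_sum fun p _ => add_le_add (h1 p).2 (h2 p).2
      _ = 4 * n * Real.exp (2 * n * β ^ 2) := by
          rw [sum_const, card_range, nsmul_eq_mul]; push_cast; ring

/-! ### the bound -/

/-- The inverse temperature. -/
def uβ (n : ℕ) : ℝ := Real.sqrt (Real.log (n + 2) / n)

/-- The normalising constant. -/
def uA (n : ℕ) : ℝ := 4 * n * Real.exp (2 * n * uβ n ^ 2)

/-- Upper bound for the norm of the Toeplitz matrix. -/
def uW (n : ℕ) (x : ℕ → ℝ) : ℝ :=
  if n = 0 then 0 else (Real.log (uA n) + (uS (uβ n) n x / uA n - 1)) / uβ n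

theorem u_log_pos (n : ℕ) : 0 < Real.log ((n : ℝ) + 2) := by
  apply Real.log_pos
  have : (0 : ℝ) ≤ n := by positivity
  linarith

theorem uβ_pos {n : ℕ} (hn : 1 ≤ n) : 0 < uβ n := by
  unfold uβ
  have := u_log_pos n
  have hn' : (0 : ℝ) < n := by exact_mod_cast hn
  positivity

theorem uA_pos {n : ℕ} (hn : 1 ≤ n) : 0 < uA n := by
  unfold uA
  have hn' : (0 : ℝ) < n := by exact_mod_cast hn
  positivity

theorem uF_le_uW {n : ℕ} (hn : 1 ≤ n) (x : ℕ → ℝ) (p : ℕ) (hp : p ∈ range (2 * n)) :
    |uF n p x| ≤ uW n x := by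
  have hβ := uβ_pos hn
  have hA := uA_pos hn
  rw [uW, if_neg (by omega), le_div_iff₀ hβ]
  set T := |uF n p x| with hT
  have h1 : Real.exp (T * uβ n) ≤ uS (uβ n) n x := by
    have h2 : Real.exp (T * uβ n) ≤ Real.exp (uβ n * uF n p x) + Real.exp (-uβ n * uF n p x) := by
      rcases abs_cases (uF n p x) with ⟨h, _⟩ | ⟨h, _⟩
      · rw [hT, h, mul_comm]
        linarith [Real.exp_pos (-uβ n * uF n p x)]
      · rw [hT, h]
        have : -uF n p x * uβ n = -uβ n * uF n p x := by ring
        rw [this]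
        linarith [Real.exp_pos (uβ n * uF n p x)]
    refine h2.trans ?_
    exact single_le_sum (f := fun p => Real.exp (uβ n * uF n p x) + Real.exp (-uβ n * uF n p x))
      (fun q _ => by positivity) hp
  have h3 := Real.add_one_le_exp (T * uβ n - Real.log (uA n))
  rw [Real.exp_sub, Real.exp_log hA] at h3
  have h4 : Real.exp (T * uβ n) / uA n ≤ uS (uβ n) n x / uA n :=
    div_le_div_of_nonneg_right h1 hA.le
  linarith

theorem u_log_uA {n : ℕ} (hn : 1 ≤ n) : Real.log (uA n) ≤ 5 * Real.log (n + 2) := by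
  have hn' : (1 : ℝ) ≤ n := by exact_mod_cast hn
  have hL := u_log_pos n
  have h1 : uβ n ^ 2 = Real.log (n + 2) / n := by
    rw [uβ, Real.sq_sqrt (by positivity)]
  have h2 : 2 * (n : ℝ) * uβ n ^ 2 = 2 * Real.log (n + 2) := by
    rw [h1]; field_simp
  rw [uA, h2, Real.log_mul (by positivity) (by positivity), Real.log_exp,
    Real.log_mul (by norm_num) (by positivity)]
  have h3 : Real.log n ≤ Real.log (n + 2) := Real.log_le_log (by positivity) (by linarith)
  have h4 : Real.log 4 ≤ 2 * Real.log (n + 2) := by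
    have : Real.log 4 = 2 * Real.log 2 := by
      rw [show (4 : ℝ) = 2 ^ 2 by norm_num, Real.log_pow]; norm_num
    rw [this]
    have : Real.log 2 ≤ Real.log (n + 2) := Real.log_le_log (by norm_num) (by linarith)
    linarith
  linarith

theorem exists_W : ∃ W : ℕ → (ℕ → ℝ) → ℝ,
    (∀ n x v, |Q n x v| ≤ W n x * nsq n v) ∧ (∀ n x, 0 ≤ W n x) ∧ (∀ n, Integrable (W n) gam) ∧
    ∃ C : ℝ, 0 < C ∧ ∀ n : ℕ, 1 ≤ n → ∫ x, W n x ∂gam ≤ C * Real.sqrt (n * Real.log (n + 2)) := by
  refine ⟨uW, ?_, ?_, ?_, 5, by norm_num, ?_⟩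
  · intro n x v
    rcases Nat.eq_zero_or_pos n with rfl | hn
    · simp [Q, B, nsq]
    · exact uQ_le hn x v (fun p hp => uF_le_uW hn x p hp)
  · intro n x
    rcases Nat.eq_zero_or_pos n with rfl | hn
    · simp [uW]
    · exact (abs_nonneg _).trans (uF_le_uW hn x 0 (mem_range.mpr (by omega)))
  · intro n
    rcases Nat.eq_zero_or_pos n with rfl | hn
    · have : uW 0 = fun _ => 0 := by ext x; simp [uW]
      rw [this]; exact integrable_const _
    · have : uW n = fun x => (Real.log (uA n) + (uS (uβ n) n x / uA n - 1)) / uβ n := by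
        ext x; rw [uW, if_neg (by omega)]
      rw [this]
      exact (((integrable_const _).add (((uS_int (uβ n) n).1.div_const _).sub
        (integrable_const _)))).div_const _
  · intro n hn
    have hβ := uβ_pos hn
    have hA := uA_pos hn
    have hL := u_log_pos n
    have hn' : (1 : ℝ) ≤ n := by exact_mod_cast hn
    have h0 : uW n = fun x => (Real.log (uA n) + (uS (uβ n) n x / uA n - 1)) / uβ n := by
      ext x; rw [uW, if_neg (by omega)]
    have hS := uS_int (uβ n) n
    have h1 : ∫ x, uW n x ∂gam =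
        (Real.log (uA n) + ((∫ x, uS (uβ n) n x ∂gam) / uA n - 1)) / uβ n := by
      have h5 : Integrable (fun x => uS (uβ n) n x / uA n - 1) gam :=
        (hS.1.div_const _).sub (integrable_const _)
      rw [h0, integral_div, integral_add (integrable_const _) h5,
        integral_sub (hS.1.div_const _) (integrable_const _), integral_div]
      simp
    have h2 : (∫ x, uS (uβ n) n x ∂gam) / uA n ≤ 1 := by
      rw [div_le_one hA]; exact hS.2
    rw [h1, div_le_iff₀ hβ]
    have h3 : Real.sqrt (n * Real.log (n + 2)) * uβ n = Real.log (n + 2) := by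
      rw [uβ, ← Real.sqrt_mul (by positivity)]
      have : (n : ℝ) * Real.log (n + 2) * (Real.log (n + 2) / n) = Real.log (n + 2) ^ 2 := by
        field_simp
      rw [this, Real.sqrt_sq hL.le]
    rw [mul_assoc, h3]
    linarith [u_log_uA hn]

end

end Pool.Agent.Helper12.Toep
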