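import Pool.Agent.Helper12.Toep.Block
import Pool.Agent.Helper12.Toep.Spec
import Pool.Agent.Helper12.Toep.Conc
import Pool.Agent.Helper12.Toep.Upper
import Pool.Agent.Helper12.Toep.Blockmean

/-!
# The renormalisation inequality
-/

set_option autoImplicit false

open MeasureTheory ProbabilityTheory Finset Filter Topology

namespace Pool.Agent.Helper12.Toep

noncomputable section

lemma integrable_lam {n : ℕ} (hn : 1 ≤ n) : Integrable (lam n) gam := (conc (lip_lam hn)).1

lemma integrable_U {q N : ℕ} (hq : 1 ≤ q) (hN : 1 ≤ N) : Integrable (U q N) gam :=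
  (conc (lip_U hq hN)).1

lemma measurable_alt : Measurable alt := by
  refine measurable_pi_lambda _ fun k => ?_
  unfold alt
  exact (measurable_pi_apply k).const_mul _

lemma mp_alt : MeasurePreserving alt gam gam := ⟨measurable_alt, alt_law⟩

lemma L_mono {n m : ℕ} (hn : 1 ≤ n) (h : n ≤ m) : L n ≤ L m := by
  unfold L
  exact integral_mono (integrable_lam hn) (integrable_lam (hn.trans h)) fun x => lam_mono hn h x

lemma U_le_lam {q N : ℕ} (hq : 1 ≤ q) (hN : 1 ≤ N) (x : ℕ → ℝ) : U q N x ≤ lam (q * N) x := by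
  obtain ⟨v, _, hv⟩ := unit_nonempty hN
  refine csSup_le ⟨_, v, hv, rfl⟩ ?_
  rintro t ⟨w, hw, rfl⟩
  exact Q_le_lam (by rw [nsq_blk hq, hw])

lemma L_nonneg {n : ℕ} (hn : 1 ≤ n) : 0 ≤ L n := by
  have h1 := (U_mean hn (le_refl 1)).1
  have h2 : ∫ x, U n 1 x ∂gam ≤ L n := by
    unfold L
    refine integral_mono (integrable_U hn le_rfl) (integrable_lam hn) fun x => ?_
    have := U_le_lam hn (le_refl 1) x
    rwa [mul_one] at this
  exact h1.trans h2

/-- the gap at size `n + q` is at most `ε` -/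
def gapSet (n : ℕ) (ε : ℝ) : Set (ℕ → ℝ) := {x | 2 ≤ nev n x (Set.Ici (lam n x - ε))}

lemma pointwise {n q N : ℕ} (hn : 1 ≤ n) (hq : 1 ≤ q) (hnN : n ≤ q * N) {ε c : ℝ}
    (hc0 : 0 < c) (hc : c ≤ 1 / 8) (x : ℕ → ℝ) (hgap : x ∉ gapSet (n + q) ε)
    (hδ : 3 * (lam (n + q) x - lam n x) ≤ ε * c) {W : ℝ} (hW0 : 0 ≤ W)
    (hW : ∀ u, |Q (q * N) x u| ≤ W * nsq (q * N) u) :
    lam n x ≤ max (max (U q N x) (U q N (alt x))) 0 + 4 * Real.sqrt c * W := by
  obtain ⟨v, hv, hv1, hv2⟩ := lam_attained hn x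
  rw [← hv2]
  refine block hq hnN x v hv hv1 hc0 hc hW0 hW fun k hk1 hkq => ?_
  by_contra hcon
  push Not at hcon
  obtain ⟨h1, h2⟩ := near_aux hn x hc0 hδ v hv hv1 hv2 k hkq hcon
  exact hgap (nev_ge_two x v (sh k v) _ h1 h2)

theorem core {n q N : ℕ} (hn : 1 ≤ n) (hq : 1 ≤ q) (hN : 1 ≤ N) (hnN : n ≤ q * N) {ε c τ : ℝ}
    (hc0 : 0 < c) (hc : c ≤ 1 / 8)
    (hgap : gam.real (gapSet (n + q) ε) ≤ τ)
    (hδ : gam.real {x | ε * c < 3 * (lam (n + q) x - lam n x)} ≤ τ)
    {W : (ℕ → ℝ) → ℝ} (hW0 : ∀ x, 0 ≤ W x) (hWi : Integrable W gam)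
    (hW : ∀ x u, |Q (q * N) x u| ≤ W x * nsq (q * N) u) :
    (1 - 2 * τ) * L n ≤ Real.sqrt q * L N + 4 * Real.sqrt ((q * N : ℕ) : ℝ) + 2 * Real.sqrt n +
      4 * Real.sqrt c * ∫ x, W x ∂gam := by
  obtain ⟨E, hE⟩ : ∃ E, E = toMeasurable gam
    (gapSet (n + q) ε ∪ {x | ε * c < 3 * (lam (n + q) x - lam n x)}) := ⟨_, rfl⟩
  have hEm : MeasurableSet E := by rw [hE]; exact measurableSet_toMeasurable _ _
  have hEle : gam.real E ≤ 2 * τ := by
    have h1 : gam.real E = gam.real
        (gapSet (n + q) ε ∪ {x | ε * c < 3 * (lam (n + q) x - lam n x)}) := by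
      unfold Measure.real
      rw [hE, measure_toMeasurable]
    rw [h1]
    refine (measureReal_union_le _ _).trans ?_
    linarith
  have hsub : ∀ x, x ∉ E → x ∉ gapSet (n + q) ε ∧ 3 * (lam (n + q) x - lam n x) ≤ ε * c := by
    intro x hx
    have h1 : x ∉ gapSet (n + q) ε ∪ {x | ε * c < 3 * (lam (n + q) x - lam n x)} := by
      intro h
      apply hx
      rw [hE]
      exact subset_toMeasurable _ _ h
    rw [Set.mem_union, not_or] at h1
    refine ⟨h1.1, ?_⟩
    have := h1.2
    by_contra hcon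
    push Not at hcon
    exact this hcon
  obtain ⟨u, hu⟩ : ∃ u, u = ∫ x, U q N x ∂gam := ⟨_, rfl⟩
  have hu0 : 0 ≤ u := by rw [hu]; exact (U_mean hq hN).1
  have hu1 : u ≤ Real.sqrt q * L N := by rw [hu]; exact (U_mean hq hN).2
  have hL0 : 0 ≤ L n := L_nonneg hn
  have hUi := integrable_U hq hN
  -- pointwise inequality
  have hpt : ∀ x, lam n x ≤ u + |U q N x - u| + |U q N (alt x) - u| + 4 * Real.sqrt c * W x +
      (E.indicator (fun _ => L n) x + |lam n x - L n|) := by
    intro x
    have hs : 0 ≤ 4 * Real.sqrt c * W x := by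
      have := hW0 x
      positivity
    have a1 := abs_nonneg (U q N x - u)
    have a2 := abs_nonneg (U q N (alt x) - u)
    have a3 := abs_nonneg (lam n x - L n)
    have b1 := le_abs_self (U q N x - u)
    have b2 := le_abs_self (U q N (alt x) - u)
    have b3 := le_abs_self (lam n x - L n)
    by_cases hx : x ∈ E
    · rw [Set.indicator_of_mem hx]
      linarith
    · rw [Set.indicator_of_notMem hx]
      obtain ⟨h1, h2⟩ := hsub x hx
      have h3 := pointwise hn hq hnN hc0 hc x h1 h2 (hW0 x) (hW x)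
      have h4 : max (max (U q N x) (U q N (alt x))) 0 ≤
          u + |U q N x - u| + |U q N (alt x) - u| := by
        refine max_le (max_le ?_ ?_) ?_ <;> linarith
      linarith
  -- integrate
  have i1 : Integrable (fun x => |U q N x - u|) gam := (hUi.sub (integrable_const u)).abs
  have i2 : Integrable (fun x => |U q N (alt x) - u|) gam := by
    have := mp_alt.integrable_comp_of_integrable i1
    exact this
  have i3 : Integrable (fun x => 4 * Real.sqrt c * W x) gam := hWi.const_mul _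
  have i4 : Integrable (E.indicator (fun _ => L n)) gam := (integrable_const (L n)).indicator hEm
  have i5 : Integrable (fun x => |lam n x - L n|) gam :=
    ((integrable_lam hn).sub (integrable_const (L n))).abs
  have i12 : Integrable (fun x => u + |U q N x - u| + |U q N (alt x) - u|) gam :=
    ((integrable_const u).add i1).add i2
  have hint := integral_mono (integrable_lam hn) ((i12.add i3).add (i4.add i5)) hpt
  have e1 : ∫ x, (((fun x => u + |U q N x - u| + |U q N (alt x) - u|) +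
      (fun x => 4 * Real.sqrt c * W x)) + (E.indicator (fun _ => L n) +
      fun x => |lam n x - L n|)) x ∂gam =
      u + ∫ x, |U q N x - u| ∂gam + ∫ x, |U q N (alt x) - u| ∂gam +
      4 * Real.sqrt c * ∫ x, W x ∂gam + (gam.real E * L n + ∫ x, |lam n x - L n| ∂gam) := by
    rw [integral_add' (i12.add i3) (i4.add i5), integral_add' i12 i3, integral_add' i4 i5]
    have e2 : ∫ x, (u + |U q N x - u|) ∂gam = u + ∫ x, |U q N x - u| ∂gam := by
      rw [integral_add (integrable_const u) i1]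
      simp
    have e3 : ∫ x, (u + |U q N x - u| + |U q N (alt x) - u|) ∂gam =
        u + ∫ x, |U q N x - u| ∂gam + ∫ x, |U q N (alt x) - u| ∂gam := by
      have h := integral_add (μ := gam) (f := fun x => u + |U q N x - u|)
        (g := fun x => |U q N (alt x) - u|) ((integrable_const u).add i1) i2
      rw [h, e2]
    rw [e3, integral_const_mul, integral_indicator_const _ hEm]
    simp
  have hint' : ∫ x, lam n x ∂gam ≤ u + ∫ x, |U q N x - u| ∂gam + ∫ x, |U q N (alt x) - u| ∂gam +
      4 * Real.sqrt c * ∫ x, W x ∂gam + (gam.real E * L n + ∫ x, |lam n x - L n| ∂gam) :=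
    hint.trans (le_of_eq e1)
  have c1 : ∫ x, |U q N x - u| ∂gam ≤ 2 * Real.sqrt ((q * N : ℕ) : ℝ) := by
    rw [hu]; exact (conc (lip_U hq hN)).2
  have c2 : ∫ x, |U q N (alt x) - u| ∂gam = ∫ x, |U q N x - u| ∂gam := by
    have h1 : ∫ x, |U q N x - u| ∂(gam.map alt) = ∫ x, |U q N (alt x) - u| ∂gam :=
      integral_map measurable_alt.aemeasurable (by rw [alt_law]; exact i1.aestronglyMeasurable)
    rw [← h1, alt_law]
  have c3 : ∫ x, |lam n x - L n| ∂gam ≤ 2 * Real.sqrt n := (conc (lip_lam hn)).2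
  have c4 : gam.real E * L n ≤ 2 * τ * L n := mul_le_mul_of_nonneg_right hEle hL0
  have c5 : ∫ x, lam n x ∂gam = L n := rfl
  rw [c5] at hint'
  rw [c2] at hint'
  linarith

/-- Markov's inequality for the increment of the top eigenvalue -/
lemma markov_delta {n q : ℕ} (hn : 1 ≤ n) {s : ℝ} (hs : 0 < s) :
    gam.real {x | s < 3 * (lam (n + q) x - lam n x)} ≤ 3 * (L (n + q) - L n) / s := by
  have hnn : ∀ x, 0 ≤ 3 * (lam (n + q) x - lam n x) := by
    intro x
    have := lam_mono hn (Nat.le_add_right n q) x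
    linarith
  have hi : Integrable (fun x => 3 * (lam (n + q) x - lam n x)) gam :=
    ((integrable_lam (hn.trans (Nat.le_add_right n q))).sub (integrable_lam hn)).const_mul 3
  have h1 := mul_meas_ge_le_integral_of_nonneg (ae_of_all _ hnn) hi s
  have h2 : gam.real {x | s < 3 * (lam (n + q) x - lam n x)} ≤
      gam.real {x | s ≤ 3 * (lam (n + q) x - lam n x)} :=
    measureReal_mono (fun x hx => by
      have hx' : s < 3 * (lam (n + q) x - lam n x) := hx
      exact hx'.le)
  have h3 : ∫ x, 3 * (lam (n + q) x - lam n x) ∂gam = 3 * (L (n + q) - L n) := by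
    rw [integral_const_mul, integral_sub (integrable_lam (hn.trans (Nat.le_add_right n q)))
      (integrable_lam hn)]
    rfl
  rw [h3] at h1
  rw [le_div_iff₀ hs]
  nlinarith

end

end Pool.Agent.Helper12.Toep
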