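import Mathlib

/-!
# Random symmetric Toeplitz matrices: definitions

`x : ℕ → ℝ` is the sequence of entries, the matrix is `T_n = (x |i-j|)`.
Vectors are functions `v : ℕ → ℝ`, only the coordinates `0, ..., n-1` matter.
-/

set_option autoImplicit false

open MeasureTheory ProbabilityTheory Finset

namespace Pool.Agent.Helper12.Toep

noncomputable section

/-- The bilinear form of the `n × n` symmetric Toeplitz matrix with entries `x`. -/
def B (n : ℕ) (x : ℕ → ℝ) (v w : ℕ → ℝ) : ℝ :=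
  ∑ i ∈ range n, ∑ j ∈ range n, x ((i : ℤ) - (j : ℤ)).natAbs * (v i * w j)

/-- The quadratic form of the `n × n` symmetric Toeplitz matrix with entries `x`. -/
def Q (n : ℕ) (x : ℕ → ℝ) (v : ℕ → ℝ) : ℝ := B n x v v

/-- Scalar product of the first `n` coordinates. -/
def ip (n : ℕ) (v w : ℕ → ℝ) : ℝ := ∑ i ∈ range n, v i * w i

/-- Squared norm of the first `n` coordinates. -/
def nsq (n : ℕ) (v : ℕ → ℝ) : ℝ := ∑ i ∈ range n, v i ^ 2

/-- The top eigenvalue as a supremum of Rayleigh quotients. -/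
def lam (n : ℕ) (x : ℕ → ℝ) : ℝ := sSup {t | ∃ v : ℕ → ℝ, nsq n v = 1 ∧ Q n x v = t}

/-- Autocorrelations of a vector with `n` coordinates. -/
def corr (n : ℕ) (v : ℕ → ℝ) (k : ℕ) : ℝ := ∑ i ∈ range n, v i * v (i + k)

/-- The block-constant vector with blocks of length `q`. -/
def blk (q : ℕ) (w : ℕ → ℝ) : ℕ → ℝ := fun i => w (i / q) / Real.sqrt q

/-- Supremum of Rayleigh quotients over block-constant vectors with `N` blocks of length `q`. -/
def U (q N : ℕ) (x : ℕ → ℝ) : ℝ :=
  sSup {t | ∃ w : ℕ → ℝ, nsq N w = 1 ∧ Q (q * N) x (blk q w) = t}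

/-- Sign alternation. -/
def alt (x : ℕ → ℝ) : ℕ → ℝ := fun k => (-1) ^ k * x k

/-- The symmetric Toeplitz matrix `T_n`. -/
def toeplitz (n : ℕ) (x : ℕ → ℝ) : Matrix (Fin n) (Fin n) ℝ :=
  Matrix.of fun i j => x (((i : ℕ) : ℤ) - ((j : ℕ) : ℤ)).natAbs

theorem toeplitz_isHermitian (n : ℕ) (x : ℕ → ℝ) : (toeplitz n x).IsHermitian := by
  ext i j
  simp only [toeplitz, Matrix.conjTranspose_apply, Matrix.of_apply, star_trivial]
  congr 1
  omega

/-- The number of eigenvalues (with multiplicity) of `T_n` in `S`. -/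
def nev (n : ℕ) (x : ℕ → ℝ) (S : Set ℝ) : ℕ :=
  Set.ncard {i : Fin n | (toeplitz_isHermitian n x).eigenvalues i ∈ S}

/-- The law of a sequence of independent standard Gaussians. -/
def gam : Measure (ℕ → ℝ) := Measure.infinitePi (fun _ : ℕ => gaussianReal 0 1)

instance : IsProbabilityMeasure gam := by unfold gam; infer_instance

/-- Expected top eigenvalue. -/
def L (n : ℕ) : ℝ := ∫ x, lam n x ∂gam

/-- `f` depends on the first `n` coordinates only and is 2-Lipschitz in each of them. -/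
def Lip2 (n : ℕ) (f : (ℕ → ℝ) → ℝ) : Prop :=
  ∀ x y : ℕ → ℝ, |f x - f y| ≤ ∑ k ∈ range n, 2 * |x k - y k|

end

end Pool.Agent.Helper12.Toep
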