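import Pool.Agent.Helper12.Toep.Basic
import Pool.Agent.Helper12.Toep.Conc

/-!
# Lower bound for the expected top eigenvalue of a Gaussian Toeplitz matrix

`L_lower`: the expected largest eigenvalue of the `n × n` symmetric Toeplitz matrix with standard
Gaussian entries is at least `c √(n log n)`.

The proof conditions on the `J` Gaussian variables given by the Fourier coefficients of the first
`K` entries at the frequencies `2 π (i + 1) / M`, and tests the quadratic form against the wave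
packet of the largest coordinate.
-/


set_option autoImplicit false

open MeasureTheory ProbabilityTheory Finset Filter Topology

namespace Pool.Agent.Helper12.Toep

noncomputable section

namespace Low

/-- Linear form in the first `n` coordinates. -/
def lin (n : ℕ) (a : ℕ → ℝ) (x : ℕ → ℝ) : ℝ := ∑ k ∈ range n, a k * x k

theorem law_coord (k : ℕ) : gam.map (fun x : ℕ → ℝ => x k) = gaussianReal 0 1 := by
  have := Measure.infinitePi_map_eval (μ := fun _ : ℕ => gaussianReal 0 1) k
  exact this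

theorem iIndep_coord : iIndepFun (fun (k : ℕ) (x : ℕ → ℝ) => x k) gam := by
  rw [iIndepFun_iff_map_fun_eq_infinitePi_map (by fun_prop)]
  have : (fun x : ℕ → ℝ => fun i => x i) = id := rfl
  rw [this, Measure.map_id]
  unfold gam
  congr 1
  ext k : 1
  exact (law_coord k).symm

theorem hasGaussianLaw_coord1 (k : ℕ) : HasGaussianLaw (fun x : ℕ → ℝ => x k) gam where
  isGaussian_map := by rw [law_coord]; infer_instance

theorem hasGaussianLaw_coord (n : ℕ) : HasGaussianLaw (fun (x : ℕ → ℝ) (i : Fin n) => x i) gam := by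
  have h := iIndep_coord.precomp (g := fun i : Fin n => (i : ℕ)) Fin.val_injective
  exact h.hasGaussianLaw (fun i => hasGaussianLaw_coord1 i)

theorem hasGaussianLaw_pair {n p q : ℕ} (a : Fin p → ℕ → ℝ) (b : Fin q → ℕ → ℝ) :
    HasGaussianLaw (fun x : ℕ → ℝ => (fun i => lin n (a i) x, fun j => lin n (b j) x)) gam := by
  have h := hasGaussianLaw_coord n
  let A : (Fin n → ℝ) →L[ℝ] (Fin p → ℝ) :=
    ContinuousLinearMap.pi fun i => ∑ k : Fin n, (a i k) • ContinuousLinearMap.proj k
  let B' : (Fin n → ℝ) →L[ℝ] (Fin q → ℝ) :=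
    ContinuousLinearMap.pi fun i => ∑ k : Fin n, (b i k) • ContinuousLinearMap.proj k
  have h2 := h.map_fun (A.prod B')
  have : (fun x : ℕ → ℝ => (fun i => lin n (a i) x, fun j => lin n (b j) x)) =
      fun x : ℕ → ℝ => (A.prod B') (fun i : Fin n => x i) := by
    ext x i
    · simp [A, lin, Finset.sum_range]
    · simp [B', lin, Finset.sum_range]
  rw [this]
  exact h2

theorem memLp_coord (k : ℕ) : MemLp (fun x : ℕ → ℝ => x k) 2 gam :=
  (hasGaussianLaw_coord1 k).memLp_two

theorem cov_coord (k l : ℕ) :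
    cov[fun x : ℕ → ℝ => x k, fun x : ℕ → ℝ => x l; gam] = if k = l then 1 else 0 := by
  split_ifs with h
  · subst h
    rw [covariance_self (measurable_pi_apply k).aemeasurable]
    have := variance_id_gaussianReal (μ := 0) (v := 1)
    rw [← law_coord k] at this
    rw [variance_map (X := id) (Y := fun x : ℕ → ℝ => x k) aemeasurable_id
      (measurable_pi_apply k).aemeasurable] at this
    simpa [Function.comp_def] using this
  · exact (iIndep_coord.indepFun h).covariance_eq_zero (memLp_coord k) (memLp_coord l)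

theorem memLp_lin (n : ℕ) (a : ℕ → ℝ) : MemLp (lin n a) 2 gam := by
  unfold lin
  exact memLp_finsetSum _ fun k _ => (memLp_coord k).const_mul _

theorem integrable_lin (n : ℕ) (a : ℕ → ℝ) : Integrable (lin n a) gam :=
  (memLp_lin n a).integrable (by norm_num)

theorem integral_coord (k : ℕ) : ∫ x : ℕ → ℝ, x k ∂gam = 0 := by
  have := integral_id_gaussianReal (μ := 0) (v := 1)
  rw [← law_coord k, integral_map (measurable_pi_apply k).aemeasurable (by fun_prop)] at this
  exact this

theorem integral_lin (n : ℕ) (a : ℕ → ℝ) : ∫ x, lin n a x ∂gam = 0 := by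
  unfold lin
  rw [integral_finsetSum _ fun k _ => ((memLp_coord k).integrable (by norm_num)).const_mul _]
  simp [integral_const_mul, integral_coord]

theorem cov_lin (n : ℕ) (a b : ℕ → ℝ) :
    cov[lin n a, lin n b; gam] = ∑ k ∈ range n, a k * b k := by
  unfold lin
  rw [covariance_fun_sum_fun_sum' (fun k _ => (memLp_coord k).const_mul _)
    (fun k _ => (memLp_coord k).const_mul _)]
  refine Finset.sum_congr rfl fun k hk => ?_
  simp only [covariance_const_mul_left, covariance_const_mul_right, cov_coord]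
  rw [Finset.sum_eq_single k]
  · simp [mul_comm]
  · intro l _ hl
    simp [hl.symm]
  · intro h; exact absurd hk h

end Low

namespace Low

/-- number of large coordinates -/
def cnt {J : ℕ} (t : ℝ) (y : Fin J → ℝ) : ℝ := ∑ j, if t ≤ y j then (1 : ℝ) else 0

def psi {J : ℕ} (t : ℝ) (i : Fin J) (y : Fin J → ℝ) : ℝ :=
  if cnt t y = 0 then 1 / J else (if t ≤ y i then 1 else 0) / cnt t y

theorem cnt_nonneg {J : ℕ} (t : ℝ) (y : Fin J → ℝ) : 0 ≤ cnt t y := by
  unfold cnt
  exact Finset.sum_nonneg fun j _ => by split_ifs <;> norm_num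

theorem cnt_eq_zero {J : ℕ} (t : ℝ) (y : Fin J → ℝ) : cnt t y = 0 ↔ ∀ j, y j < t := by
  unfold cnt
  rw [Finset.sum_eq_zero_iff_of_nonneg fun j _ => by split_ifs <;> norm_num]
  constructor
  · intro h j
    have := h j (Finset.mem_univ _)
    by_contra hc
    simp [not_lt.1 hc] at this
  · intro h j _
    simp [not_le.2 (h j)]

theorem measurable_cnt {J : ℕ} (t : ℝ) : Measurable (cnt (J := J) t) := by
  unfold cnt
  refine Finset.measurable_sum _ fun j _ => ?_
  exact Measurable.ite (measurableSet_le measurable_const (measurable_pi_apply j))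
    measurable_const measurable_const

theorem measurable_psi {J : ℕ} (t : ℝ) (i : Fin J) : Measurable (psi t i) := by
  unfold psi
  refine Measurable.ite (measurableSet_eq_fun (measurable_cnt t) measurable_const) measurable_const ?_
  exact (Measurable.ite (measurableSet_le measurable_const (measurable_pi_apply i))
    measurable_const measurable_const).div (measurable_cnt t)

theorem psi_nonneg {J : ℕ} (t : ℝ) (i : Fin J) (y : Fin J → ℝ) : 0 ≤ psi t i y := by
  unfold psi
  have := cnt_nonneg t y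
  split_ifs <;> positivity

theorem sum_psi {J : ℕ} (hJ : 1 ≤ J) (t : ℝ) (y : Fin J → ℝ) : ∑ i, psi t i y = 1 := by
  unfold psi
  have hJ' : (J : ℝ) ≠ 0 := by positivity
  by_cases h : cnt t y = 0
  · simp [h, hJ']
  · simp only [h, if_false]
    rw [← Finset.sum_div]
    exact div_self h

theorem psi_le_one {J : ℕ} (hJ : 1 ≤ J) (t : ℝ) (i : Fin J) (y : Fin J → ℝ) : psi t i y ≤ 1 := by
  rw [← sum_psi hJ t y]
  exact Finset.single_le_sum (f := fun i => psi t i y) (fun j _ => psi_nonneg t j y) (Finset.mem_univ i)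

theorem sum_psi_mul {J : ℕ} (hJ : 1 ≤ J) (t : ℝ) (y : Fin J → ℝ) :
    t * (if cnt t y = 0 then 0 else 1) - (1 / J) * ∑ j, |y j| ≤ ∑ i, psi t i y * y i := by
  have hs : 0 ≤ (1 / (J : ℝ)) * ∑ j, |y j| := by positivity
  by_cases h : cnt t y = 0
  · simp only [h, if_true, mul_zero, zero_sub, psi]
    rw [Finset.mul_sum, ← Finset.sum_neg_distrib]
    refine Finset.sum_le_sum fun j _ => ?_
    have := neg_abs_le (y j)
    have h1 : (0 : ℝ) ≤ 1 / J := by positivity
    nlinarith
  · simp only [h, if_false, mul_one]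
    have h1 : t * ∑ i, psi t i y ≤ ∑ i, psi t i y * y i := by
      rw [Finset.mul_sum]
      refine Finset.sum_le_sum fun i _ => ?_
      by_cases hi : t ≤ y i
      · rw [mul_comm]
        exact mul_le_mul_of_nonneg_left hi (psi_nonneg t i y)
      · simp [psi, h, hi]
    rw [sum_psi hJ] at h1
    linarith

theorem law_lin {n : ℕ} {e : ℕ → ℝ} (he : ∑ k ∈ range n, e k * e k = 1) :
    gam.map (lin n e) = gaussianReal 0 1 := by
  have h := (hasGaussianLaw_pair (n := n) (p := 1) (q := 0) (fun _ => e) (fun _ => e)).fst.eval 0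
  have h2 := h.map_eq_gaussianReal
  have hi : ∫ x, lin n e x ∂gam = 0 := integral_lin n e
  have hv : Var[lin n e; gam] = 1 := by
    rw [← covariance_self (memLp_lin n e).aestronglyMeasurable.aemeasurable, cov_lin, he]
  have h3 : (fun x => lin n e x) = lin n e := rfl
  simp only [h3] at h2
  rw [h2, hi, hv]
  simp

theorem integral_abs_lin {n : ℕ} {e : ℕ → ℝ} (he : ∑ k ∈ range n, e k * e k = 1) :
    ∫ x, |lin n e x| ∂gam ≤ 1 := by
  have hv : Var[lin n e; gam] = 1 := by
    rw [← covariance_self (memLp_lin n e).aestronglyMeasurable.aemeasurable, cov_lin, he]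
  have h2 : ∫ x, lin n e x ^ 2 ∂gam = 1 := by
    rw [variance_eq_sub (memLp_lin n e), integral_lin] at hv
    simpa using hv
  have h3 : ∫ x, |lin n e x| ∂gam ≤ ∫ x, (1 + lin n e x ^ 2) / 2 ∂gam := by
    refine integral_mono (integrable_lin n e).abs ?_ fun x => ?_
    · exact ((integrable_const 1).add (memLp_lin n e).integrable_sq).div_const 2
    · show |lin n e x| ≤ (1 + lin n e x ^ 2) / 2
      nlinarith [sq_nonneg (|lin n e x| - 1), sq_abs (lin n e x)]
  rw [integral_div, integral_add (integrable_const 1) (memLp_lin n e).integrable_sq, h2] at h3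
  simpa using h3

theorem core {n J : ℕ} (hJ : 1 ≤ J) (a e : Fin J → ℕ → ℝ) {Cd Co : ℝ}
    (h1 : ∀ i j, ∑ k ∈ range n, e i k * e j k = if i = j then 1 else 0)
    (h2 : ∀ i j, ∑ k ∈ range n, a i k * e j k = if i = j then Cd else Co)
    (hC : 0 ≤ Cd - Co) {f : (ℕ → ℝ) → ℝ} (hf : Integrable f gam)
    (hle : ∀ i x, lin n (a i) x ≤ f x) (t : ℝ) :
    (Cd - Co) * (t * (1 - ((gaussianReal 0 1).real (Set.Iio t)) ^ J) - 1) ≤ ∫ x, f x ∂gam := by
  classical
  have h1' : ∀ i, ∑ k ∈ range n, e i k * e i k = 1 := fun i => by rw [h1]; simp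
  set r : Fin J → ℕ → ℝ := fun i k => a i k - (Cd - Co) * e i k - Co * ∑ l, e l k with hr
  set G : (ℕ → ℝ) → Fin J → ℝ := fun x j => lin n (e j) x with hG
  have hrl : ∀ i x, lin n (a i) x = (Cd - Co) * G x i + Co * ∑ l, G x l + lin n (r i) x := by
    intro i x
    simp only [hr, hG, lin, Finset.mul_sum, Finset.sum_mul, sub_mul, Finset.sum_sub_distrib]
    rw [Finset.sum_comm (s := range n) (t := univ)]
    simp only [mul_assoc]
    ring
  -- independence
  have hind : IndepFun (fun x i => lin n (r i) x) G gam := by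
    refine (hasGaussianLaw_pair (n := n) r e).indepFun_of_covariance_eval fun i j => ?_
    show cov[lin n (r i), lin n (e j); gam] = 0
    rw [cov_lin]
    have e0 : ∀ k ∈ range n, r i k * e j k = a i k * e j k - (Cd - Co) * e i k * e j k -
        (Co * ∑ l, e l k) * e j k := by
      intro k _
      simp only [hr]
      ring
    rw [Finset.sum_congr rfl e0, Finset.sum_sub_distrib, Finset.sum_sub_distrib, h2]
    have e1 : ∑ k ∈ range n, (Cd - Co) * e i k * e j k = (Cd - Co) * (if i = j then 1 else 0) := by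
      rw [← h1 i j, Finset.mul_sum]
      exact Finset.sum_congr rfl fun k _ => by ring
    have e2 : ∑ k ∈ range n, (Co * ∑ l, e l k) * e j k = Co := by
      have : ∀ k ∈ range n, (Co * ∑ l, e l k) * e j k = Co * ∑ l, e l k * e j k := by
        intro k _
        rw [mul_assoc, Finset.sum_mul]
      rw [Finset.sum_congr rfl this, ← Finset.mul_sum, Finset.sum_comm]
      simp [h1]
    rw [e1, e2]
    split_ifs <;> ring
  have hGm : Measurable G := by
    refine measurable_pi_lambda _ fun j => ?_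
    simp only [hG]
    unfold lin
    exact Finset.measurable_sum _ fun k _ => (measurable_pi_apply k).const_mul _
  have hψm : ∀ i, AEStronglyMeasurable (fun x => psi t i (G x)) gam := fun i =>
    ((measurable_psi t i).comp hGm).aestronglyMeasurable
  have hψb : ∀ i, ∀ᵐ x ∂gam, ‖psi t i (G x)‖ ≤ 1 := fun i => Filter.Eventually.of_forall fun x => by
    rw [Real.norm_eq_abs, abs_of_nonneg (psi_nonneg _ _ _)]
    exact psi_le_one hJ t i _
  have hint : ∀ i (b : ℕ → ℝ), Integrable (fun x => psi t i (G x) * lin n b x) gam := fun i b =>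
    (integrable_lin n b).bdd_mul (hψm i) (hψb i)
  have hR : ∀ i, ∫ x, psi t i (G x) * lin n (r i) x ∂gam = 0 := by
    intro i
    have h3 : IndepFun (fun x => psi t i (G x)) (fun x => lin n (r i) x) gam :=
      (hind.symm.comp (φ := psi t i) (ψ := fun y : Fin J → ℝ => y i) (measurable_psi t i)
        (measurable_pi_apply i))
    rw [h3.integral_fun_mul_eq_mul_integral (hψm i) (integrable_lin n (r i)).aestronglyMeasurable]
    rw [integral_lin, mul_zero]
  -- main comparison
  have hGint : ∀ i, Integrable (fun x => G x i) gam := fun i => integrable_lin n (e i)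
  have hH1 : ∀ x, ∑ i, psi t i (G x) * lin n (a i) x ≤ f x := by
    intro x
    calc ∑ i, psi t i (G x) * lin n (a i) x ≤ ∑ i, psi t i (G x) * f x :=
          Finset.sum_le_sum fun i _ => mul_le_mul_of_nonneg_left (hle i x) (psi_nonneg _ _ _)
      _ = f x := by rw [← Finset.sum_mul, sum_psi hJ, one_mul]
  have hH2 : ∫ x, ∑ i, psi t i (G x) * lin n (a i) x ∂gam ≤ ∫ x, f x ∂gam :=
    integral_mono (integrable_finsetSum _ fun i _ => hint i (a i)) hf hH1
  have hH3 : ∀ x, ∑ i, psi t i (G x) * lin n (a i) x =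
      ((Cd - Co) * ∑ i, psi t i (G x) * G x i + Co * ∑ l, G x l) +
        ∑ i, psi t i (G x) * lin n (r i) x := by
    intro x
    have : ∀ i ∈ univ, psi t i (G x) * lin n (a i) x = (Cd - Co) * (psi t i (G x) * G x i) +
        psi t i (G x) * (Co * ∑ l, G x l) + psi t i (G x) * lin n (r i) x := by
      intro i _
      rw [hrl i x]; ring
    rw [Finset.sum_congr rfl this, Finset.sum_add_distrib, Finset.sum_add_distrib, ← Finset.mul_sum,
      ← Finset.sum_mul, sum_psi hJ, one_mul]
  have hS : Integrable (fun x => ∑ i, psi t i (G x) * G x i) gam :=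
    integrable_finsetSum _ fun i _ => hint i (e i)
  have hS2 : Integrable (fun x => ∑ l, G x l) gam := integrable_finsetSum _ fun i _ => hGint i
  have hH4 : ∫ x, ∑ i, psi t i (G x) * lin n (a i) x ∂gam =
      (Cd - Co) * ∫ x, ∑ i, psi t i (G x) * G x i ∂gam := by
    simp_rw [hH3]
    have k1 := integral_add (μ := gam) (f := fun x => (Cd - Co) * ∑ i, psi t i (G x) * G x i +
      Co * ∑ l, G x l) (g := fun x => ∑ i, psi t i (G x) * lin n (r i) x)
      ((hS.const_mul _).add (hS2.const_mul _)) (integrable_finsetSum _ fun i _ => hint i (r i))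
    have k2 := integral_add (μ := gam) (f := fun x => (Cd - Co) * ∑ i, psi t i (G x) * G x i)
      (g := fun x => Co * ∑ l, G x l) (hS.const_mul _) (hS2.const_mul _)
    rw [k1, k2, integral_const_mul, integral_const_mul,
      integral_finsetSum _ (fun i _ => hint i (r i)), Finset.sum_eq_zero fun i _ => hR i,
      integral_finsetSum _ (fun i _ => hGint i), Finset.sum_eq_zero fun i _ => integral_lin n (e i)]
    ring
  -- the probability
  have hprob : gam.real {x | cnt t (G x) = 0} = ((gaussianReal 0 1).real (Set.Iio t)) ^ J := by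
    have hiG : iIndepFun (fun j x => lin n (e j) x) gam := by
      have hg := (hasGaussianLaw_pair (n := n) e r).fst
      refine hg.iIndepFun_of_covariance_eq_zero fun i j hij => ?_
      show cov[lin n (e i), lin n (e j); gam] = 0
      rw [cov_lin, h1, if_neg hij]
    have h3 := hiG.measure_inter_preimage_eq_mul univ (sets := fun _ => Set.Iio t)
      (fun _ _ => measurableSet_Iio)
    have h4 : {x | cnt t (G x) = 0} = ⋂ i ∈ (univ : Finset (Fin J)), (fun x => lin n (e i) x) ⁻¹' Set.Iio t := by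
      ext x
      simp [cnt_eq_zero, hG]
    rw [Measure.real, h4, h3, ENNReal.toReal_prod]
    have h5 : ∀ i ∈ (univ : Finset (Fin J)), (gam ((fun x => lin n (e i) x) ⁻¹' Set.Iio t)).toReal =
        (gaussianReal 0 1).real (Set.Iio t) := by
      intro i _
      rw [Measure.real, ← law_lin (h1' i), Measure.map_apply ?_ measurableSet_Iio]
      unfold lin
      exact Finset.measurable_sum _ fun k _ => (measurable_pi_apply k).const_mul _
    rw [Finset.prod_congr rfl h5]
    simp
  have hset : MeasurableSet {x | cnt t (G x) = 0} :=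
    (measurableSet_eq_fun ((measurable_cnt t).comp hGm) measurable_const)
  have hH5 : t * (1 - ((gaussianReal 0 1).real (Set.Iio t)) ^ J) - 1 ≤
      ∫ x, ∑ i, psi t i (G x) * G x i ∂gam := by
    have hi1 : Integrable (fun x => if cnt t (G x) = 0 then (0 : ℝ) else 1) gam := by
      have : (fun x => if cnt t (G x) = 0 then (0 : ℝ) else 1) =
          ({x | cnt t (G x) = 0}ᶜ).indicator (fun _ => (1 : ℝ)) := by
        ext x
        by_cases h : cnt t (G x) = 0 <;> simp [h]
      rw [this]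
      exact (integrable_const 1).indicator hset.compl
    have hi2 : ∫ x, (if cnt t (G x) = 0 then (0 : ℝ) else 1) ∂gam =
        1 - ((gaussianReal 0 1).real (Set.Iio t)) ^ J := by
      have : (fun x => if cnt t (G x) = 0 then (0 : ℝ) else 1) =
          ({x | cnt t (G x) = 0}ᶜ).indicator (fun _ => (1 : ℝ)) := by
        ext x
        by_cases h : cnt t (G x) = 0 <;> simp [h]
      rw [this, integral_indicator hset.compl]
      simp only [integral_const, MeasurableSet.univ, measureReal_restrict_apply, Set.univ_inter,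
        smul_eq_mul, mul_one]
      rw [measureReal_compl hset, hprob]
      simp
    have hi3 : Integrable (fun x => ∑ j, |G x j|) gam :=
      integrable_finsetSum _ fun i _ => (hGint i).abs
    have hi4 : ∫ x, (1 / (J : ℝ)) * ∑ j, |G x j| ∂gam ≤ 1 := by
      rw [integral_const_mul, integral_finsetSum _ fun i _ => (hGint i).abs]
      have : ∑ i, ∫ x, |G x i| ∂gam ≤ ∑ i : Fin J, (1 : ℝ) :=
        Finset.sum_le_sum fun i _ => integral_abs_lin (h1' i)
      have hJ' : (0 : ℝ) < J := by positivity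
      simp only [Finset.sum_const, Finset.card_univ, Fintype.card_fin, nsmul_eq_mul, mul_one] at this
      rw [one_div, inv_mul_le_iff₀ hJ', mul_one]
      exact this
    have hi5 := integral_mono ((hi1.const_mul t).sub (hi3.const_mul (1 / (J : ℝ)))) hS
      (fun x => sum_psi_mul hJ t (G x))
    rw [integral_sub' (hi1.const_mul t) (hi3.const_mul (1 / (J : ℝ))), integral_const_mul, hi2] at hi5
    linarith
  calc (Cd - Co) * (t * (1 - ((gaussianReal 0 1).real (Set.Iio t)) ^ J) - 1)
      ≤ (Cd - Co) * ∫ x, ∑ i, psi t i (G x) * G x i ∂gam := mul_le_mul_of_nonneg_left hH5 hC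
    _ = ∫ x, ∑ i, psi t i (G x) * lin n (a i) x ∂gam := hH4.symm
    _ ≤ ∫ x, f x ∂gam := hH2

end Low

namespace Low

theorem double_sum (f : ℕ → ℝ) (n : ℕ) :
    ∑ i ∈ range n, ∑ j ∈ range n, f ((i : ℤ) - (j : ℤ)).natAbs =
      ∑ k ∈ range n, (if k = 0 then (n : ℝ) else 2 * (n - k)) * f k := by
  induction n with
  | zero => simp
  | succ n ih =>
    rw [Finset.sum_range_succ]
    simp_rw [Finset.sum_range_succ (fun j => f _) n]
    rw [Finset.sum_add_distrib, ih]
    have h1 : ∑ i ∈ range n, f ((i : ℤ) - (n : ℤ)).natAbs = ∑ k ∈ range n, f (k + 1) := by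
      rw [← Finset.sum_range_reflect]
      refine Finset.sum_congr rfl fun i hi => ?_
      rw [Finset.mem_range] at hi
      congr 1
      omega
    have h2 : ∑ j ∈ range n, f ((n : ℤ) - (j : ℤ)).natAbs = ∑ k ∈ range n, f (k + 1) := by
      rw [← Finset.sum_range_reflect]
      refine Finset.sum_congr rfl fun i hi => ?_
      rw [Finset.mem_range] at hi
      congr 1
      omega
    rw [h1, h2, Finset.sum_range_succ' (fun k => (if k = 0 then ((n + 1 : ℕ) : ℝ) else _) * f k) n]
    simp only [Nat.add_eq_zero_iff, one_ne_zero, and_false, if_false, if_true, sub_self,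
      Int.natAbs_zero]
    cases n with
    | zero => simp
    | succ m =>
      rw [Finset.sum_range_succ' _ m, Finset.sum_range_succ (fun k => f (k + 1)) m,
        Finset.sum_range_succ (fun k => 2 * (((m + 1 + 1 : ℕ) : ℝ) - ((k + 1 : ℕ) : ℝ)) * f (k + 1)) m]
      simp only [Nat.add_eq_zero_iff, one_ne_zero, and_false, if_false, if_true]
      have h3 : ∑ k ∈ range m, 2 * (((m + 1 + 1 : ℕ) : ℝ) - ((k + 1 : ℕ) : ℝ)) * f (k + 1) =
          ∑ k ∈ range m, 2 * (((m + 1 : ℕ) : ℝ) - ((k + 1 : ℕ) : ℝ)) * f (k + 1) +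
            2 * ∑ k ∈ range m, f (k + 1) := by
        rw [Finset.mul_sum, ← Finset.sum_add_distrib]
        refine Finset.sum_congr rfl fun k _ => ?_
        push_cast
        ring
      rw [h3]
      push_cast
      ring

/-- Coefficients of the Fejer mean. -/
def fej (n : ℕ) (θ : ℝ) (k : ℕ) : ℝ :=
  (if k = 0 then (1 : ℝ) else 2 * (1 - (k : ℝ) / (n : ℝ))) * Real.cos (k * θ)

theorem fej_le {n : ℕ} (hn : 1 ≤ n) (θ : ℝ) (x : ℕ → ℝ) : lin n (fej n θ) x ≤ lam n x := by
  have hn' : (0 : ℝ) < n := by positivity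
  have h1 := Q_le (n := n) x (fun i => Real.cos (i * θ))
  have h2 := Q_le (n := n) x (fun i => Real.sin (i * θ))
  have h3 : nsq n (fun i => Real.cos (i * θ)) + nsq n (fun i => Real.sin (i * θ)) = n := by
    unfold nsq
    rw [← Finset.sum_add_distrib]
    simp
  have h4 : Q n x (fun i => Real.cos (i * θ)) + Q n x (fun i => Real.sin (i * θ)) =
      n * lin n (fej n θ) x := by
    have h5 := double_sum (fun k => x k * Real.cos (k * θ)) n
    unfold Q B
    rw [← Finset.sum_add_distrib]
    simp_rw [← Finset.sum_add_distrib]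
    have h6 : ∀ i ∈ range n, ∀ j ∈ range n,
        x ((i : ℤ) - (j : ℤ)).natAbs * (Real.cos (i * θ) * Real.cos (j * θ)) +
          x ((i : ℤ) - (j : ℤ)).natAbs * (Real.sin (i * θ) * Real.sin (j * θ)) =
        x ((i : ℤ) - (j : ℤ)).natAbs * Real.cos ((((i : ℤ) - (j : ℤ)).natAbs : ℝ) * θ) := by
      intro i _ j _
      have : Real.cos ((((i : ℤ) - (j : ℤ)).natAbs : ℝ) * θ) = Real.cos (i * θ - j * θ) := by
        rw [Nat.cast_natAbs]
        push_cast
        rcases le_total (j : ℝ) i with h | h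
        · rw [abs_of_nonneg (by linarith)]
          congr 1; ring
        · rw [abs_of_nonpos (by linarith), ← Real.cos_neg]
          congr 1; ring
      rw [this, Real.cos_sub]
      ring
    rw [Finset.sum_congr rfl fun i hi => Finset.sum_congr rfl fun j hj => h6 i hi j hj, h5]
    unfold lin fej
    rw [Finset.mul_sum]
    refine Finset.sum_congr rfl fun k _ => ?_
    split_ifs with hk
    · ring
    · field_simp
  have h7 : n * lin n (fej n θ) x ≤ n * lam n x := by
    calc n * lin n (fej n θ) x = _ := h4.symm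
      _ ≤ lam n x * nsq n (fun i => Real.cos (i * θ)) + lam n x * nsq n (fun i => Real.sin (i * θ)) :=
        add_le_add h1 h2
      _ = n * lam n x := by rw [← mul_add, h3, mul_comm]
  exact le_of_mul_le_mul_left h7 hn'

theorem sum_cos (θ : ℝ) (m : ℕ) :
    2 * Real.sin (θ / 2) * ∑ k ∈ range m, Real.cos ((k + 1 : ℕ) * θ) =
      Real.sin (m * θ + θ / 2) - Real.sin (θ / 2) := by
  induction m with
  | zero => simp
  | succ m ih =>
    rw [Finset.sum_range_succ, mul_add, ih]
    push_cast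
    have e1 : Real.sin ((m + 1) * θ + θ / 2) = Real.sin ((m + 1) * θ) * Real.cos (θ / 2) +
      Real.cos ((m + 1) * θ) * Real.sin (θ / 2) := Real.sin_add _ _
    have e2 : Real.sin (m * θ + θ / 2) = Real.sin ((m + 1) * θ) * Real.cos (θ / 2) -
      Real.cos ((m + 1) * θ) * Real.sin (θ / 2) := by
      rw [← Real.sin_sub]; congr 1; ring
    rw [e1, e2]
    ring

theorem sum_k_cos (θ : ℝ) (m : ℕ) :
    4 * Real.sin (θ / 2) ^ 2 * ∑ k ∈ range m, ((k + 1 : ℕ) : ℝ) * Real.cos ((k + 1 : ℕ) * θ) =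
      2 * Real.sin (θ / 2) * m * Real.sin (m * θ + θ / 2) - (1 - Real.cos (m * θ)) := by
  induction m with
  | zero => simp
  | succ m ih =>
    rw [Finset.sum_range_succ, mul_add, ih]
    push_cast
    have e1 : Real.sin ((m + 1) * θ + θ / 2) = Real.sin ((m + 1) * θ) * Real.cos (θ / 2) +
      Real.cos ((m + 1) * θ) * Real.sin (θ / 2) := Real.sin_add _ _
    have e2 : Real.sin (m * θ + θ / 2) = Real.sin ((m + 1) * θ) * Real.cos (θ / 2) -
      Real.cos ((m + 1) * θ) * Real.sin (θ / 2) := by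
      rw [← Real.sin_sub]; congr 1; ring
    have e3 : Real.cos (m * θ) = Real.cos ((m + 1) * θ) * Real.cos θ +
        Real.sin ((m + 1) * θ) * Real.sin θ := by
      rw [← Real.cos_sub]; congr 1; ring
    have e4 : Real.cos θ = 1 - 2 * Real.sin (θ / 2) ^ 2 := by
      have := Real.cos_two_mul (θ / 2)
      rw [mul_div_cancel₀ _ (two_ne_zero)] at this
      rw [this]
      have h := Real.sin_sq_add_cos_sq (θ / 2)
      linarith
    have e5 : Real.sin θ = 2 * Real.sin (θ / 2) * Real.cos (θ / 2) := by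
      have := Real.sin_two_mul (θ / 2)
      rw [mul_div_cancel₀ _ (two_ne_zero)] at this
      exact this
    rw [e1, e2, e3, e4, e5]
    ring

theorem T_ne {M : ℕ} (hM : 1 ≤ M) {q : ℤ} (hq : ¬ (M : ℤ) ∣ q) {m : ℕ} (hm : M ∣ m) :
    ∑ k ∈ range m, Real.cos ((k + 1 : ℕ) * (2 * Real.pi * q / M)) = 0 ∧
    ∑ k ∈ range m, ((k + 1 : ℕ) : ℝ) * Real.cos ((k + 1 : ℕ) * (2 * Real.pi * q / M)) = m / 2 := by
  obtain ⟨N, rfl⟩ := hm
  have hM' : (M : ℝ) ≠ 0 := by positivity
  set θ : ℝ := 2 * Real.pi * q / M with hθ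
  have hs : Real.sin (θ / 2) ≠ 0 := by
    intro h
    rw [Real.sin_eq_zero_iff] at h
    obtain ⟨z, hz⟩ := h
    apply hq
    refine ⟨z, ?_⟩
    have : (z : ℝ) * M = q := by
      have hpi := Real.pi_ne_zero
      have h2 : (z : ℝ) * Real.pi * M = Real.pi * q := by
        rw [hz, hθ]
        field_simp
      have h3 : Real.pi * ((z : ℝ) * M - q) = 0 := by linarith
      rcases mul_eq_zero.1 h3 with h4 | h4
      · exact absurd h4 hpi
      · linarith
    have h5 : ((z * M : ℤ) : ℝ) = (q : ℝ) := by push_cast; exact this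
    have h6 : z * M = q := by exact_mod_cast h5
    rw [← h6]; ring
  have hper : ((M * N : ℕ) : ℝ) * θ = (q * N : ℤ) * (2 * Real.pi) := by
    rw [hθ]
    push_cast
    field_simp
  have hsin : Real.sin (((M * N : ℕ) : ℝ) * θ + θ / 2) = Real.sin (θ / 2) := by
    rw [hper, add_comm]
    exact Real.sin_add_int_mul_two_pi _ _
  have hcos : Real.cos (((M * N : ℕ) : ℝ) * θ) = 1 := by
    rw [hper]
    exact Real.cos_int_mul_two_pi _
  constructor
  · have h1 := sum_cos θ (M * N)
    rw [hsin, sub_self] at h1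
    rcases mul_eq_zero.1 h1 with h2 | h2
    · exact absurd h2 (mul_ne_zero two_ne_zero hs)
    · exact h2
  · have h1 := sum_k_cos θ (M * N)
    rw [hsin, hcos] at h1
    have h2 : 4 * Real.sin (θ / 2) ^ 2 * (∑ k ∈ range (M * N), ((k + 1 : ℕ) : ℝ) *
        Real.cos ((k + 1 : ℕ) * θ) - ((M * N : ℕ) : ℝ) / 2) = 0 := by
      rw [mul_sub, h1]; ring
    rcases mul_eq_zero.1 h2 with h3 | h3
    · exact absurd h3 (mul_ne_zero four_ne_zero (pow_ne_zero 2 hs))
    · linarith

end Low

namespace Low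

/-- frequencies -/
def th (M i : ℕ) : ℝ := 2 * Real.pi * (i + 1) / M

def cc (M K : ℕ) (q : ℤ) : ℝ := ∑ k ∈ range K, Real.cos ((k + 1 : ℕ) * (2 * Real.pi * q / M))
def dd (M K : ℕ) (q : ℤ) : ℝ :=
  ∑ k ∈ range K, ((k + 1 : ℕ) : ℝ) * Real.cos ((k + 1 : ℕ) * (2 * Real.pi * q / M))

theorem cc_zero (M K : ℕ) : cc M K 0 = K := by simp [cc]
theorem dd_zero (M K : ℕ) : dd M K 0 = K * (K + 1) / 2 := by
  unfold dd
  simp only [Int.cast_zero, mul_zero, zero_div, Real.cos_zero, mul_one]
  induction K with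
  | zero => simp
  | succ K ih => rw [Finset.sum_range_succ, ih]; push_cast; ring

theorem cos_mul (M i j k : ℕ) :
    Real.cos ((k + 1 : ℕ) * th M i) * Real.cos ((k + 1 : ℕ) * th M j) =
      (Real.cos ((k + 1 : ℕ) * (2 * Real.pi * ((i : ℤ) - j : ℤ) / M)) +
        Real.cos ((k + 1 : ℕ) * (2 * Real.pi * ((i : ℤ) + j + 2 : ℤ) / M))) / 2 := by
  have e1 : ((k + 1 : ℕ) : ℝ) * (2 * Real.pi * ((i : ℤ) - j : ℤ) / M) =
      (k + 1 : ℕ) * th M i - (k + 1 : ℕ) * th M j := by unfold th; push_cast; ring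
  have e2 : ((k + 1 : ℕ) : ℝ) * (2 * Real.pi * ((i : ℤ) + j + 2 : ℤ) / M) =
      (k + 1 : ℕ) * th M i + (k + 1 : ℕ) * th M j := by unfold th; push_cast; ring
  rw [e1, e2, Real.cos_sub, Real.cos_add]
  ring

theorem not_dvd {M i j : ℕ} (hi : 2 * (i + 1) < M) (hj : 2 * (j + 1) < M) :
    ¬ (M : ℤ) ∣ ((i : ℤ) + j + 2) := by
  intro h
  have := Int.le_of_dvd (by omega) h
  omega

theorem not_dvd' {M i j : ℕ} (hi : 2 * (i + 1) < M) (hj : 2 * (j + 1) < M) (hij : i ≠ j) :
    ¬ (M : ℤ) ∣ ((i : ℤ) - j) := by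
  rintro ⟨c, hc⟩
  have hM : 0 < (M : ℤ) := by omega
  rcases lt_trichotomy c 0 with h | h | h
  · have : (M : ℤ) * c ≤ M * (-1) := mul_le_mul_of_nonneg_left (by omega) hM.le
    omega
  · subst h; simp at hc; omega
  · have : (M : ℤ) * 1 ≤ M * c := mul_le_mul_of_nonneg_left (by omega) hM.le
    omega

/-- orthonormal system -/
def ee (M K i k : ℕ) : ℝ := if k = 0 then 0 else Real.sqrt (2 / K) * Real.cos (k * th M i)

theorem ee_ee {M K i j : ℕ} (hK : M ∣ K) (hK0 : 0 < K) (hi : 2 * (i + 1) < M) (hj : 2 * (j + 1) < M) :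
    ∑ k ∈ range (K + 1), ee M K i k * ee M K j k = if i = j then 1 else 0 := by
  have hK' : (0 : ℝ) < K := by exact_mod_cast hK0
  have hM : 1 ≤ M := by omega
  rw [Finset.sum_range_succ']
  have h0 : ∀ k ∈ range K, ee M K i (k + 1) * ee M K j (k + 1) = (1 / K) *
      (Real.cos ((k + 1 : ℕ) * (2 * Real.pi * ((i : ℤ) - j : ℤ) / M)) +
        Real.cos ((k + 1 : ℕ) * (2 * Real.pi * ((i : ℤ) + j + 2 : ℤ) / M))) := by
    intro k _
    have := cos_mul M i j k
    have h2 : Real.sqrt (2 / K) * Real.sqrt (2 / K) = 2 / K := Real.mul_self_sqrt (by positivity)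
    simp only [ee, Nat.add_eq_zero_iff, one_ne_zero, and_false, if_false]
    calc _ = (Real.sqrt (2 / K) * Real.sqrt (2 / K)) * (Real.cos ((k + 1 : ℕ) * th M i) *
          Real.cos ((k + 1 : ℕ) * th M j)) := by ring
      _ = _ := by rw [h2, this]; ring
  rw [Finset.sum_congr rfl h0, ← Finset.mul_sum, Finset.sum_add_distrib]
  have h3 := (T_ne hM (not_dvd hi hj) hK).1
  rw [h3]
  simp only [ee, if_true, zero_mul, add_zero]
  split_ifs with hij
  · subst hij
    have := cc_zero M K
    unfold cc at this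
    simp only [sub_self]
    rw [this]
    field_simp
  · rw [(T_ne hM (not_dvd' hi hj hij) hK).1, mul_zero]

theorem fej_ee {M K i j : ℕ} (hK : M ∣ K) (hK0 : 0 < K) (hi : 2 * (i + 1) < M)
    (hj : 2 * (j + 1) < M) :
    ∑ k ∈ range (K + 1), fej (K + 1) (th M i) k * ee M K j k =
      if i = j then Real.sqrt (2 / K) * (K - K * (K + 2) / (2 * (K + 1))) else
        - Real.sqrt (2 / K) * (K / (K + 1)) := by
  have hK' : (0 : ℝ) < K := by exact_mod_cast hK0
  have hM : 1 ≤ M := by omega
  rw [Finset.sum_range_succ']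
  have h0 : ∀ k ∈ range K, fej (K + 1) (th M i) (k + 1) * ee M K j (k + 1) = Real.sqrt (2 / K) *
      ((Real.cos ((k + 1 : ℕ) * (2 * Real.pi * ((i : ℤ) - j : ℤ) / M)) +
        Real.cos ((k + 1 : ℕ) * (2 * Real.pi * ((i : ℤ) + j + 2 : ℤ) / M))) -
        (1 / (K + 1)) * (((k + 1 : ℕ) : ℝ) * Real.cos ((k + 1 : ℕ) * (2 * Real.pi * ((i : ℤ) - j : ℤ) / M)) +
        ((k + 1 : ℕ) : ℝ) * Real.cos ((k + 1 : ℕ) * (2 * Real.pi * ((i : ℤ) + j + 2 : ℤ) / M)))) := by
    intro k _
    have := cos_mul M i j k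
    simp only [ee, fej, Nat.add_eq_zero_iff, one_ne_zero, and_false, if_false]
    calc _ = 2 * (1 - ((k + 1 : ℕ) : ℝ) / ((K + 1 : ℕ) : ℝ)) * Real.sqrt (2 / K) *
          (Real.cos ((k + 1 : ℕ) * th M i) * Real.cos ((k + 1 : ℕ) * th M j)) := by ring
      _ = _ := by rw [this]; push_cast; ring
  rw [Finset.sum_congr rfl h0, ← Finset.mul_sum, Finset.sum_sub_distrib, ← Finset.mul_sum,
    Finset.sum_add_distrib, Finset.sum_add_distrib]
  rw [(T_ne hM (not_dvd hi hj) hK).1, (T_ne hM (not_dvd hi hj) hK).2]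
  simp only [ee, if_true, mul_zero, add_zero]
  split_ifs with hij
  · subst hij
    have h1 := cc_zero M K
    have h2 := dd_zero M K
    unfold cc at h1
    unfold dd at h2
    simp only [sub_self]
    rw [h1, h2]
    field_simp
    ring
  · rw [(T_ne hM (not_dvd' hi hj hij) hK).1, (T_ne hM (not_dvd' hi hj hij) hK).2]
    field_simp
    ring

theorem tail (t : ℝ) (ht : 0 ≤ t) :
    (gaussianReal 0 1).real (Set.Iio t) ≤ 1 - (Real.sqrt (2 * Real.pi))⁻¹ * Real.exp (-(t + 1) ^ 2 / 2) := by
  set p : ℝ := (Real.sqrt (2 * Real.pi))⁻¹ * Real.exp (-(t + 1) ^ 2 / 2) with hp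
  have hp0 : 0 ≤ p := by positivity
  have h1 : ENNReal.ofReal p ≤ gaussianReal 0 1 (Set.Icc t (t + 1)) := by
    rw [gaussianReal_apply 0 (by norm_num)]
    have h2 : ∫⁻ _ in Set.Icc t (t + 1), ENNReal.ofReal p = ENNReal.ofReal p := by
      simp
    rw [← h2]
    refine setLIntegral_mono' measurableSet_Icc fun x hx => ?_
    unfold gaussianPDF
    refine ENNReal.ofReal_le_ofReal ?_
    unfold gaussianPDFReal
    simp only [NNReal.coe_one, mul_one, sub_zero]
    rw [hp]
    refine mul_le_mul_of_nonneg_left ?_ (by positivity)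
    refine Real.exp_le_exp.2 ?_
    have := hx.1
    have := hx.2
    nlinarith
  have h3 : p ≤ (gaussianReal 0 1).real (Set.Iio t)ᶜ := by
    have h4 : gaussianReal 0 1 (Set.Icc t (t + 1)) ≤ gaussianReal 0 1 (Set.Iio t)ᶜ :=
      measure_mono (fun x hx => by simp only [Set.mem_compl_iff, Set.mem_Iio, not_lt]; exact hx.1)
    have h5 := h1.trans h4
    rw [Measure.real]
    exact (ENNReal.ofReal_le_iff_le_toReal (measure_ne_top _ _)).1 h5
  rw [measureReal_compl measurableSet_Iio] at h3
  simp only [probReal_univ] at h3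
  linarith

theorem L_sq {M : ℕ} {t : ℝ} (ht : 4 ≤ t) (hM : t ^ 2 ≤ Real.log ((M - 1) / 2 : ℕ)) :
    (M : ℝ) * t / 8 ≤ L (M * M + 1) := by
  set J : ℕ := (M - 1) / 2 with hJ
  have hlog : 16 ≤ Real.log J := by nlinarith
  have hJ0 : 0 < J := by
    rcases Nat.eq_zero_or_pos J with h | h
    · rw [h] at hlog; simp at hlog; linarith
    · exact h
  have hJr : (0 : ℝ) < J := by exact_mod_cast hJ0
  have hM3 : 3 ≤ M := by omega
  have hK0 : 0 < M * M := by positivity
  have hi : ∀ i : Fin J, 2 * ((i : ℕ) + 1) < M := fun i => by have := i.2; omega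
  set s : ℝ := Real.sqrt (2 / (M * M : ℕ)) with hs
  set Kr : ℝ := ((M * M : ℕ) : ℝ) with hKr
  have hKr0 : 0 < Kr := by rw [hKr]; exact_mod_cast hK0
  have hMr : (0 : ℝ) < M := by positivity
  have hcore := core (n := M * M + 1) (J := J) hJ0 (fun i => fej (M * M + 1) (th M i))
    (fun i => ee M (M * M) i) (Cd := s * (Kr - Kr * (Kr + 2) / (2 * (Kr + 1))))
    (Co := - s * (Kr / (Kr + 1)))
    (fun i j => by
      rw [ee_ee (dvd_mul_right M M) hK0 (hi i) (hi j)]
      simp [Fin.ext_iff])
    (fun i j => by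
      rw [fej_ee (dvd_mul_right M M) hK0 (hi i) (hi j)]
      simp [Fin.ext_iff, hs, hKr])
    (f := lam (M * M + 1))
  have hs0 : 0 ≤ s := Real.sqrt_nonneg _
  have hCd : s * (Kr - Kr * (Kr + 2) / (2 * (Kr + 1))) - -s * (Kr / (Kr + 1)) =
      s * Kr / 2 + s * Kr / (2 * (Kr + 1)) := by
    field_simp
    ring
  have hsK : (M : ℝ) ≤ s * Kr := by
    have h1 : (M : ℝ) ^ 2 ≤ (s * Kr) ^ 2 := by
      rw [mul_pow, hs, Real.sq_sqrt (by positivity)]
      have : Kr = M ^ 2 := by rw [hKr]; push_cast; ring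
      rw [div_mul_eq_mul_div, le_div_iff₀ hKr0, ← this]
      nlinarith
    exact (pow_le_pow_iff_left₀ hMr.le (by positivity) two_ne_zero).1 h1
  have hC : (M : ℝ) / 2 ≤ s * (Kr - Kr * (Kr + 2) / (2 * (Kr + 1))) - -s * (Kr / (Kr + 1)) := by
    rw [hCd]
    have : 0 ≤ s * Kr / (2 * (Kr + 1)) := by positivity
    linarith
  have hC0 : 0 ≤ s * (Kr - Kr * (Kr + 2) / (2 * (Kr + 1))) - -s * (Kr / (Kr + 1)) := by
    have : (0 : ℝ) ≤ M / 2 := by positivity
    linarith
  have hfin := hcore hC0 (conc (lip_lam (by omega))).1 (fun i x => fej_le (by omega) _ x) t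
  -- tail
  set p : ℝ := (Real.sqrt (2 * Real.pi))⁻¹ * Real.exp (-(t + 1) ^ 2 / 2) with hp
  have hpJ : 1 ≤ p * J := by
    have h1 : Real.exp (t ^ 2) ≤ J := by
      rw [← Real.exp_log hJr]
      exact Real.exp_le_exp.2 hM
    have h2 : Real.sqrt (2 * Real.pi) ≤ 3 := by
      rw [Real.sqrt_le_left (by norm_num)]
      have := Real.pi_lt_d2
      linarith
    have h3 : (3 : ℝ) ≤ Real.exp (-(t + 1) ^ 2 / 2) * Real.exp (t ^ 2) := by
      rw [← Real.exp_add]
      have := Real.add_one_le_exp (-(t + 1) ^ 2 / 2 + t ^ 2)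
      nlinarith
    have h4 : 0 < Real.sqrt (2 * Real.pi) := by positivity
    rw [hp, mul_assoc, inv_mul_eq_div, le_div_iff₀ h4, one_mul]
    calc Real.sqrt (2 * Real.pi) ≤ 3 := h2
      _ ≤ Real.exp (-(t + 1) ^ 2 / 2) * Real.exp (t ^ 2) := h3
      _ ≤ Real.exp (-(t + 1) ^ 2 / 2) * J := mul_le_mul_of_nonneg_left h1 (Real.exp_pos _).le
  have hq : ((gaussianReal 0 1).real (Set.Iio t)) ^ J ≤ 1 / 2 := by
    have h1 := tail t (by linarith)
    rw [← hp] at h1
    have h2 : (gaussianReal 0 1).real (Set.Iio t) ≤ Real.exp (-p) :=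
      h1.trans (by have := Real.add_one_le_exp (-p); linarith)
    calc ((gaussianReal 0 1).real (Set.Iio t)) ^ J ≤ (Real.exp (-p)) ^ J :=
          pow_le_pow_left₀ measureReal_nonneg h2 J
      _ = Real.exp (-(p * J)) := by rw [← Real.exp_nat_mul]; congr 1; ring
      _ ≤ Real.exp (-1) := Real.exp_le_exp.2 (by linarith)
      _ ≤ 1 / 2 := by
          rw [Real.exp_neg, one_div]
          refine inv_anti₀ (by norm_num) ?_
          have := Real.add_one_le_exp (1 : ℝ)
          linarith
  have h5 : t / 4 ≤ t * (1 - ((gaussianReal 0 1).real (Set.Iio t)) ^ J) - 1 := by nlinarith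
  calc (M : ℝ) * t / 8 = (M / 2) * (t / 4) := by ring
    _ ≤ (s * (Kr - Kr * (Kr + 2) / (2 * (Kr + 1))) - -s * (Kr / (Kr + 1))) *
        (t * (1 - ((gaussianReal 0 1).real (Set.Iio t)) ^ J) - 1) :=
        mul_le_mul hC h5 (by positivity) hC0
    _ ≤ L (M * M + 1) := hfin

end Low

theorem L_lower : ∃ c : ℝ, 0 < c ∧ ∀ᶠ n : ℕ in atTop, c * Real.sqrt (n * Real.log n) ≤ L n := by
  refine ⟨1 / 32, by norm_num, ?_⟩
  obtain ⟨B', hB⟩ := exists_nat_ge (Real.exp 16)
  filter_upwards [Filter.eventually_ge_atTop ((2 * (B' + 8) + 1) ^ 2 + 1)] with n hn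
  set M : ℕ := Nat.sqrt (n - 1) with hM
  set J : ℕ := (M - 1) / 2 with hJ
  have h1 : 2 * (B' + 8) + 1 ≤ M := by
    rw [hM, Nat.le_sqrt']
    omega
  have hJB : B' + 8 ≤ J := by omega
  have h2 : M * M ≤ n - 1 := Nat.sqrt_le _
  have h3 : n - 1 < (M + 1) * (M + 1) := Nat.lt_succ_sqrt _
  have hJr : Real.exp 16 ≤ J := hB.trans (by exact_mod_cast (by omega : B' ≤ J))
  have hJ0 : (0 : ℝ) < J := (Real.exp_pos _).trans_le hJr
  have hlog : 16 ≤ Real.log J := by
    rw [Real.le_log_iff_exp_le hJ0]; exact hJr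
  set t : ℝ := Real.sqrt (Real.log J) with ht
  have ht2 : t ^ 2 = Real.log J := Real.sq_sqrt (by linarith)
  have ht4 : 4 ≤ t := by
    rw [ht]
    exact Real.le_sqrt_of_sq_le (by linarith)
  have h4 := Low.L_sq (M := M) ht4 (by rw [ht2])
  have h5 : L (M * M + 1) ≤ L n := by
    unfold L
    exact integral_mono (conc (lip_lam (by omega))).1 (conc (lip_lam (by omega))).1
      (fun x => lam_mono (by omega) (by omega) x)
  refine le_trans ?_ (h4.trans h5)
  have hMr : (0 : ℝ) < M := by exact_mod_cast (by omega : 0 < M)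
  have hn0 : (0 : ℝ) < n := by exact_mod_cast (by omega : 0 < n)
  have h6 : (n : ℝ) ≤ 4 * M ^ 2 := by
    have : n ≤ 4 * M ^ 2 := by nlinarith [(by omega : n ≤ (M + 1) * (M + 1)), (by omega : 1 ≤ M)]
    exact_mod_cast this
  have h7 : Real.log n ≤ 4 * t ^ 2 := by
    have h8 : (n : ℝ) ≤ (J : ℝ) ^ 4 := by
      have h9 : M ≤ 4 * J := by omega
      have h10 : (M : ℝ) ≤ 4 * J := by exact_mod_cast h9
      have h11 : (8 : ℝ) ≤ J := by exact_mod_cast (by omega : 8 ≤ J)
      calc (n : ℝ) ≤ 4 * M ^ 2 := h6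
        _ ≤ 4 * (4 * J) ^ 2 := by gcongr
        _ = 8 ^ 2 * J ^ 2 := by ring
        _ ≤ J ^ 2 * J ^ 2 := by gcongr
        _ = (J : ℝ) ^ 4 := by ring
    calc Real.log n ≤ Real.log ((J : ℝ) ^ 4) := Real.log_le_log hn0 h8
      _ = 4 * t ^ 2 := by rw [Real.log_pow, ht2]; norm_num
  have h8 : Real.sqrt (n * Real.log n) ≤ 4 * M * t := by
    rw [Real.sqrt_le_left (by positivity)]
    calc (n : ℝ) * Real.log n ≤ (4 * M ^ 2) * (4 * t ^ 2) := by
          have : (0 : ℝ) ≤ 4 * M ^ 2 := by positivity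
          have h10 : 0 ≤ Real.log n := Real.log_nonneg (by exact_mod_cast (by omega : 1 ≤ n))
          exact mul_le_mul h6 h7 h10 this
      _ = (4 * M * t) ^ 2 := by ring
  calc 1 / 32 * Real.sqrt (n * Real.log n) ≤ 1 / 32 * (4 * M * t) := by gcongr
    _ = M * t / 8 := by ring

end

end Pool.Agent.Helper12.Toep
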