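import Pool.Agent.Helper12.Toep.Basic

/-!
# Near-degeneracy of the top eigenvalue
-/

set_option autoImplicit false

open MeasureTheory ProbabilityTheory Finset

namespace Pool.Agent.Helper12.Toep

noncomputable section

/-- Shift to the right by `k`. -/
def sh (k : ℕ) (v : ℕ → ℝ) : ℕ → ℝ := fun i => if k ≤ i then v (i - k) else 0

lemma sh_zero_lt {k : ℕ} {v : ℕ → ℝ} {i : ℕ} (h : i < k) : sh k v i = 0 := by
  unfold sh
  rw [if_neg (by omega)]

lemma sh_add (k : ℕ) (v : ℕ → ℝ) (i : ℕ) : sh k v (k + i) = v i := by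
  unfold sh
  rw [if_pos (by omega)]
  congr 1
  omega

lemma sh_supp {n k : ℕ} {v : ℕ → ℝ} (hv : ∀ i, n ≤ i → v i = 0) (i : ℕ) (hi : k + n ≤ i) :
    sh k v i = 0 := by
  unfold sh
  rw [if_pos (by omega)]
  exact hv _ (by omega)

lemma sum_sh (n k : ℕ) (f : ℕ → ℝ) (hf : ∀ i, i < k → f i = 0) :
    ∑ i ∈ range (k + n), f i = ∑ i ∈ range n, f (k + i) := by
  rw [Finset.sum_range_add]
  have : ∑ i ∈ range k, f i = 0 := Finset.sum_eq_zero fun i hi => hf i (Finset.mem_range.mp hi)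
  rw [this, zero_add]

lemma Q_sh (n k : ℕ) (x v : ℕ → ℝ) : Q (k + n) x (sh k v) = Q n x v := by
  unfold Q B
  rw [sum_sh]
  · refine Finset.sum_congr rfl fun i _ => ?_
    rw [sum_sh]
    · refine Finset.sum_congr rfl fun j _ => ?_
      rw [sh_add, sh_add]
      congr 2
      omega
    · intro j hj
      rw [sh_zero_lt hj]
      ring
  · intro i hi
    refine Finset.sum_eq_zero fun j _ => ?_
    rw [sh_zero_lt hi]
    ring

lemma nsq_sh (n k : ℕ) (v : ℕ → ℝ) : nsq (k + n) (sh k v) = nsq n v := by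
  unfold nsq
  rw [sum_sh]
  · exact Finset.sum_congr rfl fun i _ => by rw [sh_add]
  · intro i hi
    rw [sh_zero_lt hi]
    ring

lemma ip_sh {n k : ℕ} {v : ℕ → ℝ} : ip (k + n) v (sh k v) = corr n v k := by
  unfold ip corr
  rw [sum_sh]
  · refine Finset.sum_congr rfl fun i _ => ?_
    rw [sh_add, add_comm k i]
    ring
  · intro i hi
    rw [sh_zero_lt hi]
    ring

lemma Q_sh_ext {n m k : ℕ} (hkm : k ≤ m) (x : ℕ → ℝ) {v : ℕ → ℝ} (hv : ∀ i, n ≤ i → v i = 0) :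
    Q (n + m) x (sh k v) = Q n x v := by
  rw [Q_ext (show k + n ≤ n + m by omega) x (sh k v) (sh_supp hv), Q_sh]

lemma nsq_sh_ext {n m k : ℕ} (hkm : k ≤ m) {v : ℕ → ℝ} (hv : ∀ i, n ≤ i → v i = 0) :
    nsq (n + m) (sh k v) = nsq n v := by
  rw [nsq_ext (show k + n ≤ n + m by omega) (sh k v) (sh_supp hv), nsq_sh]

lemma ip_sh_ext {n m k : ℕ} (hkm : k ≤ m) {v : ℕ → ℝ} (hv : ∀ i, n ≤ i → v i = 0) :
    ip (n + m) v (sh k v) = corr n v k := by
  rw [← ip_sh]
  unfold ip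
  refine sum_range_ext (show k + n ≤ n + m by omega) _ fun i hi => ?_
  rw [hv i (by omega), zero_mul]

/-- If some autocorrelation `r_k` (`1 ≤ k ≤ m`) of the top eigenvector of `T_n` is not close to
`± 1`, then the Rayleigh quotients of `T_{n+m}` on the span of `v` and its shift are all large. -/
theorem near_aux {n m : ℕ} (hn : 1 ≤ n) (x : ℕ → ℝ) {ε c : ℝ} (hc0 : 0 < c)
    (hδ : 3 * (lam (n + m) x - lam n x) ≤ ε * c) (v : ℕ → ℝ) (hv : ∀ i, n ≤ i → v i = 0)
    (hv1 : nsq n v = 1) (hv2 : Q n x v = lam n x) (k : ℕ) (hkm : k ≤ m)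
    (hr : |corr n v k| < 1 - c) :
    (∀ α β : ℝ, nsq (n + m) (α • v + β • sh k v) = 0 → α = 0 ∧ β = 0) ∧
    ∀ α β : ℝ, (lam (n + m) x - ε) * nsq (n + m) (α • v + β • sh k v) ≤
      Q (n + m) x (α • v + β • sh k v) := by
  obtain ⟨r, hrdef⟩ : ∃ r, r = corr n v k := ⟨_, rfl⟩
  obtain ⟨q, hqdef⟩ : ∃ q, q = B (n + m) x v (sh k v) := ⟨_, rfl⟩
  obtain ⟨l, hl⟩ : ∃ l, l = lam n x := ⟨_, rfl⟩
  obtain ⟨M, hM⟩ : ∃ M, M = lam (n + m) x := ⟨_, rfl⟩
  have e1 : nsq (n + m) v = 1 := by rw [nsq_ext (Nat.le_add_right n m) v hv, hv1]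
  have e2 : nsq (n + m) (sh k v) = 1 := by rw [nsq_sh_ext hkm hv, hv1]
  have e3 : ip (n + m) v (sh k v) = r := by rw [ip_sh_ext hkm hv, hrdef]
  have e4 : Q (n + m) x v = l := by rw [Q_ext (Nat.le_add_right n m) x v hv, hv2, hl]
  have e5 : Q (n + m) x (sh k v) = l := by rw [Q_sh_ext hkm x hv, hv2, hl]
  have hns : ∀ α β : ℝ, nsq (n + m) (α • v + β • sh k v) = α ^ 2 + 2 * α * β * r + β ^ 2 := by
    intro α β
    rw [nsq_comb, e1, e2, e3]
    ring
  have hQ : ∀ α β : ℝ, Q (n + m) x (α • v + β • sh k v) = α ^ 2 * l + 2 * α * β * q + β ^ 2 * l := by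
    intro α β
    rw [Q_comb, e4, e5, ← hqdef]
  have hmono : l ≤ M := by rw [hl, hM]; exact lam_mono hn (Nat.le_add_right n m) x
  rw [← hrdef, abs_lt] at hr
  rw [← hl, ← hM] at hδ
  rw [← hM]
  have p1 := Q_le (n := n + m) x ((1 : ℝ) • v + (1 : ℝ) • sh k v)
  have p2 := Q_le (n := n + m) x ((1 : ℝ) • v + (-1 : ℝ) • sh k v)
  rw [hns, hQ, ← hM] at p1 p2
  -- `l + q ≤ M (1 + r)` and `l - q ≤ M (1 - r)`
  have p1' : l + q ≤ M * (1 + r) := by linarith
  have p2' : l - q ≤ M * (1 - r) := by linarith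
  have hr1 : c < 1 + r := by linarith [hr.1]
  have hr2 : c < 1 - r := by linarith [hr.2]
  have hε : 0 ≤ ε := by
    by_contra hneg
    push Not at hneg
    nlinarith
  constructor
  · intro α β h
    rw [hns] at h
    have h1 : (1 + r) * (α + β) ^ 2 + (1 - r) * (α - β) ^ 2 = 0 := by nlinarith
    have h2 : 0 ≤ (1 + r) * (α + β) ^ 2 := by
      have : 0 < 1 + r := by linarith
      positivity
    have h3 : 0 ≤ (1 - r) * (α - β) ^ 2 := by
      have : 0 < 1 - r := by linarith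
      positivity
    have h4 : (1 + r) * (α + β) ^ 2 = 0 := by linarith
    have h5 : (1 - r) * (α - β) ^ 2 = 0 := by linarith
    have h6 : (α + β) ^ 2 = 0 := by
      rcases mul_eq_zero.mp h4 with h | h
      · exfalso; linarith
      · exact h
    have h7 : (α - β) ^ 2 = 0 := by
      rcases mul_eq_zero.mp h5 with h | h
      · exfalso; linarith
      · exact h
    have h8 : α + β = 0 := pow_eq_zero_iff (two_ne_zero) |>.mp h6
    have h9 : α - β = 0 := pow_eq_zero_iff (two_ne_zero) |>.mp h7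
    constructor <;> linarith
  · intro α β
    rw [hns, hQ]
    -- it suffices to treat the two coefficients
    have k1 : (M - ε) * (1 + r) ≤ l + q := by nlinarith
    have k2 : (M - ε) * (1 - r) ≤ l - q := by nlinarith
    have s1 := mul_le_mul_of_nonneg_right k1 (sq_nonneg (α + β))
    have s2 := mul_le_mul_of_nonneg_right k2 (sq_nonneg (α - β))
    nlinarith

end

end Pool.Agent.Helper12.Toep
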