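import Pool.Agent.Helper12.Toep.Spec

/-!
# Module POISSON: Poisson limit of the top of the spectrum forces a spacing bounded below

`gap_of_poisson`: if the top of the spectrum of `T_n`, shifted by `a n` and scaled by `b n`, is
asymptotically Poisson with intensity `c e^{-η t}`, then the distance between the two largest
eigenvalues stays bounded away from zero in probability.
-/

set_option autoImplicit false

open MeasureTheory ProbabilityTheory Finset Filter Topology

namespace Pool.Agent.Helper12.Toep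

noncomputable section

/-- The number of eigenvalues `λ` of `T_n` (with multiplicity) with `(λ - a) / b ∈ I`. -/
def count (n : ℕ) (x : ℕ → ℝ) (a b : ℝ) (I : Set ℝ) : ℕ :=
  Set.ncard {i : Fin n | ((toeplitz_isHermitian n x).eigenvalues i - a) / b ∈ I}

namespace Poi

/-! ### The top eigenvalue and the diagonal entry -/

theorem Q_decomp (n : ℕ) (x v : ℕ → ℝ) :
    Q n x v = x 0 * nsq n v + Q n (Function.update x 0 0) v := by
  have key : ∀ i ∈ range n, ∑ j ∈ range n, x ((i : ℤ) - (j : ℤ)).natAbs * (v i * v j) =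
      x 0 * v i ^ 2 +
        ∑ j ∈ range n, (Function.update x 0 0) ((i : ℤ) - (j : ℤ)).natAbs * (v i * v j) := by
    intro i hi
    rw [← sub_eq_iff_eq_add, ← Finset.sum_sub_distrib]
    rw [Finset.sum_eq_single_of_mem i hi]
    · simp only [sub_self, Int.natAbs_zero, Function.update_self]; ring
    · intro j _ hji
      have : ((i : ℤ) - (j : ℤ)).natAbs ≠ 0 := by
        intro h; apply hji; omega
      simp [Function.update_of_ne this]
  unfold Q B nsq
  rw [Finset.sum_congr rfl key, Finset.sum_add_distrib, Finset.mul_sum]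

theorem abs_le_one_of_nsq {n : ℕ} {v : ℕ → ℝ} (hv : nsq n v = 1) {i : ℕ} (hi : i ∈ range n) :
    |v i| ≤ 1 := by
  have h1 : v i ^ 2 ≤ 1 := by
    rw [← hv]
    exact Finset.single_le_sum (f := fun i => v i ^ 2) (fun j _ => sq_nonneg _) hi
  exact abs_le_one_iff_mul_self_le_one.mpr (by nlinarith)

theorem bddAbove_rayleigh (n : ℕ) (x : ℕ → ℝ) :
    BddAbove {t | ∃ v : ℕ → ℝ, nsq n v = 1 ∧ Q n x v = t} := by
  refine ⟨∑ i ∈ range n, ∑ j ∈ range n, |x ((i : ℤ) - (j : ℤ)).natAbs|, ?_⟩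
  rintro t ⟨v, hv, rfl⟩
  unfold Q B
  refine Finset.sum_le_sum fun i hi => Finset.sum_le_sum fun j hj => ?_
  have h1 := abs_le_one_of_nsq hv hi
  have h2 := abs_le_one_of_nsq hv hj
  calc x ((i : ℤ) - (j : ℤ)).natAbs * (v i * v j)
      ≤ |x ((i : ℤ) - (j : ℤ)).natAbs * (v i * v j)| := le_abs_self _
    _ = |x ((i : ℤ) - (j : ℤ)).natAbs| * (|v i| * |v j|) := by rw [abs_mul, abs_mul]
    _ ≤ |x ((i : ℤ) - (j : ℤ)).natAbs| * 1 := by
        apply mul_le_mul_of_nonneg_left _ (abs_nonneg _)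
        calc |v i| * |v j| ≤ 1 * 1 := mul_le_mul h1 h2 (abs_nonneg _) zero_le_one
          _ = 1 := one_mul _
    _ = _ := mul_one _

theorem nonempty_rayleigh {n : ℕ} (hn : 1 ≤ n) (x : ℕ → ℝ) :
    {t | ∃ v : ℕ → ℝ, nsq n v = 1 ∧ Q n x v = t}.Nonempty := by
  refine ⟨_, fun i => if i = 0 then 1 else 0, ?_, rfl⟩
  unfold nsq
  rw [Finset.sum_eq_single_of_mem 0 (by simp; omega)]
  · simp
  · intro j _ hj
    simp [hj]

theorem lam_decomp {n : ℕ} (hn : 1 ≤ n) (x : ℕ → ℝ) :
    lam n x = x 0 + lam n (Function.update x 0 0) := by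
  apply le_antisymm
  · refine csSup_le (nonempty_rayleigh hn x) ?_
    rintro t ⟨v, hv, rfl⟩
    rw [Q_decomp, hv, mul_one]
    gcongr
    exact le_csSup (bddAbove_rayleigh n _) ⟨v, hv, rfl⟩
  · rw [← le_sub_iff_add_le']
    refine csSup_le (nonempty_rayleigh hn _) ?_
    rintro t ⟨v, hv, rfl⟩
    rw [le_sub_iff_add_le']
    have := Q_decomp n x v
    rw [hv, mul_one] at this
    rw [← this]
    exact le_csSup (bddAbove_rayleigh n _) ⟨v, hv, rfl⟩

theorem setOf_lam_le {n : ℕ} (hn : 1 ≤ n) (s : ℝ) :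
    {x : ℕ → ℝ | lam n x ≤ s} = {x : ℕ → ℝ | 1 ≤ nev n x (Set.Ioi s)}ᶜ := by
  ext x
  simp only [Set.mem_ofPred_eq, Set.mem_compl_iff, lam_le_iff_nev hn]
  omega

theorem measurable_lam {n : ℕ} (hn : 1 ≤ n) : Measurable (lam n) := by
  apply measurable_of_Iic
  intro s
  have : lam n ⁻¹' Set.Iic s = {x : ℕ → ℝ | lam n x ≤ s} := rfl
  rw [this, setOf_lam_le hn]
  exact (measurableSet_nev_Ioi n 1 s).compl

theorem indep_zero {n : ℕ} (hn : 1 ≤ n) :
    IndepFun (fun x : ℕ → ℝ => x 0) (fun x : ℕ → ℝ => lam n (Function.update x 0 0)) gam := by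
  have h1 : iIndepFun (fun (i : ℕ) (x : ℕ → ℝ) => x i) gam :=
    iIndepFun_infinitePi (P := fun _ : ℕ => gaussianReal 0 1) (X := fun _ x => x)
      (fun _ => measurable_id)
  have h2 := indep_iSup_of_disjoint (m := fun i : ℕ => MeasurableSpace.comap
    (fun x : ℕ → ℝ => x i) inferInstance) (μ := gam)
    (fun i => (measurable_pi_apply i).comap_le) h1.iIndep (S := {0}) (T := {0}ᶜ)
    disjoint_compl_right
  rw [IndepFun_iff_Indep]
  refine indep_of_indep_of_le_left (indep_of_indep_of_le_right h2 ?_) ?_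
  · have : @Measurable (ℕ → ℝ) (ℕ → ℝ) (⨆ i ∈ ({0}ᶜ : Set ℕ), MeasurableSpace.comap
        (fun x : ℕ → ℝ => x i) inferInstance) inferInstance
        (fun x => Function.update x 0 0) := by
      refine @measurable_pi_lambda _ _ _ (_) _ _ ?_
      intro i
      by_cases hi : i = 0
      · subst hi
        simp
      · have h3 : (fun x : ℕ → ℝ => Function.update x 0 0 i) = fun x => x i := by
          funext x; simp [Function.update_of_ne hi]
        rw [h3]
        rw [measurable_iff_comap_le]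
        exact le_iSup₂_of_le i hi le_rfl
    have h4 := (measurable_lam hn).comp this
    exact h4.comap_le
  · exact le_iSup₂_of_le 0 rfl le_rfl

theorem map_zero : gam.map (fun x : ℕ → ℝ => x 0) = gaussianReal 0 1 := by
  unfold gam
  exact Measure.infinitePi_map_eval (fun _ : ℕ => gaussianReal 0 1) 0

theorem gaussian_le_volume (s : Set ℝ) : gaussianReal 0 1 s ≤ volume s := by
  rw [gaussianReal_apply 0 one_ne_zero s]
  calc ∫⁻ x in s, gaussianPDF 0 1 x ≤ ∫⁻ x in s, 1 := by
        apply lintegral_mono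
        intro x
        simp only [gaussianPDF]
        rw [ENNReal.ofReal_le_one]
        unfold gaussianPDFReal
        have h1 : (√(2 * Real.pi * ((1 : NNReal) : ℝ)))⁻¹ ≤ 1 := by
          apply inv_le_one_of_one_le₀
          rw [Real.one_le_sqrt]
          have := Real.pi_gt_three
          simp; linarith
        have h2 : Real.exp (-(x - 0) ^ 2 / (2 * ((1 : NNReal) : ℝ))) ≤ 1 := by
          rw [Real.exp_le_one_iff]
          have := sq_nonneg (x - 0)
          simp only [NNReal.coe_one]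
          linarith
        calc _ ≤ 1 * 1 := mul_le_mul h1 h2 (Real.exp_pos _).le zero_le_one
          _ = 1 := one_mul _
    _ = volume s := by simp

theorem anti_conc {n : ℕ} (hn : 1 ≤ n) (u v : ℝ) :
    gam {x | lam n x ∈ Set.Ioc u v} ≤ ENNReal.ofReal (v - u) := by
  set Y : (ℕ → ℝ) → ℝ := fun x => lam n (Function.update x 0 0) with hY
  have hYm : Measurable Y := (measurable_lam hn).comp
    (measurable_pi_lambda _ fun i => by
      by_cases hi : i = 0
      · subst hi; simp
      · have h3 : (fun x : ℕ → ℝ => Function.update x 0 0 i) = fun x => x i := by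
          funext x; simp [Function.update_of_ne hi]
        rw [h3]; exact measurable_pi_apply i)
  have h1 := (indep_zero hn).map_prod_eq_prod_map_map (measurable_pi_apply 0).aemeasurable
    hYm.aemeasurable
  rw [map_zero] at h1
  have h2 : {x : ℕ → ℝ | lam n x ∈ Set.Ioc u v} =
      (fun x : ℕ → ℝ => (x 0, Y x)) ⁻¹' {p : ℝ × ℝ | p.1 + p.2 ∈ Set.Ioc u v} := by
    ext x
    simp only [Set.mem_ofPred_eq, Set.mem_preimage]
    rw [lam_decomp hn x]
  have hS : MeasurableSet {p : ℝ × ℝ | p.1 + p.2 ∈ Set.Ioc u v} :=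
    (measurable_fst.add measurable_snd) measurableSet_Ioc
  rw [h2, ← Measure.map_apply ((measurable_pi_apply 0).prodMk hYm) hS, h1,
    Measure.prod_apply_symm hS]
  have : IsProbabilityMeasure (gam.map Y) := Measure.isProbabilityMeasure_map hYm.aemeasurable
  calc ∫⁻ y, gaussianReal 0 1 ((fun x => (x, y)) ⁻¹' {p : ℝ × ℝ | p.1 + p.2 ∈ Set.Ioc u v})
        ∂(gam.map Y)
      ≤ ∫⁻ y, ENNReal.ofReal (v - u) ∂(gam.map Y) := by
        apply lintegral_mono
        intro y
        refine (gaussian_le_volume _).trans ?_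
        have : ((fun x => (x, y)) ⁻¹' {p : ℝ × ℝ | p.1 + p.2 ∈ Set.Ioc u v}) =
            Set.Ioc (u - y) (v - y) := by
          ext x
          simp only [Set.mem_preimage, Set.mem_ofPred_eq, Set.mem_Ioc]
          constructor
          · rintro ⟨h, h'⟩; constructor <;> linarith
          · rintro ⟨h, h'⟩; constructor <;> linarith
        rw [this, Real.volume_Ioc]
        apply le_of_eq
        congr 1
        ring
    _ = ENNReal.ofReal (v - u) := by simp


/-! ### Translation between `count` and `nev` -/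

theorem count_Ioi (n : ℕ) (x : ℕ → ℝ) (a : ℝ) {b : ℝ} (hb : 0 < b) (s : ℝ) :
    count n x a b (Set.Ioi s) = nev n x (Set.Ioi (a + b * s)) := by
  unfold count nev
  congr 1
  ext i
  simp only [Set.mem_ofPred_eq, Set.mem_Ioi, lt_div_iff₀ hb]
  constructor <;> intro h <;> linarith

theorem count_Ioc (n : ℕ) (x : ℕ → ℝ) (a : ℝ) {b : ℝ} (hb : 0 < b) (s t : ℝ) :
    count n x a b (Set.Ioc s t) = nev n x (Set.Ioc (a + b * s) (a + b * t)) := by
  unfold count nev
  congr 1
  ext i
  simp only [Set.mem_ofPred_eq, Set.mem_Ioc, lt_div_iff₀ hb, div_le_iff₀ hb]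
  constructor <;> rintro ⟨h, h'⟩ <;> constructor <;> linarith

theorem nev_mono {n : ℕ} {x : ℕ → ℝ} {S T : Set ℝ}
    (h : ∀ i : Fin n, (toeplitz_isHermitian n x).eigenvalues i ∈ S →
      (toeplitz_isHermitian n x).eigenvalues i ∈ T) : nev n x S ≤ nev n x T :=
  Set.ncard_le_ncard (fun i hi => h i hi) (Set.toFinite _)

theorem nev_eq_zero_iff {n : ℕ} {x : ℕ → ℝ} {S : Set ℝ} :
    nev n x S = 0 ↔ ∀ i : Fin n, (toeplitz_isHermitian n x).eigenvalues i ∉ S := by
  unfold nev
  rw [Set.ncard_eq_zero (Set.toFinite _), Set.eq_empty_iff_forall_notMem]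
  rfl

theorem eigenvalues_le_lam {n : ℕ} (hn : 1 ≤ n) (x : ℕ → ℝ) (i : Fin n) :
    (toeplitz_isHermitian n x).eigenvalues i ≤ lam n x := by
  have h := (lam_le_iff_nev hn x (lam n x)).1 le_rfl
  rw [nev_eq_zero_iff] at h
  exact not_lt.1 (h i)

/-! ### The intensity -/

theorem intensity_Ioi (c : ℝ) {η : ℝ} (hη : 0 < η) (s : ℝ) :
    ∫ t in Set.Ioi s, c * Real.exp (-η * t) = c / η * Real.exp (-η * s) := by
  rw [integral_const_mul, integral_exp_mul_Ioi (by linarith : -η < 0)]
  field_simp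

theorem intensity_Ioc_nonneg {c : ℝ} (hc : 0 < c) (η s t : ℝ) :
    0 ≤ ∫ u in Set.Ioc s t, c * Real.exp (-η * u) :=
  integral_nonneg fun _ => mul_nonneg hc.le (Real.exp_pos _).le

theorem intensity_Ioc_le {c η : ℝ} (hc : 0 < c) (hη : 0 < η) {s t : ℝ} (hst : s ≤ t) :
    ∫ u in Set.Ioc s t, c * Real.exp (-η * u) ≤ c * Real.exp (-η * s) * (t - s) := by
  have h := norm_setIntegral_le_of_norm_le_const (μ := volume) (s := Set.Ioc s t)
    (f := fun u => c * Real.exp (-η * u)) (C := c * Real.exp (-η * s))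
    (by rw [Real.volume_Ioc]; exact ENNReal.ofReal_lt_top)
    (fun u hu => by
      rw [Real.norm_eq_abs, abs_of_pos (mul_pos hc (Real.exp_pos _))]
      apply mul_le_mul_of_nonneg_left _ hc.le
      apply Real.exp_le_exp.2
      have := hu.1
      nlinarith)
  rw [Real.volume_real_Ioc_of_le hst] at h
  exact (le_abs_self _).trans h

theorem poisson_two_le {μ : ℝ} (hμ : 0 ≤ μ) :
    1 - Real.exp (-μ) - Real.exp (-μ) * μ ≤ μ ^ 2 := by
  have h := Real.add_one_le_exp (-μ)
  nlinarith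

/-! ### Lower bound for the scale -/

theorem scale_lower (a b : ℕ → ℝ) (c η : ℝ) (hb : ∀ n, 0 < b n) (hc : 0 < c) (hη : 0 < η)
    (hIoi : ∀ s : ℝ, Tendsto (fun n => gam.real {x | count n x (a n) (b n) (Set.Ioi s) = 0})
      atTop (𝓝 (Real.exp (-(c / η * Real.exp (-η * s)))))) :
    ∃ c₁ : ℝ, 0 < c₁ ∧ ∀ᶠ n in atTop, c₁ ≤ b n := by
  have hcη : 0 < c / η := div_pos hc hη
  have hT : Tendsto (fun s : ℝ => η * s) atTop atTop := tendsto_id.const_mul_atTop hη
  have h1 : Tendsto (fun s : ℝ => Real.exp (-(c / η * Real.exp (-η * s)))) atTop (𝓝 1) := by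
    have : Tendsto (fun s : ℝ => Real.exp (-η * s)) atTop (𝓝 0) := by
      have := Real.tendsto_exp_neg_atTop_nhds_zero.comp hT
      refine this.congr fun s => ?_
      simp [neg_mul]
    have := (this.const_mul (c / η)).neg
    simp only [mul_zero, neg_zero] at this
    simpa [Function.comp_def] using (Real.continuous_exp.tendsto 0).comp this
  have h2 : Tendsto (fun s : ℝ => Real.exp (-(c / η * Real.exp (-η * (-s))))) atTop (𝓝 0) := by
    have h3 : Tendsto (fun s : ℝ => c / η * Real.exp (-η * (-s))) atTop atTop := by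
      apply Tendsto.const_mul_atTop hcη
      have := Real.tendsto_exp_atTop.comp hT
      refine this.congr fun s => ?_
      simp
    exact Real.tendsto_exp_neg_atTop_nhds_zero.comp h3
  obtain ⟨S, hS1, hS2, hS0⟩ := ((h1.eventually (lt_mem_nhds (by norm_num : (7 / 8 : ℝ) < 1))).and
    ((h2.eventually (gt_mem_nhds (by norm_num : (0 : ℝ) < 1 / 8))).and
      (eventually_gt_atTop 0))).exists
  refine ⟨3 / (8 * S), by positivity, ?_⟩
  filter_upwards [(hIoi S).eventually (lt_mem_nhds hS1),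
    (hIoi (-S)).eventually (gt_mem_nhds hS2), eventually_ge_atTop 1] with n hn1 hn2 hn
  have hset : ∀ s : ℝ, {x : ℕ → ℝ | count n x (a n) (b n) (Set.Ioi s) = 0} =
      {x : ℕ → ℝ | lam n x ≤ a n + b n * s} := by
    intro s
    ext x
    simp only [Set.mem_ofPred_eq, count_Ioi n x (a n) (hb n), lam_le_iff_nev hn]
  rw [hset] at hn1 hn2
  have hsub : {x : ℕ → ℝ | lam n x ≤ a n + b n * S} ⊆ {x : ℕ → ℝ | lam n x ≤ a n + b n * (-S)} ∪
      {x : ℕ → ℝ | lam n x ∈ Set.Ioc (a n + b n * (-S)) (a n + b n * S)} := by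
    intro x hx
    simp only [Set.mem_union, Set.mem_ofPred_eq, Set.mem_Ioc] at hx ⊢
    rcases le_or_gt (lam n x) (a n + b n * (-S)) with h | h
    · exact Or.inl h
    · exact Or.inr ⟨h, hx⟩
  have h3 := (measureReal_mono (μ := gam) hsub).trans (measureReal_union_le _ _)
  have h4 : gam.real {x : ℕ → ℝ | lam n x ∈ Set.Ioc (a n + b n * (-S)) (a n + b n * S)} ≤
      2 * b n * S := by
    have h5 := anti_conc hn (a n + b n * (-S)) (a n + b n * S)
    have h6 : (a n + b n * S) - (a n + b n * (-S)) = 2 * b n * S := by ring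
    rw [h6] at h5
    have h7 : 0 ≤ 2 * b n * S := by have := hb n; positivity
    unfold Measure.real
    calc (gam {x | lam n x ∈ Set.Ioc (a n + b n * -S) (a n + b n * S)}).toReal
        ≤ (ENNReal.ofReal (2 * b n * S)).toReal := ENNReal.toReal_mono ENNReal.ofReal_ne_top h5
      _ = 2 * b n * S := ENNReal.toReal_ofReal h7
  rw [div_le_iff₀ (by positivity)]
  nlinarith

/-! ### Two points in one interval -/

theorem prob_two_le (n : ℕ) (a : ℝ) {b : ℝ} (hb : 0 < b) {s t : ℝ} (hst : s ≤ t) :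
    gam.real {x : ℕ → ℝ | 2 ≤ count n x a b (Set.Ioc s t)} ≤
      1 - gam.real {x | count n x a b (Set.Ioc s t) = 0} -
        gam.real {x | count n x a b (Set.Ioc s t) = 1} := by
  have hm : ∀ k, MeasurableSet {x : ℕ → ℝ | count n x a b (Set.Ioc s t) = k} := by
    intro k
    simp only [count_Ioc n _ a hb]
    exact measurableSet_nev_Ioc n k (by nlinarith)
  have h1 : gam.real ({x : ℕ → ℝ | count n x a b (Set.Ioc s t) = 0} ∪
      {x | count n x a b (Set.Ioc s t) = 1}) = _ :=
    measureReal_union (by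
      rw [Set.disjoint_left]
      intro x hx hx'
      simp only [Set.mem_ofPred_eq] at hx hx'
      omega) (hm 1)
  have h2 := probReal_compl_eq_one_sub (μ := gam) ((hm 0).union (hm 1))
  have h3 : {x : ℕ → ℝ | 2 ≤ count n x a b (Set.Ioc s t)} ⊆
      ({x : ℕ → ℝ | count n x a b (Set.Ioc s t) = 0} ∪
        {x | count n x a b (Set.Ioc s t) = 1})ᶜ := by
    intro x hx
    simp only [Set.mem_compl_iff, Set.mem_union, Set.mem_ofPred_eq] at hx ⊢
    omega
  have h4 := measureReal_mono (μ := gam) h3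
  linarith

theorem prob_pos_le {n : ℕ} (hn : 1 ≤ n) (a : ℝ) {b : ℝ} (hb : 0 < b) (s : ℝ) :
    gam.real {x : ℕ → ℝ | count n x a b (Set.Ioi s) = 0}ᶜ =
      1 - gam.real {x | count n x a b (Set.Ioi s) = 0} := by
  apply probReal_compl_eq_one_sub
  have : {x : ℕ → ℝ | count n x a b (Set.Ioi s) = 0} = {x : ℕ → ℝ | lam n x ≤ a + b * s} := by
    ext x
    simp only [Set.mem_ofPred_eq, count_Ioi n x a hb, lam_le_iff_nev hn]
  rw [this]
  exact (measurable_lam hn) measurableSet_Iic

/-- The deterministic covering. -/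
theorem cover {n : ℕ} (hn : 1 ≤ n) (a : ℝ) {b : ℝ} (hb : 0 < b) {c₁ : ℝ}
    (hcb : c₁ ≤ b) {K : ℝ} {M : ℕ} {s : ℝ} (hs0 : 0 < s) (hs : s * M = 2 * K) :
    {x : ℕ → ℝ | 2 ≤ nev n x (Set.Ici (lam n x - s * c₁))} ⊆
      {x : ℕ → ℝ | count n x a b (Set.Ioi K) = 0}ᶜ ∪
      ({x : ℕ → ℝ | count n x a b (Set.Ioi (-K)) = 0} ∪
      ⋃ i ∈ range M, {x : ℕ → ℝ | 2 ≤ count n x a b
        (Set.Ioc (-K + ((i : ℝ) - 1) * s) (-K + ((i : ℝ) + 1) * s))}) := by
  intro x hx
  simp only [Set.mem_ofPred_eq] at hx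
  by_cases h1 : count n x a b (Set.Ioi K) = 0
  swap
  · exact Or.inl h1
  by_cases h2 : count n x a b (Set.Ioi (-K)) = 0
  · exact Or.inr (Or.inl h2)
  refine Or.inr (Or.inr ?_)
  have h3 : lam n x ≤ a + b * K := by rwa [lam_le_iff_nev hn, ← count_Ioi n x a hb]
  have h4 : a + b * (-K) < lam n x := by
    rw [← not_le, lam_le_iff_nev hn, ← count_Ioi n x a hb]; exact h2
  set l := (lam n x - a) / b with hl
  have hlb : lam n x = a + b * l := by rw [hl]; field_simp; ring
  have h5 : l ≤ K := by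
    rw [hlb] at h3
    exact le_of_mul_le_mul_left (by linarith : b * l ≤ b * K) hb
  have h6 : -K < l := by
    rw [hlb] at h4
    exact lt_of_mul_lt_mul_left (by linarith : b * (-K) < b * l) hb.le
  -- the index
  set z : ℤ := ⌈(l + K) / s⌉ with hz
  have hz1 : (l + K) / s ≤ z := Int.le_ceil _
  have hz2 : (z : ℝ) < (l + K) / s + 1 := Int.ceil_lt_add_one _
  have hzpos : 0 < z := Int.ceil_pos.2 (div_pos (by linarith) hs0)
  have hzM : z ≤ M := by
    rw [hz, Int.ceil_le]
    rw [div_le_iff₀ hs0]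
    push_cast
    linarith [mul_comm s (M : ℝ)]
  obtain ⟨i, hi⟩ : ∃ i : ℕ, (z : ℤ) = i + 1 := ⟨(z - 1).toNat, by omega⟩
  have hiR : (z : ℝ) = i + 1 := by rw [hi]; push_cast; ring
  have hiM : i < M := by omega
  rw [hiR] at hz1 hz2
  rw [div_le_iff₀ hs0] at hz1
  have hz3 : (i : ℝ) < (l + K) / s := by linarith
  rw [lt_div_iff₀ hs0] at hz3
  simp only [Set.mem_iUnion]
  refine ⟨i, Finset.mem_range.2 hiM, ?_⟩
  simp only [Set.mem_ofPred_eq]
  rw [count_Ioc n x a hb]
  refine hx.trans (nev_mono fun j hj => ?_)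
  have hj2 := eigenvalues_le_lam hn x j
  simp only [Set.mem_Ici] at hj
  rw [hlb] at hj hj2
  constructor
  · have : s * c₁ ≤ b * s := by nlinarith
    nlinarith
  · nlinarith


end Poi

open Poi in
/-- **Module POISSON.** If the rescaled top of the spectrum is asymptotically Poisson with
intensity `c e^{-η t}`, then the spacing between the two largest eigenvalues stays bounded away
from zero in probability. -/
theorem gap_of_poisson (a b : ℕ → ℝ) (c η : ℝ) (hb : ∀ n, 0 < b n) (hc : 0 < c) (hη : 0 < η)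
    (hIoi : ∀ (s : ℝ) (k : ℕ), Tendsto (fun n => gam.real {x | count n x (a n) (b n) (Set.Ioi s) = k})
      atTop (𝓝 (Real.exp (-∫ t in Set.Ioi s, c * Real.exp (-η * t)) *
        (∫ t in Set.Ioi s, c * Real.exp (-η * t)) ^ k / k.factorial)))
    (hIoc : ∀ (s t : ℝ) (k : ℕ), s < t →
      Tendsto (fun n => gam.real {x | count n x (a n) (b n) (Set.Ioc s t) = k})
      atTop (𝓝 (Real.exp (-∫ u in Set.Ioc s t, c * Real.exp (-η * u)) *
        (∫ u in Set.Ioc s t, c * Real.exp (-η * u)) ^ k / k.factorial))) :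
    ∀ τ : ℝ, 0 < τ → ∃ ε : ℝ, 0 < ε ∧ ∀ᶠ n : ℕ in atTop,
      gam {x | 2 ≤ nev n x (Set.Ici (lam n x - ε))} ≤ ENNReal.ofReal τ := by
  intro τ hτ
  have hcη : 0 < c / η := div_pos hc hη
  have h0 : ∀ s : ℝ, Tendsto (fun n => gam.real {x | count n x (a n) (b n) (Set.Ioi s) = 0})
      atTop (𝓝 (Real.exp (-(c / η * Real.exp (-η * s))))) := by
    intro s
    have := hIoi s 0
    simp only [intensity_Ioi c hη, pow_zero, mul_one, Nat.factorial_zero, Nat.cast_one,
      div_one] at this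
    exact this
  obtain ⟨c₁, hc₁, hbn⟩ := scale_lower a b c η hb hc hη h0
  -- choice of `K`
  have hT : Tendsto (fun s : ℝ => η * s) atTop atTop := tendsto_id.const_mul_atTop hη
  have h1 : Tendsto (fun s : ℝ => Real.exp (-(c / η * Real.exp (-η * s)))) atTop (𝓝 1) := by
    have : Tendsto (fun s : ℝ => Real.exp (-η * s)) atTop (𝓝 0) := by
      have := Real.tendsto_exp_neg_atTop_nhds_zero.comp hT
      refine this.congr fun s => ?_
      simp [neg_mul]
    have := (this.const_mul (c / η)).neg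
    simp only [mul_zero, neg_zero] at this
    simpa [Function.comp_def] using (Real.continuous_exp.tendsto 0).comp this
  have h2 : Tendsto (fun s : ℝ => Real.exp (-(c / η * Real.exp (-η * (-s))))) atTop (𝓝 0) := by
    have h3 : Tendsto (fun s : ℝ => c / η * Real.exp (-η * (-s))) atTop atTop := by
      apply Tendsto.const_mul_atTop hcη
      have := Real.tendsto_exp_atTop.comp hT
      refine this.congr fun s => ?_
      simp
    exact Real.tendsto_exp_neg_atTop_nhds_zero.comp h3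
  obtain ⟨K, hK1, hK2, hK0⟩ := ((h1.eventually
      (lt_mem_nhds (by linarith : (1 : ℝ) - τ / 4 < 1))).and
    ((h2.eventually (gt_mem_nhds (by positivity : (0 : ℝ) < τ / 4))).and
      (eventually_gt_atTop 0))).exists
  -- choice of `M`
  set D : ℝ := 2 * c * Real.exp (η * (K + 1)) with hD
  have hD0 : 0 < D := by positivity
  obtain ⟨M, hM⟩ := exists_nat_gt (max (2 * K) (16 * K ^ 2 * D ^ 2 / τ))
  have hM1 : 2 * K < M := (le_max_left _ _).trans_lt hM
  have hM2 : 16 * K ^ 2 * D ^ 2 / τ < M := (le_max_right _ _).trans_lt hM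
  have hM0 : (0 : ℝ) < M := by linarith
  set s : ℝ := 2 * K / M with hs
  have hs0 : 0 < s := by positivity
  have hsM : s * M = 2 * K := by rw [hs]; field_simp
  have hs1 : s ≤ 1 := by rw [hs, div_le_one hM0]; exact hM1.le
  -- intervals
  set J : ℕ → Set ℝ := fun i => Set.Ioc (-K + ((i : ℝ) - 1) * s) (-K + ((i : ℝ) + 1) * s) with hJ
  have hJlt : ∀ i : ℕ, -K + ((i : ℝ) - 1) * s < -K + ((i : ℝ) + 1) * s := by
    intro i; nlinarith
  have hμ : ∀ i : ℕ, ∫ u in J i, c * Real.exp (-η * u) ≤ s * D := by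
    intro i
    refine (intensity_Ioc_le hc hη (hJlt i).le).trans ?_
    have e1 : (-K + ((i : ℝ) + 1) * s) - (-K + ((i : ℝ) - 1) * s) = 2 * s := by ring
    rw [e1]
    have e2 : Real.exp (-η * (-K + ((i : ℝ) - 1) * s)) ≤ Real.exp (η * (K + 1)) := by
      apply Real.exp_le_exp.2
      have : (0 : ℝ) ≤ i * s := by positivity
      nlinarith
    calc c * Real.exp (-η * (-K + ((i : ℝ) - 1) * s)) * (2 * s)
        ≤ c * Real.exp (η * (K + 1)) * (2 * s) := by gcongr
      _ = s * D := by rw [hD]; ring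
  have hμ0 : ∀ i : ℕ, 0 ≤ ∫ u in J i, c * Real.exp (-η * u) := fun i =>
    intensity_Ioc_nonneg hc η _ _
  have hlim : ∀ i : ℕ, ∀ᶠ n in atTop,
      gam.real {x : ℕ → ℝ | 2 ≤ count n x (a n) (b n) (J i)} ≤ s ^ 2 * D ^ 2 + τ / (8 * M) := by
    intro i
    have t0 := hIoc _ _ 0 (hJlt i)
    have t1 := hIoc _ _ 1 (hJlt i)
    simp only [pow_zero, mul_one, Nat.factorial_zero, Nat.cast_one, div_one, pow_one,
      Nat.factorial_one] at t0 t1
    have t2 := (tendsto_const_nhds (x := (1 : ℝ)) (f := atTop (α := ℕ))).sub t0 |>.sub t1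
    have t3 : 1 - Real.exp (-∫ u in J i, c * Real.exp (-η * u)) -
        Real.exp (-∫ u in J i, c * Real.exp (-η * u)) * ∫ u in J i, c * Real.exp (-η * u) <
        s ^ 2 * D ^ 2 + τ / (8 * M) := by
      refine (poisson_two_le (hμ0 i)).trans_lt ?_
      have : (∫ u in J i, c * Real.exp (-η * u)) ^ 2 ≤ (s * D) ^ 2 :=
        pow_le_pow_left₀ (hμ0 i) (hμ i) 2
      have h' : 0 < τ / (8 * M) := by positivity
      nlinarith
    filter_upwards [t2.eventually (gt_mem_nhds t3)] with n hn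
    exact (prob_two_le n (a n) (hb n) (hJlt i).le).trans hn.le
  have hall : ∀ᶠ n in atTop, ∀ i ∈ range M,
      gam.real {x : ℕ → ℝ | 2 ≤ count n x (a n) (b n) (J i)} ≤ s ^ 2 * D ^ 2 + τ / (8 * M) :=
    (Finset.eventually_all _).2 fun i _ => hlim i
  refine ⟨s * c₁, by positivity, ?_⟩
  filter_upwards [hall, hbn, eventually_ge_atTop 1, (h0 K).eventually (lt_mem_nhds hK1),
    (h0 (-K)).eventually (gt_mem_nhds hK2)] with n g1 g2 g3 g4 g5
  have hcov := cover g3 (a n) (hb n) g2 (M := M) hs0 hsM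
  have hbound : gam.real {x : ℕ → ℝ | 2 ≤ nev n x (Set.Ici (lam n x - s * c₁))} ≤ τ := by
    refine (measureReal_mono (μ := gam) hcov).trans ?_
    refine (measureReal_union_le _ _).trans ?_
    have k1 := prob_pos_le g3 (a n) (hb n) K
    have k2 := measureReal_union_le (μ := gam)
      {x : ℕ → ℝ | count n x (a n) (b n) (Set.Ioi (-K)) = 0}
      (⋃ i ∈ range M, {x : ℕ → ℝ | 2 ≤ count n x (a n) (b n) (J i)})
    have k3 := measureReal_biUnion_finset_le (μ := gam) (range M)
      (fun i => {x : ℕ → ℝ | 2 ≤ count n x (a n) (b n) (J i)})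
    have k4 : ∑ i ∈ range M, gam.real {x : ℕ → ℝ | 2 ≤ count n x (a n) (b n) (J i)} ≤ τ / 2 := by
      calc _ ≤ ∑ i ∈ range M, (s ^ 2 * D ^ 2 + τ / (8 * M)) := Finset.sum_le_sum g1
        _ = M * (s ^ 2 * D ^ 2 + τ / (8 * M)) := by
            rw [Finset.sum_const, Finset.card_range, nsmul_eq_mul]
        _ = 4 * K ^ 2 * D ^ 2 / M + τ / 8 := by rw [hs]; field_simp; ring
        _ ≤ τ / 4 + τ / 8 := by
            have : 4 * K ^ 2 * D ^ 2 / M ≤ τ / 4 := by
              rw [div_lt_iff₀ hτ] at hM2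
              rw [div_le_iff₀ hM0]
              nlinarith
            linarith
        _ ≤ τ / 2 := by linarith
    linarith
  calc gam {x | 2 ≤ nev n x (Set.Ici (lam n x - s * c₁))}
      = ENNReal.ofReal (gam.real {x : ℕ → ℝ | 2 ≤ nev n x (Set.Ici (lam n x - s * c₁))}) :=
        (ofReal_measureReal (measure_ne_top _ _)).symm
    _ ≤ ENNReal.ofReal τ := ENNReal.ofReal_le_ofReal hbound

end

end Pool.Agent.Helper12.Toep
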