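import Pool.Agent.Helper12.Toep.Core
import Pool.Agent.Helper12.Toep.Lower

/-!
# The recursion and the final contradiction
-/

set_option autoImplicit false

open MeasureTheory ProbabilityTheory Finset Filter Topology

namespace Pool.Agent.Helper12.Toep

noncomputable section

lemma L_le_of_W {W : ℕ → (ℕ → ℝ) → ℝ} (hW : ∀ n x v, |Q n x v| ≤ W n x * nsq n v)
    (hWi : ∀ n, Integrable (W n) gam) {n : ℕ} (hn : 1 ≤ n) : L n ≤ ∫ x, W n x ∂gam := by
  unfold L
  refine integral_mono (integrable_lam hn) (hWi n) fun x => ?_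
  obtain ⟨v, _, h1, h2⟩ := lam_attained hn x
  have h3 := (abs_le.mp (hW n x v)).2
  rw [h1, mul_one, h2] at h3
  exact h3

lemma exists_small_step (y q I : ℕ) (hy : 1 ≤ y) (hI : 1 ≤ I) (hIq : I * q ≤ y) :
    ∃ i, i < I ∧ L (y + i * q + q) - L (y + i * q) ≤ L (2 * y) / I := by
  by_contra hcon
  push Not at hcon
  have hI0 : (0 : ℝ) < I := by exact_mod_cast hI
  have h1 : ∑ i ∈ range I, (L (2 * y) / I) <
      ∑ i ∈ range I, (L (y + (i + 1) * q) - L (y + i * q)) := by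
    refine Finset.sum_lt_sum_of_nonempty (Finset.nonempty_range_iff.mpr (by omega)) ?_
    intro i hi
    have := hcon i (Finset.mem_range.mp hi)
    have e : y + (i + 1) * q = y + i * q + q := by ring
    rw [e]
    exact this
  rw [Finset.sum_range_sub (fun i => L (y + i * q)), Finset.sum_const, Finset.card_range,
    nsmul_eq_mul, mul_div_cancel₀ _ hI0.ne'] at h1
  have h2 : L (y + I * q) ≤ L (2 * y) := L_mono (by omega) (by omega)
  have h3 : 0 ≤ L (y + 0 * q) := L_nonneg (by omega)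
  linarith

theorem recursion (H : ∀ τ : ℝ, 0 < τ → ∃ ε : ℝ, 0 < ε ∧ ∀ᶠ n : ℕ in atTop,
    gam (gapSet n ε) ≤ ENNReal.ofReal τ) :
    ∃ C : ℝ, 0 < C ∧ ∀ᶠ y : ℕ in atTop, ∃ q N : ℕ, 1 ≤ q ∧ 1 ≤ N ∧ ((q : ℝ) * N) ≤ 1.02 * y ∧
      N < y ∧ Real.log (N + 2) ≤ 0.77 * Real.log (y + 2) ∧
      0.98 * L y ≤ Real.sqrt q * L N + C * Real.sqrt y := by
  obtain ⟨ε, hε, hgap⟩ := H (1 / 100) (by norm_num)
  obtain ⟨n₀, hn₀⟩ := Filter.eventually_atTop.mp hgap
  obtain ⟨W, hW, hW0, hWi, C, hC, hWC⟩ := exists_W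
  refine ⟨12 + 40 * C, by positivity, ?_⟩
  have hYt : Tendsto (fun y : ℕ => (y : ℝ) ^ (1 / 40 : ℝ)) atTop atTop :=
    (tendsto_rpow_atTop (by norm_num)).comp tendsto_natCast_atTop_atTop
  have ev1 := hYt.eventually_ge_atTop (10 + 60000 * C * 10 / ε)
  filter_upwards [ev1, Filter.eventually_ge_atTop (max n₀ 1)] with y hY1 hy1
  have hyn₀ : n₀ ≤ y := (le_max_left _ _).trans hy1
  have hy1' : 1 ≤ y := (le_max_right _ _).trans hy1
  obtain ⟨Y, hYdef⟩ : ∃ Y : ℝ, Y = (y : ℝ) ^ (1 / 40 : ℝ) := ⟨_, rfl⟩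
  rw [← hYdef] at hY1
  have hεC : 0 ≤ 60000 * C * 10 / ε := by positivity
  have hY10 : 10 ≤ Y := by linarith
  have hYC : 60000 * C * 10 / ε ≤ Y := by linarith
  have hY0 : 0 < Y := by linarith
  have hY40 : Y ^ 40 = (y : ℝ) := by
    rw [hYdef, ← Real.rpow_natCast, ← Real.rpow_mul (by positivity)]
    norm_num
  have hsqrt : Real.sqrt y = Y ^ 20 := by
    rw [← hY40, show Y ^ 40 = (Y ^ 20) ^ 2 by ring]
    exact Real.sqrt_sq (by positivity)
  -- the block length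
  obtain ⟨q, hq⟩ : ∃ q : ℕ, q = ⌊Y ^ 10⌋₊ := ⟨_, rfl⟩
  have hq1 : (q : ℝ) ≤ Y ^ 10 := by rw [hq]; exact Nat.floor_le (by positivity)
  have hq2 : Y ^ 10 < (q : ℝ) + 1 := by rw [hq]; exact Nat.lt_floor_add_one _
  have hY10' : (10 : ℝ) ^ 10 ≤ Y ^ 10 := pow_le_pow_left₀ (by norm_num) hY10 10
  have hY30 : (10 : ℝ) ^ 30 ≤ Y ^ 30 := pow_le_pow_left₀ (by norm_num) hY10 30
  have hq3 : Y ^ 10 / 2 ≤ (q : ℝ) := by
    have : (2 : ℝ) ≤ Y ^ 10 := le_trans (by norm_num) hY10'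
    linarith
  have hq4 : (1 : ℝ) ≤ (q : ℝ) := by
    have : (2 : ℝ) ≤ Y ^ 10 := le_trans (by norm_num) hY10'
    linarith
  have hq5 : 1 ≤ q := by exact_mod_cast hq4
  have hq0 : (0 : ℝ) < q := by linarith
  have hyY : (y : ℝ) = Y ^ 30 * Y ^ 10 := by rw [← hY40]; ring
  -- number of steps
  obtain ⟨I, hI⟩ : ∃ I : ℕ, I = y / (100 * q) := ⟨_, rfl⟩
  have hI1 : I * (100 * q) ≤ y := by rw [hI]; exact Nat.div_mul_le_self _ _
  have hI2 : y < (I + 1) * (100 * q) := by
    rw [hI]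
    have := Nat.lt_mul_div_succ y (show 0 < 100 * q by omega)
    linarith
  have hI1r : (I : ℝ) * (100 * q) ≤ y := by exact_mod_cast hI1
  have hI2r : (y : ℝ) < ((I : ℝ) + 1) * (100 * q) := by exact_mod_cast hI2
  have hIbig : (1 : ℝ) ≤ (I : ℝ) := by
    by_contra hneg
    push Not at hneg
    have : I = 0 := by
      have : I < 1 := by exact_mod_cast hneg
      omega
    rw [this] at hI2r
    have h1 : (y : ℝ) < 100 * Y ^ 10 := by
      push_cast at hI2r
      linarith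
    rw [hyY] at h1
    have h2 : (0 : ℝ) < Y ^ 10 := by positivity
    have h3 : (100 : ℝ) ≤ Y ^ 30 := le_trans (by norm_num) hY30
    nlinarith
  have hI3 : Y ^ 30 / 200 ≤ (I : ℝ) := by
    have h1 : (y : ℝ) < 200 * Y ^ 10 * I := by
      have h2 : ((I : ℝ) + 1) * (100 * q) ≤ (2 * I) * (100 * Y ^ 10) :=
        mul_le_mul (by linarith) (by linarith) (by positivity) (by positivity)
      linarith
    rw [hyY] at h1
    have h2 : (0 : ℝ) < Y ^ 10 := by positivity
    have h3 : Y ^ 30 < 200 * I := by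
      by_contra hneg
      push Not at hneg
      have := mul_le_mul_of_nonneg_right hneg h2.le
      linarith
    linarith
  have hI0 : (0 : ℝ) < I := by linarith
  have hIq : I * q ≤ y := by
    calc I * q ≤ I * (100 * q) := Nat.mul_le_mul_left _ (by omega)
      _ ≤ y := hI1
  obtain ⟨i, hiI, hstep⟩ := exists_small_step y q I hy1' (by exact_mod_cast hIbig) hIq
  obtain ⟨n, hn⟩ : ∃ n, n = y + i * q := ⟨_, rfl⟩
  rw [← hn] at hstep
  have hny : y ≤ n := by rw [hn]; exact Nat.le_add_right _ _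
  have hn1 : 1 ≤ n := by omega
  have hnr : (n : ℝ) ≤ 1.01 * y := by
    have h1 : i * q ≤ I * q := Nat.mul_le_mul_right _ hiI.le
    have h2 : ((i * q : ℕ) : ℝ) ≤ ((I * q : ℕ) : ℝ) := by exact_mod_cast h1
    rw [hn]
    push_cast at h2 ⊢
    linarith
  -- number of blocks
  obtain ⟨N, hN⟩ : ∃ N, N = n / q + 1 := ⟨_, rfl⟩
  have hN1 : 1 ≤ N := by rw [hN]; exact Nat.le_add_left 1 _
  have hqN1 : n ≤ q * N := by
    rw [hN]
    exact (Nat.lt_mul_div_succ n (by omega)).le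
  have hqN2 : q * N ≤ n + q := by
    rw [hN, Nat.mul_add, mul_one]
    exact Nat.add_le_add_right (Nat.mul_div_le n q) q
  have hqN2r : (q : ℝ) * N ≤ n + q := by exact_mod_cast hqN2
  have hqN : (q : ℝ) * N ≤ 1.02 * y := by
    have h1 : (q : ℝ) ≤ 0.01 * y := by
      rw [hyY]
      have h2 : (0 : ℝ) < Y ^ 10 := by positivity
      have h3 : (100 : ℝ) ≤ Y ^ 30 := le_trans (by norm_num) hY30
      nlinarith
    linarith
  have hNr : (N : ℝ) ≤ 2.04 * Y ^ 30 := by
    have h1 : Y ^ 10 / 2 * N ≤ 1.02 * (Y ^ 30 * Y ^ 10) := by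
      rw [← hyY]
      exact (mul_le_mul_of_nonneg_right hq3 (by positivity)).trans hqN
    have h2 : (0 : ℝ) < Y ^ 10 := by positivity
    by_contra hneg
    push Not at hneg
    have := mul_lt_mul_of_pos_left hneg h2
    linarith
  have hNy : N < y := by
    have h1 : (N : ℝ) < y := by
      rw [hyY]
      have h2 : (10 : ℝ) ^ 10 ≤ Y ^ 10 := hY10'
      have h3 : (0 : ℝ) < Y ^ 30 := by positivity
      nlinarith
    exact_mod_cast h1
  have hlogN : Real.log (N + 2) ≤ 0.77 * Real.log (y + 2) := by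
    have h1 : (N : ℝ) + 2 ≤ 5 * Y ^ 30 := by
      have : (1 : ℝ) ≤ Y ^ 30 := le_trans (by norm_num) hY30
      linarith
    have h2 : Real.log (N + 2) ≤ Real.log (5 * Y ^ 30) :=
      Real.log_le_log (by positivity) h1
    have h3 : Real.log (5 * Y ^ 30) = Real.log 5 + 30 * Real.log Y := by
      rw [Real.log_mul (by norm_num) (by positivity), Real.log_pow]
      norm_num
    have h4 : 5 * Real.log 5 ≤ 4 * Real.log Y := by
      have h5 : Real.log ((5 : ℝ) ^ 5) ≤ Real.log (Y ^ 4) := by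
        refine Real.log_le_log (by norm_num) ?_
        have : (10 : ℝ) ^ 4 ≤ Y ^ 4 := pow_le_pow_left₀ (by norm_num) hY10 4
        exact le_trans (by norm_num) this
      rw [Real.log_pow, Real.log_pow] at h5
      push_cast at h5
      exact h5
    have h6 : Real.log (y : ℝ) = 40 * Real.log Y := by
      rw [← hY40, Real.log_pow]
      norm_num
    have h7 : Real.log (y : ℝ) ≤ Real.log (y + 2) :=
      Real.log_le_log (by exact_mod_cast hy1') (by linarith)
    rw [h3] at h2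
    linarith
  -- bound on logarithms
  have hlog : Real.log (2 * (y : ℝ) + 2) ≤ 42 * Y ^ 2 := by
    have h1 : 2 * (y : ℝ) + 2 ≤ 4 * Y ^ 40 := by
      rw [hY40]
      have : (1 : ℝ) ≤ y := by exact_mod_cast hy1'
      linarith
    have h2 := Real.log_le_log (by positivity) h1
    rw [Real.log_mul (by norm_num) (by positivity), Real.log_pow] at h2
    have h3 : Real.log 4 ≤ 3 := by
      have := Real.log_le_sub_one_of_pos (show (0 : ℝ) < 4 by norm_num)
      linarith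
    have h4 : Real.log Y ≤ Y - 1 := Real.log_le_sub_one_of_pos hY0
    have h5 : Y ≤ Y ^ 2 := by nlinarith
    push_cast at h2
    nlinarith
  have hWb : ∀ k : ℕ, 1 ≤ k → (k : ℝ) ≤ 2 * y → ∫ x, W k x ∂gam ≤ C * (10 * Y ^ 21) := by
    intro k hk hky
    refine (hWC k hk).trans (mul_le_mul_of_nonneg_left ?_ hC.le)
    rw [Real.sqrt_le_left (by positivity)]
    have h1 : Real.log (k + 2) ≤ Real.log (2 * (y : ℝ) + 2) :=
      Real.log_le_log (by positivity) (by linarith)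
    have h2 : (0 : ℝ) ≤ Real.log (k + 2) := Real.log_nonneg (by linarith [show (0 : ℝ) ≤ k by positivity])
    calc (k : ℝ) * Real.log (k + 2) ≤ (2 * y) * (42 * Y ^ 2) :=
          mul_le_mul hky (h1.trans hlog) h2 (by positivity)
      _ = 84 * Y ^ 42 := by rw [← hY40]; ring
      _ ≤ (10 * Y ^ 21) ^ 2 := by
          have : (0 : ℝ) ≤ Y ^ 42 := by positivity
          have e : (10 * Y ^ 21) ^ 2 = 100 * Y ^ 42 := by ring
          rw [e]
          linarith
  -- the parameter c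
  obtain ⟨c, hc⟩ : ∃ c : ℝ, c = 1 / Y ^ 4 := ⟨_, rfl⟩
  have hc0 : 0 < c := by rw [hc]; positivity
  have hc1 : c ≤ 1 / 8 := by
    rw [hc]
    have : (10 : ℝ) ^ 4 ≤ Y ^ 4 := pow_le_pow_left₀ (by norm_num) hY10 4
    exact one_div_le_one_div_of_le (by norm_num) (le_trans (by norm_num) this)
  have hsc : Real.sqrt c = 1 / Y ^ 2 := by
    rw [hc, show (1 : ℝ) / Y ^ 4 = (1 / Y ^ 2) ^ 2 by rw [div_pow]; ring_nf]
    exact Real.sqrt_sq (by positivity)
  -- the probability bounds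
  have hP1 : gam.real (gapSet (n + q) ε) ≤ 1 / 100 := by
    have h1 := hn₀ (n + q) (by omega)
    exact ENNReal.toReal_le_of_le_ofReal (by norm_num) h1
  have hP2 : gam.real {x | ε * c < 3 * (lam (n + q) x - lam n x)} ≤ 1 / 100 := by
    refine (markov_delta hn1 (by positivity)).trans ?_
    have h1 : L (2 * y) ≤ C * (10 * Y ^ 21) := by
      refine (L_le_of_W hW hWi (by omega)).trans (hWb (2 * y) (by omega) ?_)
      push_cast
      exact le_rfl
    have h2 : L (2 * y) / I ≤ (C * (10 * Y ^ 21)) / (Y ^ 30 / 200) := by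
      have h3 : 0 ≤ C * (10 * Y ^ 21) := by positivity
      calc L (2 * y) / I ≤ (C * (10 * Y ^ 21)) / I := div_le_div_of_nonneg_right h1 hI0.le
        _ ≤ _ := div_le_div_of_nonneg_left h3 (by positivity) hI3
    have h4 : 3 * (L (n + q) - L n) ≤ 3 * ((C * (10 * Y ^ 21)) / (Y ^ 30 / 200)) := by linarith
    rw [div_le_iff₀ (by positivity)]
    refine h4.trans ?_
    rw [hc]
    have h5 : 3 * ((C * (10 * Y ^ 21)) / (Y ^ 30 / 200)) = 6000 * C / Y ^ 9 := by
      field_simp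
      ring
    rw [h5]
    have h6 : 1 / 100 * (ε * (1 / Y ^ 4)) = ε / 100 / Y ^ 4 := by ring
    rw [h6, div_le_div_iff₀ (by positivity) (by positivity)]
    -- 6000 C Y^4 ≤ ε/100 Y^9
    have h7 : 60000 * C * 10 ≤ Y * ε := by
      rw [div_le_iff₀ hε] at hYC
      exact hYC
    have h8 : (1 : ℝ) ≤ Y ^ 4 := one_le_pow₀ (by linarith)
    calc 6000 * C * Y ^ 4 ≤ (Y * ε / 100) * Y ^ 4 := by
          refine mul_le_mul_of_nonneg_right ?_ (by positivity)
          linarith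
      _ ≤ (Y * ε / 100) * Y ^ 4 * Y ^ 4 := by
          have : 0 ≤ (Y * ε / 100) * Y ^ 4 := by positivity
          nlinarith
      _ = ε / 100 * Y ^ 9 := by ring
  have hcore := core hn1 hq5 hN1 hqN1 hc0 hc1 hP1 hP2 (hW0 (q * N)) (hWi (q * N))
    (fun x u => hW (q * N) x u)
  refine ⟨q, N, hq5, hN1, hqN, hNy, hlogN, ?_⟩
  have hLy : L y ≤ L n := L_mono hy1' hny
  have hqNr : ((q * N : ℕ) : ℝ) ≤ 2 * y := by
    push_cast
    have : (0 : ℝ) ≤ y := by positivity
    linarith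
  have g1 : Real.sqrt ((q * N : ℕ) : ℝ) ≤ 2 * Real.sqrt y := by
    rw [show 2 * Real.sqrt y = Real.sqrt (4 * y) by
      rw [Real.sqrt_mul (by norm_num), show (4 : ℝ) = 2 ^ 2 by norm_num,
        Real.sqrt_sq (by norm_num)]]
    exact Real.sqrt_le_sqrt (by linarith [show (0 : ℝ) ≤ y by positivity])
  have g2 : Real.sqrt (n : ℝ) ≤ 2 * Real.sqrt y := by
    rw [show 2 * Real.sqrt y = Real.sqrt (4 * y) by
      rw [Real.sqrt_mul (by norm_num), show (4 : ℝ) = 2 ^ 2 by norm_num,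
        Real.sqrt_sq (by norm_num)]]
    exact Real.sqrt_le_sqrt (by linarith [show (0 : ℝ) ≤ y by positivity])
  have g3 : 4 * Real.sqrt c * ∫ x, W (q * N) x ∂gam ≤ 40 * C * Real.sqrt y := by
    have h1 := hWb (q * N) (by nlinarith) hqNr
    rw [hsc, hsqrt]
    have h2 : 4 * (1 / Y ^ 2) * ∫ x, W (q * N) x ∂gam ≤ 4 * (1 / Y ^ 2) * (C * (10 * Y ^ 21)) :=
      mul_le_mul_of_nonneg_left h1 (by positivity)
    refine h2.trans ?_
    have h3 : 4 * (1 / Y ^ 2) * (C * (10 * Y ^ 21)) = 40 * C * Y ^ 19 := by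
      field_simp
      ring
    rw [h3]
    have h4 : Y ^ 19 ≤ Y ^ 20 := pow_le_pow_right₀ (by linarith) (by norm_num)
    exact mul_le_mul_of_nonneg_left h4 (by positivity)
  have g4 : (1 - 2 * (1 / 100 : ℝ)) * L n = 0.98 * L n := by norm_num
  rw [g4] at hcore
  linarith

/-- `(log (n+2))^{1/3}` -/
def phi (n : ℕ) : ℝ := (Real.log ((n : ℝ) + 2)) ^ (1 / 3 : ℝ)

lemma log_ge_one' (n : ℕ) (hn : 1 ≤ n) : 1 ≤ Real.log ((n : ℝ) + 2) := by
  rw [Real.le_log_iff_exp_le (by positivity)]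
  have h1 := Real.exp_one_lt_d9
  have h2 : (1 : ℝ) ≤ n := by exact_mod_cast hn
  linarith

lemma phi_ge_one {n : ℕ} (hn : 1 ≤ n) : 1 ≤ phi n :=
  Real.one_le_rpow (log_ge_one' n hn) (by norm_num)

lemma growth (H : ∀ τ : ℝ, 0 < τ → ∃ ε : ℝ, 0 < ε ∧ ∀ᶠ n : ℕ in atTop,
    gam (gapSet n ε) ≤ ENNReal.ofReal τ) :
    ∃ A : ℝ, 0 < A ∧ ∀ y : ℕ, 1 ≤ y → L y ≤ A * Real.sqrt y * phi y := by
  obtain ⟨C, hC, hrec⟩ := recursion H
  obtain ⟨y₀, hy₀⟩ := Filter.eventually_atTop.mp hrec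
  obtain ⟨A, hA⟩ : ∃ A : ℝ, A = 20 * C + ∑ k ∈ range (y₀ + 1), |L k| := ⟨_, rfl⟩
  have hsum0 : 0 ≤ ∑ k ∈ range (y₀ + 1), |L k| := Finset.sum_nonneg fun k _ => abs_nonneg _
  have hA0 : 0 < A := by rw [hA]; linarith
  refine ⟨A, hA0, ?_⟩
  intro y
  induction y using Nat.strong_induction_on with
  | _ y ih =>
    intro hy1
    have hsq1 : 1 ≤ Real.sqrt y := by
      rw [Real.one_le_sqrt]
      exact_mod_cast hy1
    have hphi := phi_ge_one hy1
    by_cases hlt : y < y₀ + 1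
    · have h1 : L y ≤ A := by
        have h2 : |L y| ≤ ∑ k ∈ range (y₀ + 1), |L k| :=
          Finset.single_le_sum (f := fun k => |L k|) (fun k _ => abs_nonneg _)
            (Finset.mem_range.mpr hlt)
        have h3 := le_abs_self (L y)
        rw [hA]
        linarith
      calc L y ≤ A * 1 * 1 := by linarith
        _ ≤ A * Real.sqrt y * phi y := by gcongr
    · obtain ⟨q, N, hq1, hN1, hqN, hNy, hlog, hineq⟩ := hy₀ y (by omega)
      have hIH := ih N hNy hN1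
      have hq0 : (0 : ℝ) ≤ Real.sqrt q := Real.sqrt_nonneg _
      -- bound for phi N
      have hphiN : phi N ≤ 0.92 * phi y := by
        unfold phi
        have hl1 : 0 ≤ Real.log ((N : ℝ) + 2) := by linarith [log_ge_one' N hN1]
        have hl2 : 0 ≤ Real.log ((y : ℝ) + 2) := by linarith [log_ge_one' y hy1]
        have h1 : (Real.log ((N : ℝ) + 2)) ^ (1 / 3 : ℝ) ≤
            (0.77 * Real.log ((y : ℝ) + 2)) ^ (1 / 3 : ℝ) :=
          Real.rpow_le_rpow hl1 hlog (by norm_num)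
        rw [Real.mul_rpow (by norm_num) hl2] at h1
        refine h1.trans (mul_le_mul_of_nonneg_right ?_ (Real.rpow_nonneg hl2 _))
        have h2 : (0.77 : ℝ) ≤ (0.92 : ℝ) ^ (3 : ℝ) := by
          rw [show (3 : ℝ) = ((3 : ℕ) : ℝ) by norm_num, Real.rpow_natCast]
          norm_num
        have h3 := Real.rpow_le_rpow (by norm_num) h2 (show (0 : ℝ) ≤ 1 / 3 by norm_num)
        rw [← Real.rpow_mul (by norm_num)] at h3
        norm_num at h3 ⊢
        exact h3
      have hsqrt : Real.sqrt q * Real.sqrt N ≤ 1.01 * Real.sqrt y := by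
        rw [← Real.sqrt_mul (by positivity)]
        rw [Real.sqrt_le_left (by positivity), mul_pow, Real.sq_sqrt (by positivity)]
        have : (0 : ℝ) ≤ y := by positivity
        nlinarith
      have hphiN0 : 0 ≤ phi N := by linarith [phi_ge_one hN1]
      have h1 : Real.sqrt q * L N ≤ A * (1.01 * Real.sqrt y) * (0.92 * phi y) := by
        calc Real.sqrt q * L N ≤ Real.sqrt q * (A * Real.sqrt N * phi N) :=
              mul_le_mul_of_nonneg_left hIH hq0
          _ = A * (Real.sqrt q * Real.sqrt N) * phi N := by ring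
          _ ≤ A * (1.01 * Real.sqrt y) * (0.92 * phi y) := by gcongr
      have h2 : C * Real.sqrt y ≤ 0.05 * (A * Real.sqrt y * phi y) := by
        have h3 : 20 * C ≤ A := by rw [hA]; linarith
        have h4 : 0 ≤ Real.sqrt y := by linarith
        calc C * Real.sqrt y = 0.05 * (20 * C * Real.sqrt y * 1) := by ring
          _ ≤ 0.05 * (A * Real.sqrt y * phi y) := by gcongr
      have h5 : 0 ≤ A * Real.sqrt y * phi y := by positivity
      nlinarith

/-- The largest gap does not stay bounded away from zero in probability. -/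
theorem no_gap : ¬ (∀ τ : ℝ, 0 < τ → ∃ ε : ℝ, 0 < ε ∧ ∀ᶠ n : ℕ in atTop,
    gam {x | 2 ≤ nev n x (Set.Ici (lam n x - ε))} ≤ ENNReal.ofReal τ) := by
  intro H
  obtain ⟨A, hA, hup⟩ := growth H
  obtain ⟨c, hc, hlow⟩ := L_lower
  -- log n → ∞
  have hlogt : Tendsto (fun n : ℕ => Real.log (n : ℝ)) atTop atTop :=
    Real.tendsto_log_atTop.comp tendsto_natCast_atTop_atTop
  have ev := hlogt.eventually_gt_atTop (4 * (A / c) ^ 6 + 1)
  obtain ⟨n, h1, h2, h3⟩ := (hlow.and (ev.and (Filter.eventually_ge_atTop 2))).exists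
  have h4 := hup n (by omega)
  obtain ⟨t, ht⟩ : ∃ t, t = Real.log (n : ℝ) := ⟨_, rfl⟩
  rw [← ht] at h1 h2
  have ht0 : 0 < t := by
    have : 0 ≤ (A / c) ^ 6 := by positivity
    linarith
  have hn0 : (0 : ℝ) < n := by exact_mod_cast (show 0 < n by omega)
  have hn2 : (2 : ℝ) ≤ n := by exact_mod_cast h3
  have hlog2 : Real.log ((n : ℝ) + 2) ≤ 2 * t := by
    have h5 : (n : ℝ) + 2 ≤ n ^ 2 := by nlinarith
    have h6 := Real.log_le_log (by positivity) h5
    rw [Real.log_pow] at h6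
    push_cast at h6
    rw [ht]
    exact h6
  have hsq : 0 < Real.sqrt n := Real.sqrt_pos.mpr hn0
  have h7 : c * Real.sqrt t ≤ A * phi n := by
    rw [Real.sqrt_mul hn0.le] at h1
    have h8 : (c * Real.sqrt t) * Real.sqrt n ≤ (A * phi n) * Real.sqrt n := by linarith
    exact le_of_mul_le_mul_right h8 hsq
  -- sixth powers
  have hp : 0 ≤ c * Real.sqrt t := by positivity
  have h9 := pow_le_pow_left₀ hp h7 6
  have h10 : (Real.sqrt t) ^ 6 = t ^ 3 := by
    calc (Real.sqrt t) ^ 6 = ((Real.sqrt t) ^ 2) ^ 3 := by ring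
      _ = t ^ 3 := by rw [Real.sq_sqrt ht0.le]
  have hl0 : 0 ≤ Real.log ((n : ℝ) + 2) := Real.log_nonneg (by linarith)
  have h11 : (phi n) ^ 6 = (Real.log ((n : ℝ) + 2)) ^ 2 := by
    unfold phi
    rw [← Real.rpow_natCast, ← Real.rpow_mul hl0, ← Real.rpow_natCast]
    norm_num
  rw [mul_pow, mul_pow, h10, h11] at h9
  have h12 : (Real.log ((n : ℝ) + 2)) ^ 2 ≤ (2 * t) ^ 2 := pow_le_pow_left₀ hl0 hlog2 2
  have h13 : c ^ 6 * t ^ 3 ≤ A ^ 6 * (4 * t ^ 2) := by
    calc c ^ 6 * t ^ 3 ≤ A ^ 6 * (Real.log ((n : ℝ) + 2)) ^ 2 := h9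
      _ ≤ A ^ 6 * (2 * t) ^ 2 := by gcongr
      _ = _ := by ring
  have h14 : t ≤ 4 * (A / c) ^ 6 := by
    have h15 : (c ^ 6 * t) * t ^ 2 ≤ (4 * A ^ 6) * t ^ 2 := by nlinarith
    have h16 : c ^ 6 * t ≤ 4 * A ^ 6 := le_of_mul_le_mul_right h15 (by positivity)
    rw [div_pow, ← mul_div_assoc, le_div_iff₀ (by positivity)]
    linarith
  linarith

end

end Pool.Agent.Helper12.Toep
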